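import Mathlib

/-!
# Definitions for the theorems on the cyclotomic `μ`-invariant

All fields are subfields of `ℂ`, also infinite algebraic extensions of `ℚ`.
-/

set_option autoImplicit false

open NumberField

namespace Pool.Agent.MuCyc

/-- The class number of the subfield `E` of `ℂ` (the number of elements of the class group of its
ring of integers). -/
noncomputable def classNo (E : IntermediateField ℚ ℂ) : ℕ := Nat.card (ClassGroup (𝓞 E))

/-- `Q` is the `n`-th layer of the cyclotomic `ℤ_p`-extension of `ℚ`: it has degree `p ^ n` over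
`ℚ`, consists of real numbers, and is contained in `ℚ(ζ)` for a root of unity `ζ` of `p`-power
order. -/
def IsLayer (p n : ℕ) (Q : IntermediateField ℚ ℂ) : Prop :=
  Module.finrank ℚ Q = p ^ n ∧ (∀ z ∈ Q, (starRingEnd ℂ) z = z) ∧
    ∃ m : ℕ, Q ≤ IntermediateField.adjoin ℚ {z : ℂ | z ^ (p ^ m) = 1}

/-- The cyclotomic `ℤ_p`-extension of `K`: the compositum of `K` and all layers of the cyclotomic
`ℤ_p`-extension of `ℚ`. -/
noncomputable def cycExt (p : ℕ) (K : IntermediateField ℚ ℂ) : IntermediateField ℚ ℂ :=
  K ⊔ sSup {Q | ∃ n : ℕ, IsLayer p n Q}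

/-- The Galois extension `M / E` is unramified at all finite primes: all inertia groups are trivial.
If `V` is a valuation ring of `ℂ` (it induces a valuation ring of `M`, every valuation ring of `M` is
obtained in this way) and `σ` is an automorphism of `ℂ` which fixes all elements of `E`, with
`σ x - x` in the maximal ideal of `V` for all `x ∈ M ∩ V`, then `σ` fixes all elements of `M`. -/
def Unramified (E M : IntermediateField ℚ ℂ) : Prop :=
  ∀ (V : ValuationSubring ℂ) (σ : ℂ ≃+* ℂ), (∀ x ∈ E, σ x = x) →
    (∀ x ∈ M, x ∈ V → σ x - x ∈ V.nonunits) → ∀ x ∈ M, σ x = x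

/-- The unramified Galois extensions of `E` of degree `p`. -/
def unramifiedExt (p : ℕ) (E : IntermediateField ℚ ℂ) : Set (IntermediateField ℚ ℂ) :=
  {M | ∃ h : E ≤ M, IsGalois E (IntermediateField.extendScalars h) ∧
    Module.finrank E (IntermediateField.extendScalars h) = p ∧ Unramified E M}

end Pool.Agent.MuCyc
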