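import Pool.Agent.VB.StVB
import Pool.Agent.MUX.UAll
import Pool.Agent.MUX.J_LAY

/-!
# VB: the final theorem (helper51)

`V_UMF`: for `p = 2, 3`, a totally complex number field `E` which contains the `p`-th roots of unity, and for which
the `p`-parts of the class numbers of the layers are bounded by a polynomial, `K ≤ E`: the cyclotomic
`ℤ_p`-extension of `K` has only finitely many unramified Galois extensions of degree `p`.
-/

set_option autoImplicit false

open NumberField IsDedekindDomain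
open scoped nonZeroDivisors Pointwise

namespace Pool.Agent.VB

open Pool.Agent.RI

noncomputable section

/-- the cyclotomic `ℤ_p`-extension of `K` -/
def cyc (p : ℕ) (K : IntermediateField ℚ ℂ) : IntermediateField ℚ ℂ :=
  K ⊔ sSup {Q | ∃ n : ℕ, IsLayer p n Q}

lemma cyc_eq {p : ℕ} {B : ℕ → IntermediateField ℚ ℂ} (hB : ∀ n, IsLayer p n (B n))
    (hu : ∀ (n : ℕ) (Q : IntermediateField ℚ ℂ), IsLayer p n Q → Q = B n)
    (K : IntermediateField ℚ ℂ) : cyc p K = Finf K B := by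
  unfold cyc Finf
  congr 1
  apply le_antisymm
  · refine sSup_le ?_
    rintro Q ⟨n, hQ⟩
    rw [hu n Q hQ]
    exact le_iSup B n
  · exact iSup_le fun n => le_sSup ⟨n, hB n⟩

lemma lay_fd {p n : ℕ} (hp : p.Prime) {B : IntermediateField ℚ ℂ} (h : IsLayer p n B) :
    FiniteDimensional ℚ B :=
  Module.finite_of_finrank_pos (by rw [h.1]; exact pow_pos hp.pos n)

/-- the final theorem -/
theorem V_UMF (hFNP : Sb_FNP) (hRED : Sb_RED) (p : ℕ) (hp : p = 2 ∨ p = 3)
    (K E : IntermediateField ℚ ℂ) [FiniteDimensional ℚ E] (hKE : K ≤ E) (hTC : TCx E)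
    (hz : ∃ ζ ∈ E, IsPrimitiveRoot ζ p)
    (hb : ∃ C : ℕ, ∀ (n : ℕ) (Q : IntermediateField ℚ ℂ), IsLayer p n Q →
      padicValNat p (classNo (E ⊔ Q)) ≤ C * (n + 1) ^ C) :
    (UM p (cyc p K)).Finite := by
  have hpp : p.Prime := by
    rcases hp with rfl | rfl <;> norm_num
  have : Fact p.Prime := ⟨hpp⟩
  obtain ⟨B, hB, hmono, hu⟩ := MUXJ.t_LAY p hp
  obtain ⟨C, hC⟩ := hb
  rw [cyc_eq hB hu K]
  refine hRED p K E B (fun n => lay_fd hpp (hB n)) hmono hKE ?_
  exact hFNP p E B hB hmono hTC hz ⟨C, fun n => hC n (B n) (hB n)⟩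

/-! ## Abelian extensions in terms of automorphisms of `ℂ` -/

/-- `M / L` is abelian: the automorphisms which fix `L` commute on `M` -/
def Cmt (L M : IntermediateField ℚ ℂ) : Prop :=
  ∀ σ τ : ℂ ≃+* ℂ, Fixes L σ → Fixes L τ → ∀ x ∈ M, σ (τ x) = τ (σ x)

lemma cmt_sup {L M M' : IntermediateField ℚ ℂ} (h : Cmt L M) (h' : Cmt L M') :
    Cmt L (M ⊔ M') := by
  intro σ τ hσ hτ
  have h1 : M ⊔ M' ≤ FixF ((τ * σ)⁻¹ * (σ * τ)) := by
    refine sup_le ?_ ?_
    · intro x hx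
      show (τ * σ).symm (σ (τ x)) = x
      rw [RingEquiv.symm_apply_eq]
      exact h σ τ hσ hτ x hx
    · intro x hx
      show (τ * σ).symm (σ (τ x)) = x
      rw [RingEquiv.symm_apply_eq]
      exact h' σ τ hσ hτ x hx
  intro x hx
  have h2 : (τ * σ).symm (σ (τ x)) = x := h1 hx
  rw [RingEquiv.symm_apply_eq] at h2
  exact h2

lemma cmt_adj {L : IntermediateField ℚ ℂ} {S : Set ℂ}
    (h : ∀ σ τ : ℂ ≃+* ℂ, ∀ x ∈ S, σ (τ x) = τ (σ x)) :
    Cmt L (IntermediateField.adjoin ℚ S) := by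
  intro σ τ _ _
  have h1 : IntermediateField.adjoin ℚ S ≤ FixF ((τ * σ)⁻¹ * (σ * τ)) := by
    rw [IntermediateField.adjoin_le_iff]
    intro x hx
    show (τ * σ).symm (σ (τ x)) = x
    rw [RingEquiv.symm_apply_eq]
    exact h σ τ x hx
  intro x hx
  have h2 : (τ * σ).symm (σ (τ x)) = x := h1 hx
  rw [RingEquiv.symm_apply_eq] at h2
  exact h2

/-- roots of unity -/
lemma zeta_cmt (p : ℕ) (σ τ : ℂ ≃+* ℂ) (ζ : ℂ) (hζ : IsPrimitiveRoot ζ p) (hp : 0 < p) :
    σ (τ ζ) = τ (σ ζ) := by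
  have h1 : ∀ ρ : ℂ ≃+* ℂ, ∃ i, ζ ^ i = ρ ζ := by
    intro ρ
    have : NeZero p := ⟨hp.ne'⟩
    obtain ⟨i, -, hi⟩ := hζ.eq_pow_of_pow_eq_one (ξ := ρ ζ) (by
      rw [← map_pow, hζ.pow_eq_one, map_one])
    exact ⟨i, hi⟩
  obtain ⟨i, hi⟩ := h1 σ
  obtain ⟨j, hj⟩ := h1 τ
  rw [← hj, ← hi, map_pow, map_pow, ← hi, ← hj, ← pow_mul, ← pow_mul, mul_comm]

lemma zeta_nrm (p : ℕ) (ζ : ℂ) (hζ : IsPrimitiveRoot ζ p) (hp : 0 < p)
    (L : IntermediateField ℚ ℂ) : Nrm L (IntermediateField.adjoin ℚ {ζ}) := by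
  intro σ _
  have h1 : IntermediateField.adjoin ℚ {ζ} ≤ PreF σ (IntermediateField.adjoin ℚ {ζ}) := by
    rw [IntermediateField.adjoin_le_iff, Set.singleton_subset_iff]
    show σ ζ ∈ IntermediateField.adjoin ℚ {ζ}
    have : NeZero p := ⟨hp.ne'⟩
    obtain ⟨i, -, hi⟩ := hζ.eq_pow_of_pow_eq_one (ξ := σ ζ) (by
      rw [← map_pow, hζ.pow_eq_one, map_one])
    rw [← hi]
    exact pow_mem (IntermediateField.mem_adjoin_simple_self ℚ ζ) i
  exact fun x hx => h1 hx

/-- `K / k` is abelian (`k ≤ K`) -/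
def AbE (k K : IntermediateField ℚ ℂ) : Prop :=
  ∃ h : k ≤ K, IsGalois k (IntermediateField.extendScalars h) ∧
    ∀ σ τ : (IntermediateField.extendScalars h) ≃ₐ[k] (IntermediateField.extendScalars h),
      σ * τ = τ * σ

lemma abE_iff (hNRM : Sb_NRM) {k K : IntermediateField ℚ ℂ} (hk : k ≤ K)
    (hK : Algebra.IsAlgebraic ℚ K) : AbE k K ↔ Nrm k K ∧ Cmt k K := by
  constructor
  · rintro ⟨h, hG, hc⟩
    have hN : Nrm k K := (hNRM k K hK h).1 hG
    refine ⟨hN, ?_⟩
    -- restriction of an automorphism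
    have key : ∀ σ : ℂ ≃+* ℂ, Fixes k σ →
        ∃ s : (IntermediateField.extendScalars h) ≃ₐ[k] (IntermediateField.extendScalars h),
          ∀ x : IntermediateField.extendScalars h, ((s x : _) : ℂ) = σ (x : ℂ) := by
      intro σ hσ
      have hσ' : Fixes k σ⁻¹ := fixes_inv hσ
      refine ⟨AlgEquiv.ofRingEquiv (f :=
        { toFun := fun x => ⟨σ (x : ℂ), hN σ hσ x x.2⟩
          invFun := fun x => ⟨(σ⁻¹ : ℂ ≃+* ℂ) (x : ℂ), hN σ⁻¹ hσ' x x.2⟩
          left_inv := fun x => Subtype.ext (σ.symm_apply_apply (x : ℂ))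
          right_inv := fun x => Subtype.ext (σ.apply_symm_apply (x : ℂ))
          map_mul' := fun x y => Subtype.ext (map_mul σ (x : ℂ) (y : ℂ))
          map_add' := fun x y => Subtype.ext (map_add σ (x : ℂ) (y : ℂ)) }) ?_, ?_⟩
      · intro r
        apply Subtype.ext
        exact hσ (r : ℂ) r.2
      · intro x
        rfl
    intro σ τ hσ hτ x hx
    obtain ⟨s, hs⟩ := key σ hσ
    obtain ⟨t, ht⟩ := key τ hτ
    have h1 := congrArg (fun g : (IntermediateField.extendScalars h) ≃ₐ[k]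
      (IntermediateField.extendScalars h) =>
        ((g (⟨x, hx⟩ : IntermediateField.extendScalars h) : _) : ℂ)) (hc s t)
    simp only [AlgEquiv.mul_apply, hs, ht] at h1
    exact h1
  · rintro ⟨hN, hC⟩
    refine ⟨hk, (hNRM k K hK hk).2 hN, ?_⟩
    have key : ∀ s : (IntermediateField.extendScalars hk) ≃ₐ[k]
        (IntermediateField.extendScalars hk), ∃ σ : ℂ ≃+* ℂ, Fixes k σ ∧
          ∀ x : IntermediateField.extendScalars hk, ((s x : _) : ℂ) = σ (x : ℂ) := by
      intro s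
      obtain ⟨σ, hσ⟩ := MUXU.u_AUE K hK
        { toFun := fun x => ((s ⟨(x : ℂ), x.2⟩ : IntermediateField.extendScalars hk) : ℂ)
          map_one' := by
            have : s (1 : IntermediateField.extendScalars hk) = 1 := map_one s
            exact congrArg Subtype.val this
          map_mul' := fun x y => congrArg Subtype.val
            (map_mul s (⟨(x : ℂ), x.2⟩ : IntermediateField.extendScalars hk) ⟨(y : ℂ), y.2⟩)
          map_zero' := by
            have : s (0 : IntermediateField.extendScalars hk) = 0 := map_zero s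
            exact congrArg Subtype.val this
          map_add' := fun x y => congrArg Subtype.val
            (map_add s (⟨(x : ℂ), x.2⟩ : IntermediateField.extendScalars hk) ⟨(y : ℂ), y.2⟩) }
      refine ⟨σ, ?_, ?_⟩
      · intro x hx
        have h1 := hσ ⟨x, hk hx⟩
        have h2 : s (algebraMap k (IntermediateField.extendScalars hk) ⟨x, hx⟩) =
          algebraMap k (IntermediateField.extendScalars hk) ⟨x, hx⟩ := s.commutes ⟨x, hx⟩
        have h3 := congrArg Subtype.val h2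
        exact h1.trans h3
      · intro x
        exact (hσ ⟨(x : ℂ), x.2⟩).symm
    intro s t
    obtain ⟨σ, hσ, hs⟩ := key s
    obtain ⟨τ, hτ, ht⟩ := key t
    apply AlgEquiv.ext
    intro x
    apply Subtype.ext
    rw [AlgEquiv.mul_apply, AlgEquiv.mul_apply, hs, ht, ht, hs]
    exact hC σ τ hσ hτ x x.2

/-- adjoining the `p`-th roots of unity to an abelian extension -/
theorem abE_zeta (hNRM : Sb_NRM) (p : ℕ) (hp : 0 < p) {k K : IntermediateField ℚ ℂ}
    [FiniteDimensional ℚ K] (h : AbE k K) (ζ : ℂ) (hζ : IsPrimitiveRoot ζ p) :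
    FiniteDimensional ℚ ↥(K ⊔ IntermediateField.adjoin ℚ {ζ}) ∧
      AbE k (K ⊔ IntermediateField.adjoin ℚ {ζ}) := by
  have hk : k ≤ K := h.1
  have hint : IsIntegral ℚ ζ := by
    have : IsIntegral ℤ ζ := hζ.isIntegral hp
    exact this.tower_top
  have hfdz : FiniteDimensional ℚ (IntermediateField.adjoin ℚ ({ζ} : Set ℂ)) :=
    IntermediateField.adjoin.finiteDimensional hint
  have hfd : FiniteDimensional ℚ ↥(K ⊔ IntermediateField.adjoin ℚ ({ζ} : Set ℂ)) :=
    IntermediateField.finiteDimensional_sup K (IntermediateField.adjoin ℚ ({ζ} : Set ℂ))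
  refine ⟨hfd, ?_⟩
  obtain ⟨hN, hC⟩ := (abE_iff hNRM hk inferInstance).1 h
  rw [abE_iff hNRM (hk.trans le_sup_left) inferInstance]
  refine ⟨nrm_sup hN (zeta_nrm p ζ hζ hp k), cmt_sup hC (cmt_adj ?_)⟩
  intro σ τ x hx
  rw [Set.mem_singleton_iff] at hx
  rw [hx]
  exact zeta_cmt p σ τ ζ hζ hp

end

end Pool.Agent.VB
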