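import Pool.Agent.VB.Defs
import Pool.Agent.MU3.StD

/-!
# VB: statements (helper51)

`F` a number field (subfield of `ℂ`), `B n` the layers of the cyclotomic `ℤ_p`-extension of `ℚ`, `F_∞ = Finf F B`. MAIN THEOREM
(`Sb_FNP`, `Sb_RED`): if `v_p h(F' B_n)` is bounded by a polynomial in `n` for a totally complex finite `F' ⊇ F` with `μ_p ⊆ F'`,
then `F_∞` has only finitely many unramified Galois extensions of degree `p`. So `X / p X` is finite, `X` the Galois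
group of the maximal unramified abelian pro-`p` extension of `F_∞`: `μ = 0`.

Every `def Sb_X : Prop` is the statement of a module; it is proved as `theorem tb_X (h : Sb_Y) .. : Sb_X` in
`Pool/Agent/VB/V_X.lean`, namespace `Pool.Agent.VB`, where the `Sb_Y` are the statements named after USES (or fewer). Theorems
which are on main may be cited. ALWAYS AVAILABLE: (AUE) `Pool.Agent.MUXU.u_AUE` (`MUX/UAll.lean`): a ring homomorphism `F → ℂ`,
`F/ℚ` algebraic, extends to an automorphism of `ℂ`; (AUF) `u_AUF`: an element of `ℂ` fixed by all automorphisms which fix `F`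
(`F/ℚ` algebraic) is in `F`. The group operation of `ℂ ≃+* ℂ` is `(σ * τ) x = σ (τ x)`. Lemmas on `Fixes`, `Inr`, `TI`,
`adj`: `Defs.lean`.

PLAN. (1) inertia groups: `cI` is multiplicative (MUL). (2) the tower (TOW). (3) Kummer theory: `D_j` = the `x ∈ F_j` with
`F_j(x^(1/p)) / F_j` unramified. If `F_m(x^(1/p)) / F_m` is unramified, `x ∈ F_j`, `m > j`, then `x ∈ D_(j+1)` (VD2). (4)
`|D_j / F_j^p| ≤ p^(v_p h(F_j) + 1)` (CNT): the first inequality (FIQ of block HB) and densities. (5) `A = ⋃ D_j / F_∞^p`, `γ` acts,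
`|A^(γ^(p^j))| ≤ p^(v_p h(F_(j+1)) + 1) < 2^(p^j)` for one `j`, so `A` is finite (ABS).
-/

set_option autoImplicit false

open NumberField IsDedekindDomain Filter Topology
open scoped nonZeroDivisors Pointwise

namespace Pool.Agent.VB

open Pool.Agent.RI Pool.Agent.MU3 Pool.Agent.Lib_helper28.FROB

/-! ## 1. Inertia groups -/

/-- (FRC) the elements of `M ∩ V` are fractions; it suffices to test inertia on integers.

PROOF. (1) `P = {a ∈ 𝓞 M : a ∈ V.nonunits}` is a prime ideal of `𝓞 M` (integral elements are in `V`: valuation rings are integrally closed). Let `x ∈ M ∩ V`, `x ≠ 0`. If `P = 0`: `x = s/t` with `s, t ∈ 𝓞 M`, `t ≠ 0`, so `t ∉ V.nonunits`. If `P ≠ 0`, `w` the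
prime `P` (`HeightOneSpectrum`): if `w(x) ≤ 1` then `x = s/t` with `t ∉ P` (localization at `P`; compare `w_LOC` in `MU3/AVAll.lean` and its proof). If `w(x) > 1` then `x⁻¹ = s/t` with `s ∈ P`, `t ∉ P`: `t` is a unit of `V`, so `x⁻¹ ∈ V.nonunits`, but `x ∈ V`:
`1 = x x⁻¹ ∈ V.nonunits`, a contradiction. (2) `x = s/t`, `σ t - t ∈ V.nonunits`, so `σ t ∈ V`, `σ t ∉ V.nonunits`; `σ x - x = ((σ s - s) t - s (σ t - t)) / (t σ t)`, the numerator is in `V.nonunits`, the denominator is a unit of `V`. -/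
def Sb_FRC : Prop := ∀ (M : IntermediateField ℚ ℂ) [FiniteDimensional ℚ M]
    (V : ValuationSubring ℂ),
    (∀ x ∈ M, x ∈ V → ∃ s t : 𝓞 M, ((t : M) : ℂ) ∉ V.nonunits ∧
      x = ((s : M) : ℂ) / ((t : M) : ℂ)) ∧
    ∀ σ : ℂ ≃+* ℂ, (∀ x : 𝓞 M, σ ((x : M) : ℂ) - ((x : M) : ℂ) ∈ V.nonunits) → Inr V M σ

/-- (CRD) the numbers `cR`, `cI`.

PROOF. The restrictions to `M` of the automorphisms which fix `L` are the ring homomorphisms `M → ℂ` which are the identity on `L` (AUE: `M/ℚ` is algebraic), i.e. the elements of `M →ₐ[L] ℂ` for the algebra structure `algC h` on `M`: there are `[M : L]` (`AlgHom.card`, characteristic 0).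
`[M : ℚ] = [L : ℚ][M : L]` (`finrank_algC`, tower law). `cI` is the number of elements of a subset which contains the inclusion (the restriction of `1`); it is `1` iff the inclusion is the only element iff `TI V L M`. -/
def Sb_CRD : Prop := ∀ (L M : IntermediateField ℚ ℂ) [FiniteDimensional ℚ M] (h : L ≤ M),
    Module.finrank ℚ M = Module.finrank ℚ L * cR L M ∧ 0 < cR L M ∧
    Module.finrank L (IntermediateField.extendScalars h) = cR L M ∧
    Finite {f : M → ℂ // ∃ σ : ℂ ≃+* ℂ, Fixes L σ ∧ ∀ x : M, f x = σ x} ∧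
    ∀ V : ValuationSubring ℂ, 0 < cI V L M ∧ cI V L M ≤ cR L M ∧ (cI V L M = 1 ↔ TI V L M) ∧
      ((∀ σ : ℂ ≃+* ℂ, Fixes L σ → Inr V M σ) → cI V L M = cR L M)

/-- (NRM) normal extensions (also infinite ones).

PROOF. `→`: `σ` fixes `L`, `x ∈ M`: `σ x` is a root of the minimal polynomial of `x` over `L`, which splits in `M`. `←`: `M/L` is algebraic, separable (characteristic 0). For `x ∈ M` and a root `z` in `ℂ` of the minimal polynomial of `x` over `L` the homomorphism `L(x) → ℂ`, `x ↦ z`, extends to an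
automorphism `σ` of `ℂ` (AUE for `L(x)`, algebraic over `ℚ`), which fixes `L`: `z = σ x ∈ M`. So the polynomial splits in `M`. -/
def Sb_NRM : Prop := ∀ (L M : IntermediateField ℚ ℂ), Algebra.IsAlgebraic ℚ M → ∀ h : L ≤ M,
    (IsGalois L (IntermediateField.extendScalars h) ↔ Nrm L M)

/-- (CIR) the order of the inertia group is the ramification index.

USES FRC, NRM. PROOF. `G = Gal(M/L)` (`M ≃ₐ[L] M` with `algC h`, `isGalois_algC`). The set counted by `cI V L M` is in bijection with `{τ ∈ G : ∀ x ∈ 𝓞 M, τ x - x ∈ P}` (restriction: `Nrm`; extension: AUE; FRC (2)), which is `P.asIdeal.inertia G`. Mathlib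
`Ideal.card_inertia_eq_ramificationIdxIn` (`NumberTheory/RamificationInertia/Galois.lean`; the residue fields are finite, so perfect) and `Ideal.ramificationIdxIn_eq_ramificationIdx`. Compare `J_RAM.lean`/`J_INJ.lean` in `Pool/Agent/MUX`. -/
def Sb_CIR : Prop := ∀ (V : ValuationSubring ℂ) (L M : IntermediateField ℚ ℂ)
    [FiniteDimensional ℚ M] (h : L ≤ M), Nrm L M → ∀ P : HeightOneSpectrum (𝓞 M),
    (∀ x : 𝓞 M, x ∈ P.asIdeal ↔ ((x : M) : ℂ) ∈ V.nonunits) →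
    letI := algC h
    cI V L M = P.asIdeal.ramificationIdx (𝓞 L)

/-- (MUL) the orders of the inertia groups are multiplicative; trivial inertia in a subextension.

USES FRC, CRD, CIR. PROOF. `Nrm M' M` follows from `Nrm L M`. `P = {x ∈ 𝓞 M : x ∈ V.nonunits}`, a prime ideal. Case `P = 0`: `M ⊆ V` (`x = s/t`, `t ∉ V.nonunits`, so `t⁻¹ ∈ V`); `M ∩ V.nonunits = 0`, so an inert `σ` which maps `M` to `M` is trivial on `M`: all three numbers are `1` (CRD).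
Case `P ≠ 0`: (CIR) for `M/L`, `M/M'` with `P` and for `M'/L` with `P' = P ∩ 𝓞 M'` (it is `≠ 0` as it contains the integer `absNorm P`), `Ideal.ramificationIdx_tower`. The second part: `cI V L M = 1` implies `cI V L M' = 1` (CRD). -/
def Sb_MUL : Prop := ∀ (V : ValuationSubring ℂ) (L M' M : IntermediateField ℚ ℂ)
    [FiniteDimensional ℚ M], L ≤ M' → M' ≤ M → Nrm L M' → Nrm L M →
    cI V L M = cI V M' M * cI V L M' ∧ (TI V L M → TI V L M')

/-- (UNR) unramified in the sense of block HB.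

USES CIR, CRD. PROOF. `w` a prime of `𝓞 M` above `v`; (EXT) `MU3X.v_EXT` (`MU3/AVAll.lean`) with the inclusion `M → ℂ` gives `V` with `V.valuation x < 1 ↔ w.valuation M x < 1`, so `x ∈ w ↔ x ∈ V.nonunits` for `x ∈ 𝓞 M`. `TI V L M`: `cI = 1`, so `e = 1` (CIR). `Ideal.ramificationIdx'_eq_ramificationIdx`,
`HeightOneSpectrum.valuation_liesOver`: `ord w (iu x) = e ord v x` (see `Pool/Agent/HB/H_ORN.lean`). -/
def Sb_UNR : Prop := ∀ (L M : IntermediateField ℚ ℂ) [FiniteDimensional ℚ L]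
    [FiniteDimensional ℚ M] (h : L ≤ M), Nrm L M → UNR L M →
    letI := algC h
    ∀ v : HeightOneSpectrum (𝓞 L), Pool.Agent.HB.Unr L M v

/-! ## 2. The tower -/

/-- (CYQ) ramification in the layers.

USES FRC, NRM, MUL. PROOF. `B ≤ C = ℚ(ζ)`, `ζ` a primitive root of unity of order `p^m`. (1) `p ∈ V.nonunits`: `(ζ - 1)^(p^m) ∈ p ℤ[ζ]`, so `ζ - 1 ∈ V.nonunits`, and all `ζ^i - 1`. `𝓞 C = ℤ[ζ]` (`IsCyclotomicExtension.Rat.isIntegralClosure_adjoin_singleton_of_prime_pow`): `x = Σ a_i ζ^i`,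
`σ ζ = ζ^a`, `σ x - x = Σ a_i (ζ^(a i) - ζ^i) ∈ V.nonunits`. FRC (2): `Inr V C σ`, so `Inr V B σ`. (2) `p ∉ V.nonunits`. `TI V ⊥ C`: `σ` inert on `C`: `σ ζ - ζ = ζ (ζ^(a-1) - 1) ∈ V.nonunits`, `ζ` is a unit of `V`. If `η = ζ^(a-1) ≠ 1`: `η` is a primitive root of order `p^i`, `i ≥ 1`, and
`1 - η` divides `p` in `ℤ[η] ⊆ V` (`∏ (1 - η^b) = p`: `Polynomial.eval_one_cyclotomic_prime_pow`), so `p ∈ V.nonunits`, a contradiction. So `σ ζ = ζ`. (MUL) for `⊥ ≤ B ≤ C` (`C/ℚ` and `B/ℚ` are Galois: `LAY_thm`; NRM). -/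
def Sb_CYQ : Prop := ∀ (p n : ℕ) [Fact p.Prime] (B : IntermediateField ℚ ℂ), IsLayer p n B →
    ∀ V : ValuationSubring ℂ, ((p : ℂ) ∈ V.nonunits → ∀ σ : ℂ ≃+* ℂ, Inr V B σ) ∧
      ((p : ℂ) ∉ V.nonunits → TI V ⊥ B)

/-- (DEG) the degrees of the layers.

PROOF. `LAY_thm`, `t_LAYC` (`RID/P_LAYC.lean`): `B m / ℚ` is cyclic of degree `p^m`, so its subfields are the `B i`, `i ≤ m` (one for each degree; compare `MUX/J_LDX.lean`). If `B (n+1) ≤ F ⊔ B n` for all `n` then `F ⊔ B n = F ⊔ B 0 = F` for all `n`, `p^n = [B n : ℚ] ≤ [F : ℚ]` for all `n`: false. So there is `n₀` with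
`¬ B (n₀+1) ≤ E₀ = F ⊔ B n₀`. For `m ≥ n₀`: `E₀ ∩ B m` contains `B n₀` and is one of the `B i`, not `⊇ B (n₀+1)`, so it is `B n₀`, `[E₀ ⊔ B m : E₀] = [B m : E₀ ∩ B m] = p^(m-n₀)`, `E₀ ⊔ B m = F ⊔ B m`. Divide. -/
def Sb_DEG : Prop := ∀ (p : ℕ) [Fact p.Prime] (F : IntermediateField ℚ ℂ)
    [FiniteDimensional ℚ F] (B : ℕ → IntermediateField ℚ ℂ), (∀ n, IsLayer p n (B n)) →
    Monotone B → ∃ n₀ : ℕ, ∀ n m : ℕ, n₀ ≤ n → n ≤ m →
      Module.finrank ℚ ↥(F ⊔ B m) = Module.finrank ℚ ↥(F ⊔ B n) * p ^ (m - n)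

/-- (GAM) a topological generator.

USES CRD, NRM. PROOF. `F_m = F ⊔ B (n₁+m)`, `G_m = Gal(F_m / F_0)`: the restriction to `B (n₁+m)` is injective, so `G_m` is cyclic (`t_LAYC`) of order `p^m`. `F_1 ≠ F_0`: by AUF there is `γ` which fixes `F_0` and not `F_1`. Let `g = γ|F_m`, `m ≥ 1`. The elements of `G_m` which fix `F_1` form a
subgroup of index `p` of the cyclic group `G_m` of order `p^m`, it consists of the `p`-th powers, `g` is not in it; so `g` generates `G_m`, of order `p^m`: `γ^(p^m)` fixes `F_m`. If `σ` fixes `F_j`, `j ≤ m`: `σ = γ^a` on `F_m`, `γ^a` fixes `F_j`, the order of `γ|F_j` is `p^j`, so `a = p^j i`. (All automorphisms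
of `F_m/F_0` are restrictions: AUE.) -/
def Sb_GAM : Prop := ∀ (p : ℕ) [Fact p.Prime] (F : IntermediateField ℚ ℂ)
    [FiniteDimensional ℚ F] (B : ℕ → IntermediateField ℚ ℂ), (∀ n, IsLayer p n (B n)) →
    Monotone B → ∀ n₁ : ℕ,
    (∀ j, Module.finrank ℚ ↥(F ⊔ B (n₁ + j)) = Module.finrank ℚ ↥(F ⊔ B n₁) * p ^ j) →
    ∃ γ : ℂ ≃+* ℂ, (∀ j, Fixes (F ⊔ B (n₁ + j)) (γ ^ p ^ j)) ∧
      ∀ j m, j ≤ m → ∀ σ : ℂ ≃+* ℂ, Fixes (F ⊔ B (n₁ + j)) σ →
        ∃ i : ℕ, ∀ x ∈ F ⊔ B (n₁ + m), σ x = (γ ^ (p ^ j * i)) x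

/-- (TOT) total ramification above `p`.

USES MUL, CRD, NRM, CYQ. PROOF. `F̃` = the normal closure of `F` in `ℂ` (finite over `ℚ`, `Nrm ⊥ F̃`), `[F̃ : ℚ] ≤ p^(n₀)`. Let `m > n ≥ n₀` (for `m ≤ n` trivial), `N = F̃ ⊔ B m`. (MUL) for `⊥ ≤ B m ≤ N`, (CYQ), (CRD): `cI V ⊥ N ≥ cI V ⊥ (B m) = cR ⊥ (B m) = p^m`. (MUL) for `⊥ ≤ F̃ ≤ N`:
`cI V ⊥ N = cI V F̃ N * cI V ⊥ F̃ ≤ cI V F̃ N * p^(n₀)`. So `cI V F̃ N ≥ p^(m-n₀)`. `H` = the restrictions to `B m` of the automorphisms which fix `F̃` and are inert on `N`: a subgroup (`inr_mul`, `inr_inv`) of `Gal(B m/ℚ)`, which is cyclic of order `p^m` (`t_LAYC`), of order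
`cI V F̃ N` (on `N` such a `σ'` is determined by its restriction to `B m`). The subgroup of the elements which fix `B n` has order `p^(m-n) ∣ |H|`, so it is contained in `H` (cyclic group). So for `σ` which fixes `F ⊔ B n` there is `σ'` as above with `σ' = σ` on `B m`, and on `F ≤ F̃`; so on
`F ⊔ B m`, where `σ'` is inert. -/
def Sb_TOT : Prop := ∀ (p : ℕ) [Fact p.Prime] (F : IntermediateField ℚ ℂ)
    [FiniteDimensional ℚ F] (B : ℕ → IntermediateField ℚ ℂ), (∀ n, IsLayer p n (B n)) →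
    Monotone B → ∃ n₀ : ℕ, ∀ n m : ℕ, n₀ ≤ n → ∀ V : ValuationSubring ℂ,
      (p : ℂ) ∈ V.nonunits → ∀ σ : ℂ ≃+* ℂ, Fixes (F ⊔ B n) σ → Inr V (F ⊔ B m) σ

/-- (TOW) the tower exists.

USES DEG, GAM, TOT, CYQ, NRM. PROOF. `n₁` = the maximum of the numbers of DEG and TOT, `γ` from GAM. `nrm`: `B n/ℚ` is Galois (`LAY_thm`, NRM). `unl`: `σ` fixes `F ⊔ B _` and is inert on `F ⊔ B m`, so on `B m` (`inr_mono`), it fixes `⊥`, so it fixes `B m` (CYQ), and `F`. -/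
def Sb_TOW : Prop := ∀ (p : ℕ) [Fact p.Prime] (F : IntermediateField ℚ ℂ)
    [FiniteDimensional ℚ F] (B : ℕ → IntermediateField ℚ ℂ), (∀ n, IsLayer p n (B n)) →
    Monotone B → (∃ ζ ∈ F, IsPrimitiveRoot ζ p) → ∃ (n₁ : ℕ) (γ : ℂ ≃+* ℂ), Tow p F B n₁ γ

/-- (LIM) `F_∞` is the union of the layers.

PROOF. (1) The union of the directed family `F ⊔ B n` is a field (`IntermediateField.mem_iSup_of_directed`, `F ⊔ ⨆ B n = ⨆ (F ⊔ B n)`). (2) the same for `adj (F ⊔ B n) y`. (3) every element of `F_∞` is in some `F ⊔ B n`, finite over `ℚ`, so algebraic. (4) finitely many elements are in one layer. -/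
def Sb_LIM : Prop := ∀ (F : IntermediateField ℚ ℂ) (B : ℕ → IntermediateField ℚ ℂ),
    Monotone B →
    (∀ x ∈ Finf F B, ∃ n : ℕ, x ∈ F ⊔ B n) ∧
    (∀ y, ∀ x ∈ adj (Finf F B) y, ∃ n : ℕ, x ∈ adj (F ⊔ B n) y) ∧
    ((∀ n, FiniteDimensional ℚ ↥(F ⊔ B n)) → Algebra.IsAlgebraic ℚ (Finf F B))

/-! ## 3. Kummer theory -/

/-- (DGR) the elements with unramified `p`-th root.

USES MUL. PROOF. `ζ ∈ L`: for `σ` which fixes `L` and `y^p ∈ L`: `σ y = η y`, `η^p = 1`, `η ∈ L` (a power of `ζ`): so `adj L y` is `Nrm`, finite over `ℚ`. (1) `y^p = t^p`: `y = η t ∈ L`, `adj L y = L`, `TI V L L` is trivial. (2) `y^p = x x'`, `y₁^p = x` (exists in `ℂ`), `y₂ = y / y₁`, `y₂^p = x'`,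
`N = adj L y₁ ⊔ adj L y₂ ∋ y`: `TI V L N` (`ti_sup`), (MUL) second part for `L ≤ adj L y ≤ N`. (3) `adj L y⁻¹ = adj L y`. (4) `adj L' y = L' ⊔ adj L y`, `ti_base`. (5) `y^p = σ x`, `y₁ = σ⁻¹ y`, `y₁^p = x`, `V' = V.comap σ` (`a ∈ V' ↔ σ a ∈ V`, `a ∈ V'.nonunits ↔ σ a ∈ V.nonunits`): if `τ` fixes `L` and is inert for `V` on
`adj L y` then `σ⁻¹ τ σ` fixes `L` and is inert for `V'` on `adj L y₁` (`σ` maps `adj L y₁` to `adj L y`), so it fixes `y₁`: `τ y = y`. -/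
def Sb_DGR : Prop := ∀ (p : ℕ) [Fact p.Prime] (L : IntermediateField ℚ ℂ)
    [FiniteDimensional ℚ L], (∃ ζ ∈ L, IsPrimitiveRoot ζ p) →
    (∀ t ∈ L, t ≠ 0 → InD p L (t ^ p)) ∧
    (∀ x x' : ℂ, InD p L x → InD p L x' → InD p L (x * x')) ∧
    (∀ x : ℂ, InD p L x → InD p L x⁻¹) ∧
    (∀ L' : IntermediateField ℚ ℂ, L ≤ L' → ∀ x : ℂ, InD p L x → InD p L' x) ∧
    ∀ σ : ℂ ≃+* ℂ, (∀ x ∈ L, σ x ∈ L) → (∀ x ∈ L, (σ⁻¹ : ℂ ≃+* ℂ) x ∈ L) →
      ∀ x : ℂ, InD p L x → InD p L (σ x)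

/-- (VD2) descent of unramifiedness in the tower.

USES MUL, CRD. PROOF. `F_i = F ⊔ B (n₁+i)`, `N = adj F_m y`, finite over `ℚ`; `Nrm F_i N` for `j ≤ i ≤ m` (`σ y = η y`, `η ∈ F`; `Tow.nrm`), also `Nrm F_i F_m`, `Nrm F_(j+1) E`, `E = adj F_(j+1) y ≤ N`. CLAIM: if `σ` fixes `F_(j+1)` and is inert on `N` then `σ y = y`. Given this: the sets counted by `cI V F_(j+1) N` and `cI V E N` are
equal, (MUL) for `F_(j+1) ≤ E ≤ N` gives `cI V F_(j+1) E = 1`, so `TI V F_(j+1) E`. Proof of the claim. `p ∉ V.nonunits`: `Tow.unl`: `σ` fixes `F_m`, so by hypothesis `N ∋ y`. `p ∈ V.nonunits`: (MUL) for `F_j ≤ F_m ≤ N`, `Tow.tot`, (CRD): `cI V F_j N = cI V F_m N * cI V F_j F_m = cR F_j F_m`. The restriction to `F_m` of the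
automorphisms which fix `F_j` and are inert on `N` is injective (two of them, `σ, τ`, equal on `F_m`: `τ⁻¹ σ` fixes `F_m` and is inert on `N`, so it fixes `N`), the numbers are equal, so it is surjective: there is `τ` which fixes `F_j`, is inert on `N`, and is equal to `γ^(p^j)` on `F_m`. `Tow.gen`:
`σ = γ^(p^(j+1) i) = τ^(p i)` on `F_m` (`F_m` is stable). `τ^(-p i) σ` fixes `F_m` and is inert on `N`, so `σ y = τ^(p i) y`. `τ y = η y`, `η ∈ F`, `η^p = 1`: `τ^p y = η^p y = y`. So `σ y = y`. -/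
def Sb_VD2 : Prop := ∀ (p : ℕ) [Fact p.Prime] (F : IntermediateField ℚ ℂ)
    (B : ℕ → IntermediateField ℚ ℂ) (n₁ : ℕ) (γ : ℂ ≃+* ℂ), Tow p F B n₁ γ →
    ∀ (j m : ℕ) (x y : ℂ) (V : ValuationSubring ℂ), x ∈ F ⊔ B (n₁ + j) → x ≠ 0 → y ^ p = x →
    j + 1 ≤ m → TI V (F ⊔ B (n₁ + m)) (adj (F ⊔ B (n₁ + m)) y) →
    TI V (F ⊔ B (n₁ + (j + 1))) (adj (F ⊔ B (n₁ + (j + 1))) y)

/-- (VD1) from `F_∞` to the layers.

USES VD2, LIM. PROOF. `F_i = F ⊔ B (n₁+i)`. `y'^p = x`: `y' = η y`, `η ∈ F`, `adj F_(j+1) y' = adj F_(j+1) y`. Let `V` be given. By AUF (`F_∞/ℚ` is algebraic: LIM) there is `ρ` which fixes `F_∞`, `ρ y ≠ y`. `ρ` is not inert on `adj F_∞ y`: there is `z ∈ adj F_∞ y`, `z ∈ V`, `ρ z - z ∉ V.nonunits`. `z ∈ adj F_m y` for some `m ≥ j+1` (LIM, monotone).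
`TI V F_m (adj F_m y)`: let `σ` fix `F_m` and be inert on `adj F_m y`; if `σ y = η y`, `η ≠ 1`, then `ρ y = η^k y` for some `k` (`η` generates the group of `p`-th roots of unity), `σ^k = ρ` on `adj F_m y` (both fix `F_m`), `σ^k` is inert (`inr_pow`; `adj F_m y` is stable): `ρ z - z ∈ V.nonunits`, a contradiction. (VD2). -/
def Sb_VD1 : Prop := ∀ (p : ℕ) [Fact p.Prime] (F : IntermediateField ℚ ℂ)
    (B : ℕ → IntermediateField ℚ ℂ) (n₁ : ℕ) (γ : ℂ ≃+* ℂ), Tow p F B n₁ γ →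
    ∀ (j : ℕ) (x y : ℂ), x ∈ F ⊔ B (n₁ + j) → x ≠ 0 → y ^ p = x → y ∉ Finf F B →
    UNR (Finf F B) (adj (Finf F B) y) → InD p (F ⊔ B (n₁ + (j + 1))) x

/-- (KUF) Galois extensions of degree `p` are Kummer extensions.

PROOF. The group has prime order `p`, it is cyclic; Mathlib `FieldTheory/KummerExtension.lean` (`exists_root_adjoin_eq_top_of_isCyclic`): `M = E(y)`, `y^p ∈ E`; `y ∉ E` as the degree is `p > 1`. `adj E y` and `IntermediateField.adjoin E {y}` have the same elements. -/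
def Sb_KUF : Prop := ∀ (p : ℕ) [Fact p.Prime] (E M : IntermediateField ℚ ℂ) (h : E ≤ M),
    (∃ ζ ∈ E, IsPrimitiveRoot ζ p) → IsGalois E (IntermediateField.extendScalars h) →
    Module.finrank E (IntermediateField.extendScalars h) = p →
    ∃ y : ℂ, y ^ p ∈ E ∧ y ∉ E ∧ M = adj E y

/-- (KDX) Kummer descent.

USES NRM. PROOF. `F_i = F ⊔ B (n₁+i)`, `g = γ^(p^j)`, `q = p^(m-j)`, `g^q = γ^(p^m)` fixes `F_m`. `n = ∏_(i<q) g^i w`: `n^p = ∏ g^i (g z / z) = g^q z / z = 1`. `g|F_(m+1)` generates the cyclic group `Gal(F_(m+1)/F_j)` of order `p q` (`Tow.gen`, `Tow.deg`, NRM), and `∏_(i < p q) g^i w = n^p = 1` (`g^q w = w`). Hilbert 90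
(`t_CYC` in `RID/P_CYC.lean` for the fields `F_j`, `F_j`, `F_(m+1)`, or `groupCohomology.exists_div_of_norm_eq_one`): `w = g u / u`, `u ∈ F_(m+1)`, `u ≠ 0`. `x = z / u^p`: `g x = z w^p / (g u)^p = x`, `x ∈ F_(m+1)`. Every `σ` which fixes `F_j` is a power of `g` on `F_(m+1)`, so it fixes `x`: `x ∈ F_j` (AUF). (`w ≠ 0` as `z ≠ 0`.) -/
def Sb_KDX : Prop := ∀ (p : ℕ) [Fact p.Prime] (F : IntermediateField ℚ ℂ)
    (B : ℕ → IntermediateField ℚ ℂ) (n₁ : ℕ) (γ : ℂ ≃+* ℂ), Tow p F B n₁ γ →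
    ∀ (j m : ℕ) (z w : ℂ), j ≤ m → z ∈ F ⊔ B (n₁ + m) → z ≠ 0 → w ∈ F ⊔ B (n₁ + m) →
    (γ ^ p ^ j) z = z * w ^ p →
    ∃ x ∈ F ⊔ B (n₁ + j), ∃ u ∈ F ⊔ B (n₁ + (m + 1)), u ≠ 0 ∧ z = x * u ^ p

/-- (KFI) when two Kummer extensions are equal.

PROOF. Some `σ` which fixes `L` has `σ y ≠ y` (AUF), `σ y = η y`, `η` a primitive `p`-th root of unity in `L`. `σ y' = η^j y'` for some `j < p` (`y' ≠ 0`, `(σ y'/y')^p = 1`). `t = y' / y^j` is fixed by `σ`, so by all `τ` which fix `L` (`τ y = η^k y = σ^k y`, so `τ = σ^k` on `adj L y ∋ y'`), so `t ∈ L` (AUF) and `x' = x^j t^p`. -/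
def Sb_KFI : Prop := ∀ (p : ℕ) [Fact p.Prime] (L : IntermediateField ℚ ℂ)
    [FiniteDimensional ℚ L], (∃ ζ ∈ L, IsPrimitiveRoot ζ p) → ∀ (x x' : ℂˣ) (y y' : ℂ),
    (x : ℂ) ∈ L → (x' : ℂ) ∈ L → y ^ p = x → y' ^ p = x' → y ∉ L → y' ∈ adj L y →
    ∃ j < p, x' / x ^ j ∈ PL p L

/-! ## 4. Algebra -/

/-- (ABS) an abelian group of exponent `p` with an automorphism.

PROOF. `A = D / P` is killed by `p`, `T = s - 1` acts on it. `T^(p^m) = s^(p^m) - 1` on `A` (`T^p = s^p - 1`: the binomial coefficients are divisible by `p`; induction; signs: `(-1)^p = -1` in characteristic `p`). `K_i = ker (T^i)` (as a subgroup of `D` containing `P`), `K_0 = P`, `K_i ≤ K_(i+1)`, `K_(p^n) = K`. If `K_i ≠ K_(i+1)` for all `i < p^n` then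
`|K/P| = ∏ [K_(i+1) : K_i] ≥ 2^(p^n)`: false. So `K_i = K_(i+1)` for some `i < p^n`, and then `K_l = K_i` for all `l ≥ i` (`x ∈ K_(i+2)`: `T x ∈ K_(i+1) = K_i`, `x ∈ K_(i+1)`). Every `x ∈ D` is in some `K_(p^m)`: `D ≤ K_i ≤ K`. -/
def Sb_ABS : Prop := ∀ (G : Type) [CommGroup G] (p : ℕ) [Fact p.Prime] (s : G →* G)
    (D P : Subgroup G), P ≤ D → (∀ x ∈ D, s x ∈ D) → (∀ x ∈ P, s x ∈ P) →
    (∀ x ∈ D, x ^ p ∈ P) → (∀ x ∈ D, ∃ m : ℕ, (⇑s)^[p ^ m] x / x ∈ P) →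
    ∀ (n : ℕ) (K : Subgroup G), (∀ x, x ∈ K ↔ x ∈ D ∧ (⇑s)^[p ^ n] x / x ∈ P) →
    P.relIndex K ≠ 0 → P.relIndex K < 2 ^ (p ^ n) → P.relIndex D ≠ 0

/-- (CGP) the number of subgroups of index `p`.

PROOF. For `U` of index `p` there is a homomorphism `χ_U : A → ℂˣ` with kernel `U` (`A/U` is cyclic of order `p`), `χ_U^p = 1`. Different `U` have different `χ_U`. `Hom(A, ℂˣ) ≅ A` (`CommGroup.monoidHom_mulEquiv_of_hasEnoughRootsOfUnity`), so the number of `χ` with `χ^p = 1` is the number of `a ∈ A` with `a^p = 1`, the order of a subgroup of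
exponent `p`, a power of `p` which divides `|A|`. -/
def Sb_CGP : Prop := ∀ (A : Type) [CommGroup A] [Finite A] (p : ℕ) [Fact p.Prime]
    (T : Finset (Subgroup A)), (∀ U ∈ T, U.index = p) →
    T.card ≤ p ^ padicValNat p (Nat.card A)

/-- (GRO) growth.

PROOF. `2^(p^j)` grows faster than `p^(C (n₁+j+2)^C + 1)`: `p^(...) ≤ 2^(p (C (n₁+j+2)^C + 1))`, and `p (C (n₁+j+2)^C + 1) < p^j` for large `j`. -/
def Sb_GRO : Prop := ∀ (p C n₁ : ℕ), p.Prime →
    ∃ j : ℕ, p ^ (C * (n₁ + j + 2) ^ C + 1) < 2 ^ (p ^ j)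

/-! ## 5. Densities

`x s v = N(v)^(-s)`, `cl L v` the class of `v`, `spl L N v` the number of primes of `N` above `v` with the norm of `v`,
`HB.Deg1 L M v`: some prime of `M` above `v` has the norm of `v`. -/

/-- (IDX) = `S_IDX` of `MUX/StKX.lean`: `k_IDX` in `MUX/KAllX.lean`. -/
def Sb_IDX : Prop := ∀ (L : Type) [Field L] [NumberField L] (B : Set (HeightOneSpectrum (𝓞 L)))
    (c : ℝ), 0 < c →
    (∃ C : ℝ, ∀ᶠ s : ℝ in 𝓝[>] 1,
      c * Real.log (1 / (s - 1)) - C ≤ ∑' v, Set.indicator B (x s) v) →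
    ∀ U : Subgroup (ClassGroup (𝓞 L)), (∀ v ∈ B, cl L v ∈ U) → (U.index : ℝ) * c ≤ 1

/-- (DLB) the primes with a degree one prime above have density at least `1 / [M : L]`.

PROOF. `isBigO_sum` (for `M`): `∑_w x s w ≥ log (1/(s-1)) - C`. The `w` whose norm is not a prime number contribute `O(1)` (`m_DEG2`, `MU3/MDEG2.lean`). If `N w` is a prime number, `v = w ∩ L`: `N w = (N v)^f`, `N v ≠ 1`, so `N v = N w` and `v ∈ B = {v | Deg1 L M v}`. At most `[M : L]` primes `w` lie above a given `v`. So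
`∑_(w, N w prime) x s w ≤ [M : L] ∑_(v ∈ B) x s v` (sum over the fibres; compare `MU3/MSPLS.lean`). -/
def Sb_DLB : Prop := ∀ (L M : Type) [Field L] [NumberField L] [Field M] [NumberField M]
    [Algebra L M], ∃ C : ℝ, ∀ᶠ s : ℝ in 𝓝[>] 1,
      Real.log (1 / (s - 1)) - C ≤ (Module.finrank L M : ℝ) *
        ∑' v, Set.indicator {v : HeightOneSpectrum (𝓞 L) | Pool.Agent.HB.Deg1 L M v} (x s) v

/-- (UIX) the index is at most `p`.

USES IDX, DLB. PROOF. `B = {v | Deg1 L M v} \ S`, `∑_B x ≥ (1/p) log (1/(s-1)) - C` (DLB; `x s v ≤ 1`, `S` finite). IDX with `c = 1/p`. -/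
def Sb_UIX : Prop := ∀ (L M : Type) [Field L] [NumberField L] [Field M] [NumberField M]
    [Algebra L M] (p : ℕ), p.Prime → Module.finrank L M = p →
    ∀ (U : Subgroup (ClassGroup (𝓞 L))) (S : Finset (HeightOneSpectrum (𝓞 L))),
    (∀ v ∉ S, Pool.Agent.HB.Deg1 L M v → cl L v ∈ U) → U.index ≤ p

/-- (SPN) primes which split completely in `M` and `M'` split completely in `N = M M'`.

PROOF. `W` a prime of `N` above `v`, `w = W ∩ M`. `e(w|v) = 1` (`Unr`: `valuation_liesOver` with a uniformizer `x` of `v`: `e ord v x = ord w (iu x) = ord v x`), `f(w|v) = 1` (`Deg1` gives one prime with `f = 1`, all `f` are equal: Galois). So the stabilizer of `w` in `Gal(M/L)` is trivial (order `e f`: `Ideal.card_stabilizer_eq`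
in `NumberTheory/RamificationInertia/Galois.lean`). If `σ ∈ Gal(N/L)`, `σ W = W`, then the restriction of `σ` to `M` fixes `w`, so it is trivial, the same for `M'`: `σ = 1`. So the stabilizer of `W` is trivial: `e(W|v) = f(W|v) = 1`, `N W = N v` and there are `|Gal(N/L)| = [N : L]` primes above `v`. -/
def Sb_SPN : Prop := ∀ (L M M' N : Type) [Field L] [NumberField L] [Field M] [NumberField M]
    [Field M'] [NumberField M'] [Field N] [NumberField N] [Algebra L M] [Algebra L M']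
    [Algebra L N] [Algebra M N] [Algebra M' N] [IsScalarTower L M N] [IsScalarTower L M' N]
    [IsGalois L M] [IsGalois L M'] [IsGalois L N],
    (∀ σ : N ≃ₐ[L] N, (∀ z : M, σ (algebraMap M N z) = algebraMap M N z) →
      (∀ z : M', σ (algebraMap M' N z) = algebraMap M' N z) → σ = 1) →
    ∀ v : HeightOneSpectrum (𝓞 L), Pool.Agent.HB.Unr L M v → Pool.Agent.HB.Unr L M' v →
    Pool.Agent.HB.Deg1 L M v → Pool.Agent.HB.Deg1 L M' v → Module.finrank L N ≤ spl L N v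

/-- (INA) two different unramified extensions do not have the same group `U`.

USES IDX, DLB, SPN. PROOF. `B, B'` = the `v` with `Deg1 L M v`, `Deg1 L M' v`. `∑_B x, ∑_B' x ≥ Λ/p - C`, `Λ = log (1/(s-1))` (DLB), `∑_(B ∩ B') x ≤ Λ/p² + C` (SPN, `m_SPLS` in `MU3/MSPLS.lean` with `m = p²`). So for `B₀ = (B ∪ B') \ S`: `∑_(B₀) x ≥ (2/p - 1/p²) Λ - C'`, all classes of `B₀` are in `U`; (IDX): `U.index (2/p - 1/p²) ≤ 1`, but
`U.index ≥ p` and `p (2/p - 1/p²) = 2 - 1/p > 1`. -/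
def Sb_INA : Prop := ∀ (L M M' N : Type) [Field L] [NumberField L] [Field M] [NumberField M]
    [Field M'] [NumberField M'] [Field N] [NumberField N] [Algebra L M] [Algebra L M']
    [Algebra L N] [Algebra M N] [Algebra M' N] [IsScalarTower L M N] [IsScalarTower L M' N]
    [IsGalois L M] [IsGalois L M'] [IsGalois L N] (p : ℕ), p.Prime →
    (∀ σ : N ≃ₐ[L] N, (∀ z : M, σ (algebraMap M N z) = algebraMap M N z) →
      (∀ z : M', σ (algebraMap M' N z) = algebraMap M' N z) → σ = 1) →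
    Module.finrank L M = p → Module.finrank L M' = p → Module.finrank L N = p ^ 2 →
    (∀ v : HeightOneSpectrum (𝓞 L), Pool.Agent.HB.Unr L M v) →
    (∀ v : HeightOneSpectrum (𝓞 L), Pool.Agent.HB.Unr L M' v) →
    ∀ (U : Subgroup (ClassGroup (𝓞 L))) (S : Finset (HeightOneSpectrum (𝓞 L))), p ≤ U.index →
    (∀ v ∉ S, Pool.Agent.HB.Deg1 L M v → cl L v ∈ U) →
    (∀ v ∉ S, Pool.Agent.HB.Deg1 L M' v → cl L v ∈ U) → False

/-- (FQI) = `Sh_FIQ` of `HB/StHB.lean` (the theorem will be `th_FIQ ..`, in a file `HB/HAll.lean` or so). -/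
def Sb_FQI : Prop := ∀ (k K : Type) [Field k] [NumberField k] [Field K] [NumberField K]
    [Algebra k K] (l m : ℕ) (σ : K ≃ₐ[k] K), l.Prime → Pool.Agent.HB.Cyc (l ^ m) σ →
    Pool.Agent.HB.TC k → (∀ v : HeightOneSpectrum (𝓞 k), Pool.Agent.HB.Unr k K v) →
    ∃ (U : Subgroup (ClassGroup (𝓞 k))) (S : Finset (HeightOneSpectrum (𝓞 k))),
      l ^ m ≤ U.index ∧ ∀ v ∉ S, Pool.Agent.HB.Deg1 k K v →
        ClassGroup.mk0 ⟨v.asIdeal, mem_nonZeroDivisors_of_ne_zero v.ne_bot⟩ ∈ U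

/-- (FQC) the group of an unramified extension of degree `p`.

USES FQI, UIX, UNR, NRM, CRD. PROOF. `M/L` is Galois (NRM, `isGalois_algC`) of prime degree `p` (CRD, `finrank_algC`), its group is cyclic: a generator `σ` gives `Cyc (p^1) σ`. `TC L`: an infinite place comes from an embedding `φ`, not real by `TCx`. `Unr`: UNR. (FQI) gives `U`, `S`, `p ≤ U.index`; (UIX): `U.index ≤ p`. -/
def Sb_FQC : Prop := ∀ (p : ℕ) [Fact p.Prime] (L M : IntermediateField ℚ ℂ)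
    [FiniteDimensional ℚ L] [FiniteDimensional ℚ M] (h : L ≤ M), TCx L → Nrm L M →
    cR L M = p → UNR L M →
    ∃ (U : Subgroup (ClassGroup (𝓞 L))) (S : Finset (HeightOneSpectrum (𝓞 L))), U.index = p ∧
      (letI := algC h; ∀ v ∉ S, Pool.Agent.HB.Deg1 L M v → cl L v ∈ U)

/-- (INJ) the group determines the extension.

USES INA, UNR, NRM, CRD. PROOF. Suppose `M ≠ M'`. `N = M ⊔ M'`, with the algebra structures `algC` (`towerC`), all Galois (NRM; `Nrm L N`). An automorphism of `N/L` which is trivial on `M` and `M'` is trivial (`fixes_sup`). `[N : L] = p²`: `M ∩ M' = L` (it is between `L` and `M`, degree `p` prime, `M ≠ M'`); `[N : M] = [M' : M ∩ M'] = p`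
(or: the restriction `Gal(N/L) → Gal(M/L) × Gal(M'/L)` is injective; `[N : L] ≤ p²`, it is divisible by `p`, and `N ≠ M`: `[N : M] > 1` divides..., use the degree formula for a Galois extension `M'/L`). (INA). -/
def Sb_INJ : Prop := ∀ (p : ℕ) [Fact p.Prime] (L M M' : IntermediateField ℚ ℂ)
    [FiniteDimensional ℚ L] [FiniteDimensional ℚ M] [FiniteDimensional ℚ M'] (h : L ≤ M)
    (h' : L ≤ M'), Nrm L M → Nrm L M' → cR L M = p → cR L M' = p → UNR L M → UNR L M' →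
    ∀ (U : Subgroup (ClassGroup (𝓞 L))) (S : Finset (HeightOneSpectrum (𝓞 L))), U.index = p →
    (letI := algC h; ∀ v ∉ S, Pool.Agent.HB.Deg1 L M v → cl L v ∈ U) →
    (letI := algC h'; ∀ v ∉ S, Pool.Agent.HB.Deg1 L M' v → cl L v ∈ U) → M = M'

/-- (CNT) the number of elements with unramified `p`-th root, modulo `p`-th powers.

USES FQC, INJ, CGP, KFI, CRD. PROOF. At most one `x ∈ T` is in `PL p L`. Let `x ∈ T' = T \ PL p L`, `y^p = x`, `y ∉ L`. `M_x = adj L y`: `Nrm L M_x` (`σ y = η y`), finite over `ℚ`, `cR L M_x = p` (some `σ` has `σ y = η y`, `η ≠ 1`, its powers give `p` different restrictions; a restriction is determined by `σ y / y`, a `p`-th root of unity), `UNR L M_x` (`InD`).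
(FQC): `U_x`, `S_x`, `U_x.index = p`. If `U_x = U_x'`, `x, x' ∈ T'`, then `M_x = M_x'` (INJ with `S = S_x ∪ S_x'`), so `x' / x^j ∈ PL p L` for some `j < p` (KFI), `j ≠ 0` as `x' ∉ PL`; and `x', x''` with the same `j` are equal (`x'/x'' ∈ PL`). So the fibres of `x ↦ U_x` have at most `p - 1` elements, and there are at most
`r = p^(v_p h)` different `U_x` (CGP; `classNo L = Nat.card (ClassGroup (𝓞 L))`). `|T| ≤ 1 + (p - 1) r ≤ p r`. -/
def Sb_CNT : Prop := ∀ (p : ℕ) [Fact p.Prime] (L : IntermediateField ℚ ℂ)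
    [FiniteDimensional ℚ L], TCx L → (∃ ζ ∈ L, IsPrimitiveRoot ζ p) → ∀ T : Finset ℂˣ,
    (∀ x ∈ T, InD p L (x : ℂ)) → (∀ x ∈ T, ∀ x' ∈ T, x ≠ x' → x / x' ∉ PL p L) →
    T.card ≤ p ^ (padicValNat p (classNo L) + 1)

/-! ## 6. Assembly -/

/-- (BND) the elements which are invariant under `γ^(p^j)` modulo `p`-th powers.

USES KDX, VD2, DGR, CNT, LIM. PROOF. `F_i = F ⊔ B (n₁+i)`. `x ∈ T`: there is `m ≥ j` with `InD p F_m x`, `w ∈ F_m` (LIM, DGR (4), monotone). (KDX): `x = x₀ u^p`, `x₀ ∈ F_j`, `u ∈ F_(m+1)`. `x₀ = x (u⁻¹)^p` satisfies `InD p F_(m+1) x₀` (DGR). (VD2) for all `y` with `y^p = x₀` and all `V` (with `m+1` for `m`): `InD p F_(j+1) x₀`. If `x₀, x₀'` belong to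
`x, x' ∈ T`, `x ≠ x'`, then `x₀ / x₀' ∉ PL p F_(j+1)`, since otherwise `x/x' = (x₀/x₀') (u/u')^p ∈ PL p F_∞`. In particular the `x₀` are different. (CNT) for `L = F_(j+1)` and the set of the `x₀`. -/
def Sb_BND : Prop := ∀ (p : ℕ) [Fact p.Prime] (F : IntermediateField ℚ ℂ)
    (B : ℕ → IntermediateField ℚ ℂ) (n₁ : ℕ) (γ : ℂ ≃+* ℂ), Tow p F B n₁ γ → TCx F →
    ∀ (j : ℕ) (T : Finset ℂˣ),
    (∀ x ∈ T, (∃ m : ℕ, InD p (F ⊔ B (n₁ + m)) (x : ℂ)) ∧
      ∃ w ∈ Finf F B, (γ ^ p ^ j) (x : ℂ) = (x : ℂ) * w ^ p) →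
    (∀ x ∈ T, ∀ x' ∈ T, x ≠ x' → x / x' ∉ PL p (Finf F B)) →
    T.card ≤ p ^ (padicValNat p (classNo (F ⊔ B (n₁ + (j + 1)))) + 1)

/-- (FNP) the main theorem for a field with `p`-th roots of unity.

USES TOW, LIM, DGR, BND, ABS, GRO, VD1, KUF. PROOF. `n₁, γ` (TOW), `F_i = F ⊔ B (n₁+i)`, `D = {x ∈ ℂˣ : InD p F_i x for some i}`, a subgroup (DGR, monotone), `P = PL p F_∞ ≤ D` (LIM, DGR (1)), `D^p ≤ P` (`D ⊆ F_∞`), `s = Units.map γ`: `s D ≤ D` (DGR (5): `F_i` is stable under `γ` and `γ⁻¹`: `Tow.fix 0`, `Tow.nrm`), `s P ≤ P`; `x ∈ D`, `x ∈ F_m`: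
`s^(p^m) x = x` (`Tow.fix`). `j` from GRO (with `C` the constant of the bound): `p^(v_p h(F_(j+1)) + 1) ≤ p^(C (n₁+j+2)^C + 1) < 2^(p^j)`. `K = {x ∈ D : s^(p^j) x / x ∈ P}`: by (BND) every finite set of elements of `K` which are pairwise inequivalent modulo `P` has less than `2^(p^j)` elements, so `[K : P]` is finite and `< 2^(p^j)`. (ABS): `D/P` is
finite. Let `M ∈ UM p F_∞`: (KUF) `M = adj F_∞ y`, `y^p ∈ F_∞`, `y ∉ F_∞`; `y^p ∈ F_i` for some `i` (LIM), `x = y^p ∈ D` (VD1). If `M, M'` give `x, x'` with `x' / x = t^p ∈ P`, then `y' = η t y` with `η ∈ F`, so `M' = M`. So `UM p F_∞` is finite. -/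
def Sb_FNP : Prop := ∀ (p : ℕ) [Fact p.Prime] (F : IntermediateField ℚ ℂ)
    [FiniteDimensional ℚ F] (B : ℕ → IntermediateField ℚ ℂ), (∀ n, IsLayer p n (B n)) →
    Monotone B → TCx F → (∃ ζ ∈ F, IsPrimitiveRoot ζ p) →
    (∃ C : ℕ, ∀ n : ℕ, padicValNat p (classNo (F ⊔ B n)) ≤ C * (n + 1) ^ C) →
    (UM p (Finf F B)).Finite

/-- (RED) from `F'` to `F ≤ F'`.

USES NRM. PROOF. `E = Finf F B ≤ E' = Finf F' B = F' ⊔ E`, `[E' : E]` is finite (`F'/ℚ` finite). Let `M ∈ UM p E`, `M'' = M ⊔ E'`. `M''/E'` is Galois, restriction to `M` embeds its group in `Gal(M/E)`, of order `p`: so `M'' = E'` or `[M'' : E'] = p`, and `UNR E' M''` (`ti_base`; `E' ⊔ M`): `M'' ∈ UM p E'`. So `M` is an intermediate field of `M''/E` with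
`M'' ∈ {E'} ∪ UM p E'`, a finite set; `M''/E` is finite and separable, so it has finitely many intermediate fields (`Field.exists_primitive_element`, `Field.finite_intermediateField_of_exists_primitive_element`, applied to `IntermediateField E M''`). -/
def Sb_RED : Prop := ∀ (p : ℕ) [Fact p.Prime] (F F' : IntermediateField ℚ ℂ)
    [FiniteDimensional ℚ F'] (B : ℕ → IntermediateField ℚ ℂ),
    (∀ n, FiniteDimensional ℚ (B n)) → Monotone B → F ≤ F' → (UM p (Finf F' B)).Finite →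
    (UM p (Finf F B)).Finite

/-- (TCQ) imaginary quadratic fields and their extensions are totally complex.

PROOF. `k = ℚ(z)`, `z` not real, `z² + b z + c = 0` with rational `b, c`, the roots are `z` and its complex conjugate; an embedding `φ : M → ℂ` maps `z` to one of them, which is not real. -/
def Sb_TCQ : Prop := ∀ (k M : IntermediateField ℚ ℂ), Module.finrank ℚ k = 2 →
    (∃ z ∈ k, (starRingEnd ℂ) z ≠ z) → k ≤ M → TCx M

end Pool.Agent.VB
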