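import Pool.Agent.VB.StVB

/-!
# (ABS): an abelian group of exponent `p` with an automorphism (helper76)
-/

set_option autoImplicit false

namespace Pool.Agent.VB

namespace ABSx

/-- `(S - 1)^(p^m) = S^(p^m) - 1` -/
lemma frob (p : ℕ) [Fact p.Prime] (V : Type) [AddCommGroup V] [Module (ZMod p) V]
    (S : Module.End (ZMod p) V) (m : ℕ) : (S - 1) ^ (p ^ m) = S ^ (p ^ m) - 1 := by
  have h : ((Polynomial.X : Polynomial (ZMod p)) - 1) ^ (p ^ m) =
      Polynomial.X ^ (p ^ m) - 1 := by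
    have := sub_pow_char_pow (R := Polynomial (ZMod p)) (p := p)
      (Polynomial.X : Polynomial (ZMod p)) 1 (n := m)
    rw [this, one_pow]
  have h2 := congrArg (Polynomial.aeval S) h
  simpa using h2

/-- the linear algebra -/
lemma lin (p : ℕ) [Fact p.Prime] (V : Type) [AddCommGroup V] [Module (ZMod p) V]
    (S : Module.End (ZMod p) V) (hloc : ∀ v, ∃ m : ℕ, (S ^ (p ^ m)) v = v) (n : ℕ)
    (hfin : Finite (LinearMap.ker ((S - 1) ^ (p ^ n))))
    (hlt : Nat.card (LinearMap.ker ((S - 1) ^ (p ^ n))) < 2 ^ (p ^ n)) :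
    ∀ v, (S ^ (p ^ n)) v = v := by
  classical
  set N : Module.End (ZMod p) V := S - 1 with hN
  have hmono : ∀ i j : ℕ, i ≤ j → LinearMap.ker (N ^ i) ≤ LinearMap.ker (N ^ j) := by
    intro i j hij x hx
    rw [LinearMap.mem_ker] at hx ⊢
    obtain ⟨k, rfl⟩ := Nat.exists_eq_add_of_le hij
    rw [add_comm, pow_add, Module.End.mul_apply, hx, map_zero]
  have hex : ∃ i < p ^ n, LinearMap.ker (N ^ i) = LinearMap.ker (N ^ (i + 1)) := by
    by_contra hc
    push Not at hc
    have hstep : ∀ i : ℕ, i ≤ p ^ n → i ≤ Module.finrank (ZMod p) (LinearMap.ker (N ^ i)) := by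
      intro i
      induction i with
      | zero => intro _; exact Nat.zero_le _
      | succ i ih =>
        intro hi
        have h1 := ih (by omega)
        have hlt' : LinearMap.ker (N ^ i) < LinearMap.ker (N ^ (i + 1)) :=
          lt_of_le_of_ne (hmono i (i + 1) (Nat.le_succ i)) (hc i (by omega))
        have hfin' : Finite (LinearMap.ker (N ^ (i + 1))) := by
          have hs : (LinearMap.ker (N ^ (i + 1)) : Set V) ⊆ LinearMap.ker (N ^ (p ^ n)) :=
            hmono (i + 1) (p ^ n) hi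
          exact (Set.Finite.subset (Set.toFinite _) hs).to_subtype
        have hfd : FiniteDimensional (ZMod p) (LinearMap.ker (N ^ (i + 1))) :=
          Module.Finite.of_finite
        have := Submodule.finrank_lt_finrank_of_lt hlt'
        omega
    have h1 := hstep (p ^ n) le_rfl
    have hcard := Module.natCard_eq_pow_finrank (K := ZMod p)
      (V := LinearMap.ker (N ^ (p ^ n)))
    rw [Nat.card_zmod] at hcard
    rw [hcard] at hlt
    have hp : 2 ≤ p := (Fact.out : p.Prime).two_le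
    have h2 : 2 ^ (p ^ n) ≤ p ^ (Module.finrank (ZMod p) (LinearMap.ker (N ^ (p ^ n)))) :=
      (Nat.pow_le_pow_left hp _).trans (Nat.pow_le_pow_right (by omega) h1)
    omega
  obtain ⟨i, hi, hker⟩ := hex
  intro v
  obtain ⟨m, hm⟩ := hloc v
  have h1 : v ∈ LinearMap.ker (N ^ (p ^ m)) := by
    rw [LinearMap.mem_ker, hN, frob, LinearMap.sub_apply, hm, Module.End.one_apply, sub_self]
  have h2 : v ∈ LinearMap.ker (N ^ (i + p ^ m)) := hmono _ _ (Nat.le_add_left _ _) h1
  rw [← Module.End.ker_pow_constant hker (p ^ m)] at h2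
  have h3 : v ∈ LinearMap.ker (N ^ (p ^ n)) := hmono i _ hi.le h2
  rw [LinearMap.mem_ker, hN, frob, LinearMap.sub_apply, Module.End.one_apply, sub_eq_zero] at h3
  exact h3

/-- the same for an additive homomorphism -/
lemma grpM (p : ℕ) [Fact p.Prime] (A : Type) [AddCommGroup A] [Module (ZMod p) A] (t : A →+ A)
    (hloc : ∀ x : A, ∃ m : ℕ, (⇑t)^[p ^ m] x = x) (n : ℕ)
    (L : Set A) (hL : ∀ x, x ∈ L ↔ (⇑t)^[p ^ n] x = x) (hL0 : Nat.card L ≠ 0)
    (hlt : Nat.card L < 2 ^ (p ^ n)) : ∀ x : A, (⇑t)^[p ^ n] x = x := by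
  let S : Module.End (ZMod p) A := t.toZModLinearMap p
  have hS : ∀ (k : ℕ) (x : A), (S ^ k) x = (⇑t)^[k] x := by
    intro k
    induction k with
    | zero => intro x; rfl
    | succ k ih =>
      intro x
      rw [pow_succ', Module.End.mul_apply, ih x, Function.iterate_succ_apply']
      rfl
  have hset : ∀ y : A, y ∈ LinearMap.ker ((S - 1) ^ (p ^ n)) ↔ y ∈ L := by
    intro y
    rw [LinearMap.mem_ker, frob, LinearMap.sub_apply, Module.End.one_apply, sub_eq_zero, hL, hS]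
  have hcard : Nat.card (LinearMap.ker ((S - 1) ^ (p ^ n))) = Nat.card L :=
    Nat.card_congr
      { toFun := fun y => ⟨y.1, (hset y.1).1 y.2⟩
        invFun := fun y => ⟨y.1, (hset _).2 y.2⟩
        left_inv := fun _ => rfl
        right_inv := fun _ => rfl }
  have hfin : Finite (LinearMap.ker ((S - 1) ^ (p ^ n))) :=
    Nat.finite_of_card_ne_zero (by rw [hcard]; exact hL0)
  have hall := lin p A S (by
      intro y
      obtain ⟨m, hm⟩ := hloc y
      exact ⟨m, by rw [hS, hm]⟩) n hfin (by rw [hcard]; exact hlt)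
  intro x
  have h := hall x
  rwa [hS] at h

/-- the same for an additive group of exponent `p` -/
lemma grpA (p : ℕ) [Fact p.Prime] (A : Type) [AddCommGroup A] (t : A →+ A)
    (hp0 : ∀ x : A, p • x = 0) (hloc : ∀ x : A, ∃ m : ℕ, (⇑t)^[p ^ m] x = x) (n : ℕ)
    (L : Set A) (hL : ∀ x, x ∈ L ↔ (⇑t)^[p ^ n] x = x) (hL0 : Nat.card L ≠ 0)
    (hlt : Nat.card L < 2 ^ (p ^ n)) : ∀ x : A, (⇑t)^[p ^ n] x = x :=
  @grpM p _ A _ (AddCommGroup.zmodModule hp0) t hloc n L hL hL0 hlt

/-- the same for a group of exponent `p` -/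
lemma grp (p : ℕ) [Fact p.Prime] (Q : Type) [CommGroup Q] (t : Q →* Q) (hp : ∀ x : Q, x ^ p = 1)
    (hloc : ∀ x : Q, ∃ m : ℕ, (⇑t)^[p ^ m] x = x) (n : ℕ) (L : Subgroup Q)
    (hL : ∀ x, x ∈ L ↔ (⇑t)^[p ^ n] x = x) (hL0 : Nat.card L ≠ 0)
    (hlt : Nat.card L < 2 ^ (p ^ n)) : ∀ x : Q, (⇑t)^[p ^ n] x = x :=
  grpA p (Additive Q) (MonoidHom.toAdditive t) hp hloc n (L : Set Q) hL hL0 hlt

end ABSx

theorem tb_ABS : Sb_ABS := by
  intro G _ p _ s D P hPD hsD hsP hDp hloc n K hK hK0 hlt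
  classical
  -- the quotient and the induced maps
  let sD : D →* D := (s.comp D.subtype).codRestrict D fun x => hsD x x.2
  have hsDv : ∀ x : D, ((sD x : D) : G) = s x := fun _ => rfl
  let P' : Subgroup D := P.subgroupOf D
  have hP' : P' ≤ P'.comap sD := by
    intro x hx
    rw [Subgroup.mem_comap]
    exact hsP _ hx
  let sQ : D ⧸ P' →* D ⧸ P' := QuotientGroup.map P' P' sD hP'
  have hsQ : ∀ x : D, sQ (QuotientGroup.mk x) = QuotientGroup.mk (sD x) := fun _ => rfl
  -- powers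
  have hit : ∀ (k : ℕ) (x : G), x ∈ D → (⇑s)^[k] x ∈ D := by
    intro k
    induction k with
    | zero => intro x hx; exact hx
    | succ k ih =>
      intro x hx
      rw [Function.iterate_succ_apply']
      exact hsD _ (ih x hx)
  have hS : ∀ (k : ℕ) (x : G) (hx : x ∈ D),
      (⇑sQ)^[k] (QuotientGroup.mk (⟨x, hx⟩ : D) : D ⧸ P') =
        (QuotientGroup.mk (⟨(⇑s)^[k] x, hit k x hx⟩ : D) : D ⧸ P') := by
    intro k
    induction k with
    | zero => intro x hx; rfl
    | succ k ih =>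
      intro x hx
      rw [Function.iterate_succ_apply', ih x hx, hsQ]
      congr 1
      apply Subtype.ext
      rw [hsDv]
      show s ((⇑s)^[k] x) = (⇑s)^[k + 1] x
      rw [Function.iterate_succ_apply']
  have hfix : ∀ (k : ℕ) (x : G) (hx : x ∈ D),
      (⇑sQ)^[k] (QuotientGroup.mk (⟨x, hx⟩ : D) : D ⧸ P') =
        (QuotientGroup.mk (⟨x, hx⟩ : D) : D ⧸ P') ↔ (⇑s)^[k] x / x ∈ P := by
    intro k x hx
    rw [hS k x hx]
    constructor
    · intro h1
      have h2 := QuotientGroup.eq.1 h1.symm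
      have h3 : x⁻¹ * (⇑s)^[k] x ∈ P := h2
      rwa [div_eq_mul_inv, mul_comm]
    · intro h
      have h3 : x⁻¹ * (⇑s)^[k] x ∈ P := by rwa [div_eq_mul_inv, mul_comm] at h
      have h1 : (QuotientGroup.mk (⟨x, hx⟩ : D) : D ⧸ P') =
          QuotientGroup.mk (⟨(⇑s)^[k] x, hit k x hx⟩ : D) := QuotientGroup.eq.2 h3
      exact h1.symm
  have hKD : K ≤ D := fun x hx => ((hK x).1 hx).1
  have hPK : P ≤ K := by
    intro x hx
    rw [hK]
    refine ⟨hPD hx, P.div_mem ?_ hx⟩
    have : ∀ k : ℕ, (⇑s)^[k] x ∈ P := by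
      intro k
      induction k with
      | zero => exact hx
      | succ k ih => rw [Function.iterate_succ_apply']; exact hsP _ ih
    exact this _
  -- `K / P` is the kernel
  let f : K →* D ⧸ P' := (QuotientGroup.mk' P').comp (Subgroup.inclusion hKD)
  have hfker : f.ker = P.subgroupOf K := by
    ext x
    rw [MonoidHom.mem_ker, Subgroup.mem_subgroupOf]
    show (QuotientGroup.mk (Subgroup.inclusion hKD x) : D ⧸ P') = 1 ↔ _
    rw [QuotientGroup.eq_one_iff]
    rfl
  have hcard : Nat.card f.range = P.relIndex K := by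
    rw [← Subgroup.index_ker f, hfker]
    rfl
  have hset : ∀ y : D ⧸ P', y ∈ f.range ↔ (⇑sQ)^[p ^ n] y = y := by
    intro y
    obtain ⟨⟨x, hx⟩, rfl⟩ := QuotientGroup.mk_surjective y
    rw [hfix]
    constructor
    · rintro ⟨⟨z, hz⟩, hz'⟩
      have h1 : (QuotientGroup.mk (⟨z, hKD hz⟩ : D) : D ⧸ P') = QuotientGroup.mk (⟨x, hx⟩ : D) :=
        hz'
      have h0 : (⟨z, hKD hz⟩ : D)⁻¹ * ⟨x, hx⟩ ∈ P' := QuotientGroup.eq.1 h1
      have h2 : z⁻¹ * x ∈ P := h0
      have h3 : x ∈ K := by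
        have := K.mul_mem hz (hPK h2)
        rwa [mul_inv_cancel_left] at this
      exact ((hK x).1 h3).2
    · intro h
      exact ⟨⟨x, (hK x).2 ⟨hx, h⟩⟩, rfl⟩
  have hall := ABSx.grp p (D ⧸ P') sQ (by
      intro y
      obtain ⟨x, rfl⟩ := QuotientGroup.mk_surjective y
      rw [← QuotientGroup.mk_pow, QuotientGroup.eq_one_iff]
      exact hDp x x.2) (by
      intro y
      obtain ⟨⟨x, hx⟩, rfl⟩ := QuotientGroup.mk_surjective y
      obtain ⟨m, hm⟩ := hloc x hx
      exact ⟨m, (hfix _ x hx).2 hm⟩) n f.range hset (by rw [hcard]; exact hK0)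
      (by rw [hcard]; exact hlt)
  have hDK : D ≤ K := by
    intro x hx
    rw [hK]
    exact ⟨hx, (hfix _ x hx).1 (hall _)⟩
  rw [le_antisymm hDK hKD]
  exact hK0

end Pool.Agent.VB
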