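import Pool.Agent.VB.StVB

/-!
# BND: the elements which are invariant under `γ^(p^j)` modulo `p`-th powers (helper28)
-/

set_option autoImplicit false

namespace Pool.Agent.VB

open Pool.Agent.RI

namespace BND

/-- a field of the tower contains the `p`-th roots of unity -/
lemma zeta_mem {p : ℕ} {F L : IntermediateField ℚ ℂ} (h : ∃ ζ ∈ F, IsPrimitiveRoot ζ p)
    (hL : F ≤ L) : ∃ ζ ∈ L, IsPrimitiveRoot ζ p := by
  obtain ⟨ζ, hζ, h1⟩ := h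
  exact ⟨ζ, hL hζ, h1⟩

lemma pl_mono {p : ℕ} {L L' : IntermediateField ℚ ℂ} (h : L ≤ L') : PL p L ≤ PL p L' := by
  rintro x ⟨t, ht, rfl⟩
  exact ⟨t, h ht, rfl⟩

/-- descent of one element -/
lemma descend (hKDX : Sb_KDX) (hVD2 : Sb_VD2) (hDGR : Sb_DGR) (hLIM : Sb_LIM) {p : ℕ}
    [Fact p.Prime] {F : IntermediateField ℚ ℂ} {B : ℕ → IntermediateField ℚ ℂ} {n₁ : ℕ}
    {γ : ℂ ≃+* ℂ} (hT : Tow p F B n₁ γ) (j : ℕ) (x : ℂˣ)
    (h1 : ∃ m : ℕ, InD p (F ⊔ B (n₁ + m)) (x : ℂ))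
    (h2 : ∃ w ∈ Finf F B, (γ ^ p ^ j) (x : ℂ) = (x : ℂ) * w ^ p) :
    ∃ x₀ : ℂˣ, InD p (F ⊔ B (n₁ + (j + 1))) (x₀ : ℂ) ∧ x / x₀ ∈ PL p (Finf F B) := by
  have hle : ∀ {a b : ℕ}, a ≤ b → F ⊔ B a ≤ F ⊔ B b := fun h => sup_le_sup_left (hT.mono h) F
  obtain ⟨m₁, hm₁⟩ := h1
  obtain ⟨w, hw, hγ⟩ := h2
  obtain ⟨n, hn⟩ := (hLIM F B hT.mono).1 w hw
  obtain ⟨m, hm1, hm2, hm3⟩ : ∃ m : ℕ, j ≤ m ∧ m₁ ≤ m ∧ n ≤ m :=
    ⟨max j (max m₁ n), le_max_left _ _, (le_max_left _ _).trans (le_max_right _ _),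
      (le_max_right _ _).trans (le_max_right _ _)⟩
  have := hT.fd (n₁ + m₁)
  have := hT.fd (n₁ + (m + 1))
  have hxm : (x : ℂ) ∈ F ⊔ B (n₁ + m) := hle (by omega) hm₁.1
  have hwm : w ∈ F ⊔ B (n₁ + m) := hle (by omega) hn
  obtain ⟨x', hx', u, hu, hu0, hxu⟩ :=
    hKDX p F B n₁ γ hT j m (x : ℂ) w hm1 hxm x.ne_zero hwm hγ
  have hx'0 : x' ≠ 0 := by
    rintro rfl
    rw [zero_mul] at hxu
    exact x.ne_zero hxu
  have hD := hDGR p (F ⊔ B (n₁ + m₁)) (zeta_mem hT.zeta le_sup_left)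
  have hD' := hDGR p (F ⊔ B (n₁ + (m + 1))) (zeta_mem hT.zeta le_sup_left)
  have h3 : InD p (F ⊔ B (n₁ + (m + 1))) (x : ℂ) := hD.2.2.2.1 _ (hle (by omega)) _ hm₁
  have h4 : InD p (F ⊔ B (n₁ + (m + 1))) (u⁻¹ ^ p) := hD'.1 _ (inv_mem hu) (inv_ne_zero hu0)
  have h5 : InD p (F ⊔ B (n₁ + (m + 1))) x' := by
    have h6 := hD'.2.1 _ _ h3 h4
    have h7 : (x : ℂ) * u⁻¹ ^ p = x' := by
      rw [hxu, mul_assoc, ← mul_pow, mul_inv_cancel₀ hu0, one_pow, mul_one]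
    rwa [h7] at h6
  refine ⟨Units.mk0 x' hx'0, ⟨hle (by omega) hx', hx'0, ?_⟩, Units.mk0 u hu0,
    le_Finf F B (n₁ + (m + 1)) hu, ?_⟩
  · intro y hy V
    exact hVD2 p F B n₁ γ hT j (m + 1) x' y V hx' hx'0 hy (by omega) (h5.2.2 y hy V)
  · rw [eq_div_iff_mul_eq']
    apply Units.ext
    rw [Units.val_mul, Units.val_pow_eq_pow_val, Units.val_mk0, Units.val_mk0]
    rw [mul_comm]
    exact hxu.symm

end BND

open BND in
theorem tb_BND (hKDX : Sb_KDX) (hVD2 : Sb_VD2) (hDGR : Sb_DGR) (hCNT : Sb_CNT)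
    (hLIM : Sb_LIM) : Sb_BND := by
  classical
  intro p _ F B n₁ γ hT hTC j T hT1 hT2
  have h1 : ∀ x : T, ∃ x₀ : ℂˣ, InD p (F ⊔ B (n₁ + (j + 1))) (x₀ : ℂ) ∧
      (x : ℂˣ) / x₀ ∈ PL p (Finf F B) := fun x =>
    descend hKDX hVD2 hDGR hLIM hT j x (hT1 x x.2).1 (hT1 x x.2).2
  choose f hf1 hf2 using h1
  have key : ∀ x x' : T, f x / f x' ∈ PL p (Finf F B) → x = x' := by
    intro x x' h
    by_contra hne
    have hne' : (x : ℂˣ) ≠ x' := fun h' => hne (Subtype.ext h')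
    apply hT2 x x.2 x' x'.2 hne'
    have h3 : (x : ℂˣ) / x' = ((x : ℂˣ) / f x) * (f x / f x') * ((x' : ℂˣ) / f x')⁻¹ := by
      rw [inv_div, div_mul_div_cancel, div_mul_div_cancel]
    rw [h3]
    exact mul_mem (mul_mem (hf2 x) h) (inv_mem (hf2 x'))
  have hinj : Function.Injective f := by
    intro x x' h
    apply key
    rw [h, div_self']
    exact one_mem _
  have := hT.fd (n₁ + (j + 1))
  have h4 := hCNT p (F ⊔ B (n₁ + (j + 1))) (tcx_mono le_sup_left hTC)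
    (zeta_mem hT.zeta le_sup_left) (Finset.univ.image f) ?_ ?_
  · rwa [Finset.card_image_of_injective _ hinj, Finset.card_univ, Fintype.card_coe] at h4
  · intro z hz
    obtain ⟨x, -, rfl⟩ := Finset.mem_image.1 hz
    exact hf1 x
  · intro z hz z' hz' hne h5
    obtain ⟨x, -, rfl⟩ := Finset.mem_image.1 hz
    obtain ⟨x', -, rfl⟩ := Finset.mem_image.1 hz'
    exact hne (congrArg f (key x x' (pl_mono (le_Finf F B _) h5)))

end Pool.Agent.VB
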