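import Pool.Agent.VB.StVB
import Mathlib.GroupTheory.FiniteAbelian.Duality
import Mathlib.GroupTheory.PGroup

/-!
# VB, module CGP (helper14): the number of subgroups of index `p`
-/

set_option autoImplicit false

namespace Pool.Agent.VB

namespace CGP

section

variable {A : Type} [CommGroup A] [Finite A]

/-- a character whose kernel is a given subgroup of index `p` -/
theorem exists_char (p : ℕ) [Fact p.Prime] (U : Subgroup A) (hU : U.index = p) :
    ∃ χ : A →* ℂˣ, χ.ker = U := by
  have hcard : Nat.card (A ⧸ U) = p := hU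
  have hp1 : 1 < Nat.card (A ⧸ U) := by
    rw [hcard]
    exact (Fact.out : p.Prime).one_lt
  have hnt : Nontrivial (A ⧸ U) := Finite.one_lt_card_iff_nontrivial.1 hp1
  obtain ⟨a, ha⟩ := exists_ne (1 : A ⧸ U)
  obtain ⟨φ, hφ⟩ := CommGroup.exists_apply_ne_one_of_hasEnoughRootsOfUnity (A ⧸ U) ℂ ha
  have hker : φ.ker = ⊥ := by
    have hpr : (Nat.card (A ⧸ U)).Prime := by rw [hcard]; exact Fact.out
    have hs : IsSimpleGroup (A ⧸ U) := isSimpleGroup_of_prime_card (p := p) hcard
    rcases hs.eq_bot_or_eq_top_of_normal φ.ker inferInstance with h | h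
    · exact h
    · exfalso
      apply hφ
      have : a ∈ φ.ker := by rw [h]; exact Subgroup.mem_top a
      exact this
  refine ⟨φ.comp (QuotientGroup.mk' U), ?_⟩
  rw [← MonoidHom.comap_ker, hker]
  ext x
  rw [Subgroup.mem_comap, Subgroup.mem_bot]
  exact QuotientGroup.eq_one_iff x

/-- the `p`-torsion is small -/
theorem card_tors (p : ℕ) [Fact p.Prime] (K : Subgroup A) (hKp : ∀ x ∈ K, x ^ p = 1) :
    Nat.card K ≤ p ^ padicValNat p (Nat.card A) := by
  have hp : p.Prime := Fact.out
  have hpg : IsPGroup p K := by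
    intro x
    refine ⟨1, ?_⟩
    rw [pow_one]
    exact Subtype.ext (hKp x.1 x.2)
  obtain ⟨n, hn⟩ := (IsPGroup.iff_card).1 hpg
  have hd : p ^ n ∣ Nat.card A := hn ▸ Subgroup.card_subgroup_dvd_card K
  rw [hn]
  exact Nat.pow_le_pow_right hp.pos
    ((padicValNat_dvd_iff_le (Nat.card_pos (α := A)).ne').1 hd)

/-- a character with kernel of index `p` is killed by `p` -/
theorem char_pow (p : ℕ) [Fact p.Prime] (χ : A →* ℂˣ) (hU : χ.ker.index = p) :
    χ ^ p = 1 := by
  apply MonoidHom.ext
  intro a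
  have h1 : a ^ p ∈ χ.ker := by
    have h2 := Subgroup.pow_index_mem (H := χ.ker) a
    rwa [hU] at h2
  have h3 : χ (a ^ p) = 1 := h1
  rw [MonoidHom.pow_apply, ← map_pow, h3, MonoidHom.one_apply]

end

/-- every subgroup of index `p` gets an element of the `p`-torsion, injectively -/
theorem exists_inj (A : Type) [CommGroup A] [Finite A] (p : ℕ) [Fact p.Prime] :
    ∃ f : Subgroup A → A, (∀ U : Subgroup A, U.index = p → f U ^ p = 1) ∧
      ∀ U V : Subgroup A, U.index = p → V.index = p → f U = f V → U = V := by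
  classical
  have e := (CommGroup.monoidHom_mulEquiv_of_hasEnoughRootsOfUnity A ℂ).some
  have h : ∀ U : Subgroup A, ∃ χ : A →* ℂˣ, U.index = p → χ.ker = U := by
    intro U
    by_cases hU : U.index = p
    · obtain ⟨χ, hχ⟩ := exists_char p U hU
      exact ⟨χ, fun _ => hχ⟩
    · exact ⟨1, fun h => absurd h hU⟩
  choose χ hχ using h
  refine ⟨fun U => e (χ U), ?_, ?_⟩
  · intro U hU
    have h1 : χ U ^ p = 1 := char_pow p (χ U) (by rw [hχ U hU]; exact hU)
    have h2 : e (χ U) ^ p = e (χ U ^ p) := (map_pow e (χ U) p).symm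
    rw [h2, h1]
    exact map_one e
  · intro U V hU hV hUV
    have h1 : χ U = χ V := e.injective hUV
    rw [← hχ U hU, ← hχ V hV, h1]

end CGP

theorem tb_CGP : Sb_CGP := by
  intro A _ _ p _ T hT
  classical
  obtain ⟨f, hf1, hf2⟩ := CGP.exists_inj A p
  have hinj : Set.InjOn f T := by
    intro U hU V hV h
    exact hf2 U V (hT U hU) (hT V hV) h
  have h1 : (T.image f).card = T.card := Finset.card_image_of_injOn hinj
  have h2 : ((T.image f : Finset A) : Set A) ⊆ ((powMonoidHom p : A →* A).ker : Set A) := by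
    intro x hx
    obtain ⟨U, hU, rfl⟩ := Finset.mem_image.1 (Finset.mem_coe.1 hx)
    exact hf1 U (hT U hU)
  have h3 : (T.image f).card ≤ Nat.card ((powMonoidHom p : A →* A).ker) := by
    have h4 := Set.ncard_le_ncard h2 (Set.toFinite _)
    rw [Set.ncard_coe_finset] at h4
    exact h4
  rw [← h1]
  exact h3.trans (CGP.card_tors p _ fun x hx => hx)

end Pool.Agent.VB
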