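import Pool.Agent.VB.StVB
import Pool.Agent.MUX.U_AUE

/-!
# (CIR): the order of the inertia group is the ramification index (helper15)
-/

set_option autoImplicit false

open NumberField IsDedekindDomain
open scoped nonZeroDivisors Pointwise

namespace Pool.Agent.VB

open Pool.Agent.RI

noncomputable section

namespace CIRx

theorem card_inertia {k F : Type} [Field k] [NumberField k] [Field F] [NumberField F]
    [Algebra k F] [IsGalois k F] (w : HeightOneSpectrum (𝓞 F)) :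
    Nat.card (w.asIdeal.inertia (F ≃ₐ[k] F)) = w.asIdeal.ramificationIdx (𝓞 k) := by
  set p : Ideal (𝓞 k) := w.asIdeal.under (𝓞 k) with hp
  have hlo : w.asIdeal.LiesOver p := ⟨rfl⟩
  have hwp : w.asIdeal.IsPrime := w.isPrime
  have hpp : p.IsPrime := Ideal.IsPrime.under (𝓞 k) w.asIdeal
  have hp0 : p ≠ ⊥ := (w.under (𝓞 k)).ne_bot
  have hfin : Finite (𝓞 k ⧸ p) := Ideal.finiteQuotientOfFreeOfNeBot p hp0
  have hmax : p.IsMaximal := hpp.isMaximal hp0
  have hfr : Finite p.ResidueField :=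
    Finite.of_surjective (algebraMap (𝓞 k ⧸ p) p.ResidueField)
      (Ideal.bijective_algebraMap_quotient_residueField p).2
  have h1 := Ideal.card_inertia_eq_ramificationIdxIn (G := F ≃ₐ[k] F) p w.asIdeal
  rw [Ideal.ramificationIdxIn_eq_ramificationIdx p w.asIdeal (F ≃ₐ[k] F)] at h1
  exact h1

theorem int_mem (V : ValuationSubring ℂ) {z : ℂ} (hz : IsIntegral ℤ z) : z ∈ V := by
  have h1 : IsIntegral V z := hz.tower_top
  obtain ⟨y, hy⟩ := (IsIntegrallyClosed.isIntegral_iff (R := V) (K := ℂ)).1 h1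
  rw [← hy]
  exact y.2

theorem int_coe {M : IntermediateField ℚ ℂ} (x : 𝓞 M) : IsIntegral ℤ ((x : M) : ℂ) := by
  have h1 : IsIntegral ℤ (x : M) := RingOfIntegers.isIntegral_coe x
  exact h1.map (M.val : M →ₐ[ℚ] ℂ)

end CIRx

open CIRx

theorem tb_CIR (hFRC : Sb_FRC) (hNRM : Sb_NRM) : Sb_CIR := by
  classical
  intro V L M _ h hN P hP
  let _ := algC h
  have hAL : Algebra.IsAlgebraic ℚ M := Algebra.IsAlgebraic.of_finite ℚ M
  have hfdL : FiniteDimensional ℚ L :=
    FiniteDimensional.of_injective (IntermediateField.inclusion h).toLinearMap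
      (IntermediateField.inclusion h).injective
  have hNL : NumberField L := NumberField.mk
  have hNM : NumberField M := NumberField.mk
  have hgal : IsGalois L M := (isGalois_algC h).2 ((hNRM L M hAL h).2 hN)
  have hfin : FiniteDimensional L M := Module.Finite.of_restrictScalars_finite ℚ L M
  have hcomm : ∀ (τ : M ≃ₐ[L] M) (x : ℂ) (hx : x ∈ L), ((τ ⟨x, h hx⟩ : M) : ℂ) = x := by
    intro τ x hx
    have h1 := τ.commutes (⟨x, hx⟩ : L)
    exact congrArg Subtype.val h1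
  have hsm : ∀ (τ : M ≃ₐ[L] M) (x : 𝓞 M), ((((τ • x - x : 𝓞 M)) : M) : ℂ) =
      ((τ (x : M) : M) : ℂ) - ((x : M) : ℂ) := by
    intro τ x
    rfl
  -- from the inertia group to the maps
  have hto : ∀ τ : M ≃ₐ[L] M, τ ∈ P.asIdeal.inertia (M ≃ₐ[L] M) →
      ∃ σ : ℂ ≃+* ℂ, Fixes L σ ∧ Inr V M σ ∧ ∀ x : M, ((τ x : M) : ℂ) = σ x := by
    intro τ hτ
    obtain ⟨σ, hσ⟩ := Pool.Agent.MUXU.tu_AUE M hAL
      ((algebraMap M ℂ).comp (τ : M →+* M))
    have hσ' : ∀ x : M, ((τ x : M) : ℂ) = σ x := fun x => (hσ x).symm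
    refine ⟨σ, ?_, ?_, hσ'⟩
    · intro x hx
      rw [← hσ' ⟨x, h hx⟩, hcomm τ x hx]
    · apply (hFRC M V).2 σ
      intro x
      rw [← hσ' (x : M), ← hsm τ x]
      exact (hP _).1 (hτ x)
  have hfrom : ∀ f : M → ℂ, (∃ σ : ℂ ≃+* ℂ, Fixes L σ ∧ Inr V M σ ∧ ∀ x : M, f x = σ x) →
      ∃ τ : M ≃ₐ[L] M, τ ∈ P.asIdeal.inertia (M ≃ₐ[L] M) ∧ ∀ x : M, ((τ x : M) : ℂ) = f x := by
    rintro f ⟨σ, hfix, hin, hf⟩
    let τ₀ : M →ₐ[L] M :=
      { toFun := fun x => ⟨σ x, hN σ hfix x x.2⟩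
        map_one' := Subtype.ext (by show σ ((1 : M) : ℂ) = ((1 : M) : ℂ); simp)
        map_mul' := fun a b => Subtype.ext (by
          show σ ((a * b : M) : ℂ) = σ a * σ b
          rw [← map_mul]; rfl)
        map_zero' := Subtype.ext (by show σ ((0 : M) : ℂ) = ((0 : M) : ℂ); simp)
        map_add' := fun a b => Subtype.ext (by
          show σ ((a + b : M) : ℂ) = σ a + σ b
          rw [← map_add]; rfl)
        commutes' := fun r => Subtype.ext (by
          show σ (r : ℂ) = (r : ℂ)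
          exact hfix r r.2) }
    have hbij : Function.Bijective τ₀ := by
      have hinj : Function.Injective τ₀ := τ₀.injective
      have hlin : Function.Surjective τ₀.toLinearMap :=
        LinearMap.injective_iff_surjective.1 hinj
      exact ⟨hinj, hlin⟩
    refine ⟨AlgEquiv.ofBijective τ₀ hbij, ?_, ?_⟩
    · intro x
      show (AlgEquiv.ofBijective τ₀ hbij) • x - x ∈ P.asIdeal
      rw [hP, hsm]
      exact hin ((x : M) : ℂ) (x : M).2 (int_mem V (int_coe x))
    · intro x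
      rw [hf x]
      rfl
  rw [← card_inertia (k := L) P]
  unfold cI
  apply Nat.card_congr
  refine (Equiv.ofBijective (fun τ : P.asIdeal.inertia (M ≃ₐ[L] M) =>
    (⟨fun x : M => (((τ : M ≃ₐ[L] M) x : M) : ℂ), hto τ τ.2⟩ :
      {f : M → ℂ // ∃ σ : ℂ ≃+* ℂ, Fixes L σ ∧ Inr V M σ ∧ ∀ x : M, f x = σ x})) ?_).symm
  constructor
  · intro τ₁ τ₂ h12
    apply Subtype.ext
    apply AlgEquiv.ext
    intro x
    apply Subtype.ext
    exact congrFun (congrArg Subtype.val h12) x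
  · rintro ⟨f, hf⟩
    obtain ⟨τ, hτ, hx⟩ := hfrom f hf
    refine ⟨⟨τ, hτ⟩, Subtype.ext ?_⟩
    funext x
    exact hx x

end

end Pool.Agent.VB
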