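import Pool.Agent.VB.StVB

/-!
# VB, module CNT (helper20): the number of elements with unramified `p`-th root
-/

set_option autoImplicit false

open NumberField IsDedekindDomain Filter Topology
open scoped nonZeroDivisors Pointwise

namespace Pool.Agent.VB

open Pool.Agent.RI Pool.Agent.MU3 Pool.Agent.Lib_helper28.FROB

noncomputable section

namespace CNT

open IntermediateField in
/-- `[L(y) : L] = p` -/
theorem finrank_adj (p : ℕ) [Fact p.Prime] (L : IntermediateField ℚ ℂ) (y : ℂ) (x : ℂ) (hx : x ∈ L)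
    (hy : y ^ p = x) (hn : ∀ t ∈ L, t ^ p ≠ x) :
    Module.finrank L (IntermediateField.extendScalars (le_adj L y)) = p := by
  have hp : p.Prime := Fact.out
  have hirr : Irreducible (Polynomial.X ^ p - Polynomial.C (⟨x, hx⟩ : L)) := by
    refine X_pow_sub_C_irreducible_of_prime hp fun b hb => hn b.1 b.2 ?_
    have := congrArg (Subtype.val) hb
    simpa using this
  have hroot : Polynomial.aeval y (Polynomial.X ^ p - Polynomial.C (⟨x, hx⟩ : L)) = 0 := by
    rw [map_sub, map_pow, Polynomial.aeval_X, Polynomial.aeval_C, hy]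
    exact sub_self x
  have hmonic : (Polynomial.X ^ p - Polynomial.C (⟨x, hx⟩ : L)).Monic :=
    Polynomial.monic_X_pow_sub_C _ hp.ne_zero
  have hmin := minpoly.eq_of_irreducible_of_monic hirr hroot hmonic
  have hint : IsIntegral L y := ⟨_, hmonic, hroot⟩
  have h1 : Module.finrank L (L⟮y⟯) = p := by
    rw [IntermediateField.adjoin.finrank hint, ← hmin, Polynomial.natDegree_X_pow_sub_C]
  have h2 : IntermediateField.extendScalars (le_adj L y) = L⟮y⟯ := by
    have h3 := IntermediateField.restrictScalars_adjoin_eq_sup (F := ℚ) L ({y} : Set ℂ)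
    ext z
    exact (SetLike.ext_iff.mp h3 z).symm
  rw [h2]
  exact h1

/-- `p`-th roots of unity are in `L` -/
theorem root_mem (p : ℕ) [Fact p.Prime] (L : IntermediateField ℚ ℂ)
    (hz : ∃ ζ ∈ L, IsPrimitiveRoot ζ p) {η : ℂ} (hη : η ^ p = 1) : η ∈ L := by
  obtain ⟨ζ, hζ, hp⟩ := hz
  obtain ⟨i, -, rfl⟩ := hp.eq_pow_of_pow_eq_one hη
  exact pow_mem hζ i

theorem nrm (p : ℕ) [Fact p.Prime] (L : IntermediateField ℚ ℂ)
    (hz : ∃ ζ ∈ L, IsPrimitiveRoot ζ p) {x y : ℂ} (hx : x ∈ L) (hx0 : x ≠ 0) (hy : y ^ p = x) :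
    Nrm L (adj L y) := by
  have hp : p.Prime := Fact.out
  have hy0 : y ≠ 0 := by
    rintro rfl
    rw [zero_pow hp.ne_zero] at hy
    exact hx0 hy.symm
  refine nrm_adj fun σ hσ => ?_
  have h1 : (σ y / y) ^ p = 1 := by
    rw [div_pow, ← map_pow, hy, hσ x hx, div_self hx0]
  have h2 : σ y = (σ y / y) * y := by rw [div_mul_cancel₀ _ hy0]
  rw [h2]
  exact mul_mem (le_adj L y (root_mem p L hz h1)) (mem_adj L y)

theorem fd (p : ℕ) [Fact p.Prime] (L : IntermediateField ℚ ℂ) [FiniteDimensional ℚ L] {x y : ℂ}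
    (hx : x ∈ L) (hy : y ^ p = x) : FiniteDimensional ℚ (adj L y) := by
  have hp : p.Prime := Fact.out
  have h1 : IsIntegral ℚ x := by
    have := Algebra.IsIntegral.isIntegral (R := ℚ) (⟨x, hx⟩ : L)
    exact this.map (L.val)
  have h2 : IsIntegral ℚ y := by
    rw [← hy] at h1
    exact IsIntegral.of_pow hp.pos h1
  have h3 : FiniteDimensional ℚ (IntermediateField.adjoin ℚ {y}) :=
    IntermediateField.adjoin.finiteDimensional h2
  exact IntermediateField.finiteDimensional_sup L (IntermediateField.adjoin ℚ {y})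

/-- the data attached to `x` -/
structure Dta (p : ℕ) (L : IntermediateField ℚ ℂ) [FiniteDimensional ℚ L] (x : ℂˣ) (y : ℂ)
    (U : Subgroup (ClassGroup (𝓞 L))) (S : Finset (HeightOneSpectrum (𝓞 L))) : Prop where
  hy : y ^ p = x
  hn : y ∉ L
  fd : FiniteDimensional ℚ (adj L y)
  nr : Nrm L (adj L y)
  cr : cR L (adj L y) = p
  un : UNR L (adj L y)
  ui : U.index = p
  hs : letI := algC (le_adj L y)
    ∀ v ∉ S, Pool.Agent.HB.Deg1 L (adj L y) v → cl L v ∈ U

end CNT

open Classical in
theorem tb_CNT (h1 : Sb_FQC) (h2 : Sb_INJ) (h3 : Sb_CGP) (h4 : Sb_KFI) (h5 : Sb_CRD) : Sb_CNT := by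
  intro p _ L _ hTC hz T hT hne
  have hp : p.Prime := Fact.out
  -- the data for an element
  have hD : ∀ x : ℂˣ, x ∈ T → x ∉ PL p L → ∃ (y : ℂ) (U : Subgroup (ClassGroup (𝓞 L)))
      (S : Finset (HeightOneSpectrum (𝓞 L))), CNT.Dta p L x y U S := by
    intro x hx hxP
    obtain ⟨hxL, hx0, hU⟩ := hT x hx
    obtain ⟨y, hy⟩ := IsAlgClosed.exists_pow_nat_eq (x : ℂ) hp.pos
    have hn : ∀ t ∈ L, t ^ p ≠ (x : ℂ) := by
      intro t ht htx
      have ht0 : t ≠ 0 := by
        rintro rfl
        rw [zero_pow hp.ne_zero] at htx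
        exact hx0 htx.symm
      exact hxP ⟨Units.mk0 t ht0, ht, Units.ext htx⟩
    have hfd := CNT.fd p L hxL hy
    have hnr := CNT.nrm p L hz hxL hx0 hy
    have hcr : cR L (adj L y) = p := by
      have := (h5 L (adj L y) (le_adj L y)).2.2.1
      rw [← this]
      exact CNT.finrank_adj p L y x hxL hy hn
    obtain ⟨U, S, hUi, hS⟩ := h1 p L (adj L y) (le_adj L y) hTC hnr hcr (hU y hy)
    exact ⟨y, U, S, hy, fun hyL => hn y hyL hy, hfd, hnr, hcr, hU y hy, hUi, hS⟩
  choose! Y U S hD using hD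
  set T' := T.filter (fun x => x ∉ PL p L) with hT'
  -- the fibres
  have hfib : ∀ V ∈ T'.image U, (T'.filter (fun x => U x = V)).card ≤ p - 1 := by
    intro V hV
    obtain ⟨x, hx, rfl⟩ := Finset.mem_image.mp hV
    rw [hT', Finset.mem_filter] at hx
    have hJ : ∀ x' ∈ T'.filter (fun x' => U x' = U x), ∃ j < p, x' / x ^ j ∈ PL p L := by
      intro x' hx'
      rw [hT', Finset.mem_filter, Finset.mem_filter] at hx'
      obtain ⟨⟨hx'T, hx'P⟩, hUU⟩ := hx'
      have hd := hD x hx.1 hx.2
      have hd' := hD x' hx'T hx'P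
      have := hd.fd
      have := hd'.fd
      have hM : adj L (Y x) = adj L (Y x') := by
        refine h2 p L (adj L (Y x)) (adj L (Y x')) (le_adj _ _) (le_adj _ _)
          hd.nr hd'.nr hd.cr hd'.cr hd.un hd'.un (U x) (S x ∪ S x') hd.ui ?_ ?_
        · intro v hv hdeg
          exact hd.hs v (fun h => hv (Finset.mem_union_left _ h)) hdeg
        · intro v hv hdeg
          rw [← hUU]
          exact hd'.hs v (fun h => hv (Finset.mem_union_right _ h)) hdeg
      exact h4 p L hz x x' (Y x) (Y x') (hT x hx.1).1 (hT x' hx'T).1 hd.hy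
        hd'.hy hd.hn (by rw [hM]; exact mem_adj L (Y x'))
    choose! j hj hjP using hJ
    have hcard : (T'.filter (fun x' => U x' = U x)).card ≤ (Finset.Ico 1 p).card := by
      refine Finset.card_le_card_of_injOn j ?_ ?_
      · intro x' hx'
        have hx'' := hx'
        rw [Finset.mem_coe, hT', Finset.mem_filter, Finset.mem_filter] at hx''
        rw [Finset.coe_Ico, Set.mem_Ico]
        refine ⟨?_, hj x' hx'⟩
        by_contra h0
        have h0' : j x' = 0 := by omega
        have := hjP x' hx'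
        rw [h0', pow_zero, div_one] at this
        exact hx''.1.2 this
      · intro x' hx' x'' hx'' he
        by_contra hc
        have e1 := hjP x' hx'
        have e2 := hjP x'' hx''
        rw [← he] at e2
        have e3 := (PL p L).div_mem e1 e2
        rw [div_div_div_cancel_right] at e3
        have k1 : x' ∈ T := by
          rw [Finset.mem_coe, hT', Finset.mem_filter, Finset.mem_filter] at hx'
          exact hx'.1.1
        have k2 : x'' ∈ T := by
          rw [Finset.mem_coe, hT', Finset.mem_filter, Finset.mem_filter] at hx''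
          exact hx''.1.1
        exact hne x' k1 x'' k2 hc e3
    rwa [Nat.card_Ico] at hcard
  have hT'c := Finset.card_le_mul_card_image T' (p - 1) hfib
  have himg : (T'.image U).card ≤ p ^ padicValNat p (classNo L) := by
    refine h3 (ClassGroup (𝓞 L)) p (T'.image U) ?_
    intro V hV
    obtain ⟨x, hx, rfl⟩ := Finset.mem_image.mp hV
    rw [hT', Finset.mem_filter] at hx
    exact (hD x hx.1 hx.2).ui
  have hP : (T.filter (fun x => x ∈ PL p L)).card ≤ 1 := by
    rw [Finset.card_le_one]
    intro x hx x' hx'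
    rw [Finset.mem_filter] at hx hx'
    by_contra hc
    exact hne x hx.1 x' hx'.1 hc ((PL p L).div_mem hx.2 hx'.2)
  have hsum : (T.filter (fun x => x ∈ PL p L)).card + T'.card = T.card :=
    Finset.card_filter_add_card_filter_not _
  have hr : 1 ≤ p ^ padicValNat p (classNo L) := Nat.one_le_pow _ _ hp.pos
  have hm : (p - 1) * (T'.image U).card ≤ (p - 1) * p ^ padicValNat p (classNo L) :=
    Nat.mul_le_mul_left _ himg
  rw [pow_succ]
  obtain ⟨q, hq⟩ : ∃ q, p = q + 1 := ⟨p - 1, by have := hp.pos; omega⟩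
  have e1 : p - 1 = q := by omega
  have hfin : p ^ padicValNat p (classNo L) * p =
      (p - 1) * p ^ padicValNat p (classNo L) + p ^ padicValNat p (classNo L) := by
    rw [e1]
    conv_lhs => rw [show p ^ padicValNat p (classNo L) * p =
      p ^ padicValNat p (classNo L) * (q + 1) from by rw [← hq]]
    ring
  rw [hfin]
  omega

end

end Pool.Agent.VB
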