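import Pool.Agent.VB.StVB
import Pool.Agent.MUX.U_AUE

/-!
# VB, module CRD: the numbers `cR`, `cI` (helper55)
-/

set_option autoImplicit false

open NumberField IsDedekindDomain
open scoped nonZeroDivisors Pointwise

namespace Pool.Agent.VB

open Pool.Agent.RI Pool.Agent.MU3

namespace CRD

/-- the restrictions to `M` of the automorphisms which fix `L` -/
abbrev RT (L M : IntermediateField ℚ ℂ) : Type :=
  {f : M → ℂ // ∃ σ : ℂ ≃+* ℂ, Fixes L σ ∧ ∀ x : M, f x = σ x}

/-- the restrictions to `M` of the inert automorphisms which fix `L` -/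
abbrev IT (V : ValuationSubring ℂ) (L M : IntermediateField ℚ ℂ) : Type :=
  {f : M → ℂ // ∃ σ : ℂ ≃+* ℂ, Fixes L σ ∧ Inr V M σ ∧ ∀ x : M, f x = σ x}

/-- restrictions are homomorphisms -/
noncomputable def toHom {L M : IntermediateField ℚ ℂ} (h : L ≤ M) (f : RT L M) :
    IntermediateField.extendScalars h →ₐ[L] ℂ where
  toFun := fun x => f.1 ⟨x.1, x.2⟩
  map_one' := by
    obtain ⟨σ, -, hσ⟩ := f.2
    rw [hσ]
    exact map_one σ
  map_zero' := by
    obtain ⟨σ, -, hσ⟩ := f.2
    rw [hσ]
    exact map_zero σ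
  map_mul' := by
    intro x y
    obtain ⟨σ, -, hσ⟩ := f.2
    rw [hσ, hσ, hσ]
    exact map_mul σ _ _
  map_add' := by
    intro x y
    obtain ⟨σ, -, hσ⟩ := f.2
    rw [hσ, hσ, hσ]
    exact map_add σ _ _
  commutes' := by
    intro x
    obtain ⟨σ, h1, hσ⟩ := f.2
    rw [hσ]
    exact h1 _ x.2

lemma exists_ext {L M : IntermediateField ℚ ℂ} [FiniteDimensional ℚ M] (h : L ≤ M)
    (g : IntermediateField.extendScalars h →ₐ[L] ℂ) :
    ∃ σ : ℂ ≃+* ℂ, Fixes L σ ∧ ∀ x : M, g ⟨x.1, x.2⟩ = σ x := by
  let e : M →+* IntermediateField.extendScalars h :=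
    { toFun := fun x => ⟨x.1, x.2⟩
      map_one' := rfl
      map_zero' := rfl
      map_mul' := fun _ _ => rfl
      map_add' := fun _ _ => rfl }
  obtain ⟨σ, hσ⟩ := Pool.Agent.MUXU.tu_AUE M inferInstance ((g : _ →+* ℂ).comp e)
  refine ⟨σ, ?_, fun x => (hσ x).symm⟩
  intro x hx
  have h1 := hσ ⟨x, h hx⟩
  have h2 : ((g : _ →+* ℂ).comp e) ⟨x, h hx⟩ = algebraMap L ℂ ⟨x, hx⟩ :=
    g.commutes ⟨x, hx⟩
  rw [h2] at h1
  exact h1

/-- the restrictions are the homomorphisms over `L` -/
noncomputable def equivHom {L M : IntermediateField ℚ ℂ} [FiniteDimensional ℚ M] (h : L ≤ M) :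
    RT L M ≃ (IntermediateField.extendScalars h →ₐ[L] ℂ) where
  toFun := toHom h
  invFun := fun g => ⟨fun x => g ⟨x.1, x.2⟩, exists_ext h g⟩
  left_inv := fun _ => rfl
  right_inv := fun _ => rfl

end CRD

open CRD

theorem tb_CRD : Sb_CRD := by
  intro L M hfd h
  have hL : FiniteDimensional ℚ L :=
    FiniteDimensional.of_injective (IntermediateField.inclusion h).toLinearMap
      (IntermediateField.inclusion h).injective
  -- tower law
  have htow : Module.finrank ℚ M =
      Module.finrank ℚ L * Module.finrank L (IntermediateField.extendScalars h) := by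
    rw [← finrank_algC h]
    let := algC h
    have hs : IsScalarTower ℚ L M := IsScalarTower.of_algebraMap_eq fun x => rfl
    exact (Module.finrank_mul_finrank ℚ L M).symm
  have hpos : 0 < Module.finrank ℚ M := Module.finrank_pos
  have hEpos : 0 < Module.finrank L (IntermediateField.extendScalars h) := by
    rcases Nat.eq_zero_or_pos (Module.finrank L (IntermediateField.extendScalars h)) with h0 | h0
    · rw [h0, mul_zero] at htow
      omega
    · exact h0
  have hEfd : FiniteDimensional L (IntermediateField.extendScalars h) :=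
    FiniteDimensional.of_finrank_pos hEpos
  have hcard : Nat.card (RT L M) = Module.finrank L (IntermediateField.extendScalars h) := by
    rw [Nat.card_congr (equivHom h), Nat.card_eq_fintype_card]
    exact AlgHom.card L (IntermediateField.extendScalars h) ℂ
  have hfin : Finite (RT L M) := Finite.of_equiv _ (equivHom h).symm
  have hcR : cR L M = Module.finrank L (IntermediateField.extendScalars h) := hcard
  refine ⟨by rw [hcR]; exact htow, by rw [hcR]; exact hEpos, hcR.symm, hfin, ?_⟩
  intro V
  let ι : IT V L M → RT L M := fun f => ⟨f.1, by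
    obtain ⟨σ, h1, -, h3⟩ := f.2
    exact ⟨σ, h1, h3⟩⟩
  have hι : Function.Injective ι := by
    intro f g hfg
    apply Subtype.ext
    exact congrArg (fun t : RT L M => t.1) hfg
  have hfinI : Finite (IT V L M) := Finite.of_injective ι hι
  let one : IT V L M := ⟨fun x => (x : ℂ), 1, fixes_one L, inr_one V M, fun _ => rfl⟩
  have hne : Nonempty (IT V L M) := ⟨one⟩
  refine ⟨Nat.card_pos, Nat.card_le_card_of_injective ι hι, ⟨?_, ?_⟩, ?_⟩
  · intro h1 σ hσ hI x hx
    have hsub : Subsingleton (IT V L M) := (Nat.card_eq_one_iff_unique.1 h1).1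
    have h2 : (⟨fun x => σ x, σ, hσ, hI, fun _ => rfl⟩ : IT V L M) = one :=
      Subsingleton.elim _ _
    have h3 := congrArg (fun t : IT V L M => t.1 ⟨x, hx⟩) h2
    exact h3
  · intro hT
    apply Nat.card_eq_one_iff_unique.2
    refine ⟨⟨?_⟩, hne⟩
    have key : ∀ f : IT V L M, f = one := by
      intro f
      obtain ⟨σ, h1, h2, h3⟩ := f.2
      apply Subtype.ext
      funext x
      rw [h3 x]
      exact hT σ h1 h2 x x.2
    intro f g
    rw [key f, key g]
  · intro hall
    apply Nat.card_congr
    exact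
      { toFun := ι
        invFun := fun f => ⟨f.1, by
          obtain ⟨σ, h1, h3⟩ := f.2
          exact ⟨σ, h1, hall σ h1, h3⟩⟩
        left_inv := fun _ => rfl
        right_inv := fun _ => rfl }

end Pool.Agent.VB
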