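import Pool.Agent.VB.StVB
import Pool.Agent.RI.LAY

/-!
# VB, module CYQ (helper58): ramification in the layers
-/

set_option autoImplicit false

open NumberField

namespace Pool.Agent.VB

open Pool.Agent.RI

noncomputable section

namespace CYQ

variable {V : ValuationSubring ℂ}

lemma mem_root {z : ℂ} {N : ℕ} (hN : N ≠ 0) (hz : z ^ N = 1) : z ∈ V := by
  rw [← V.valuation_le_one_iff]
  have h1 : V.valuation z ^ N = 1 := by rw [← map_pow, hz, map_one]
  exact ((pow_eq_one_iff_of_nonneg zero_le hN).1 h1).le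

/-- roots of unity of `p`-power order are `1` in the residue field of characteristic `p` -/
lemma sub_one {p : ℕ} (hp : p.Prime) (hV : (p : ℂ) ∈ V.nonunits) {z : ℂ} {m : ℕ}
    (hz : z ^ p ^ m = 1) : z - 1 ∈ V.nonunits := by
  have hzV : z ∈ V := mem_root (pow_ne_zero m hp.ne_zero) hz
  set z' : V := ⟨z, hzV⟩ with hz'
  have hzp : z' ^ p ^ m = 1 := Subtype.ext hz
  have hmem : ∀ x : V, (x : ℂ) ∈ V.nonunits ↔ x ∈ IsLocalRing.maximalIdeal V := fun x => by
    rw [IsLocalRing.mem_maximalIdeal]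
    exact ValuationSubring.coe_mem_nonunits_iff
  have hp0 : ((p : ℕ) : IsLocalRing.ResidueField V) = 0 := by
    have h1 : ((p : ℕ) : V) ∈ IsLocalRing.maximalIdeal V := by
      rw [← hmem]
      exact_mod_cast hV
    have h2 := (IsLocalRing.residue_eq_zero_iff ((p : ℕ) : V)).2 h1
    rwa [map_natCast] at h2
  have : CharP (IsLocalRing.ResidueField V) p := (CharP.charP_iff_prime_eq_zero hp).2 hp0
  have : Fact p.Prime := ⟨hp⟩
  have h3 : (IsLocalRing.residue V z' - 1) ^ p ^ m = 0 := by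
    rw [sub_pow_char_pow, ← map_pow, hzp, map_one, one_pow, sub_self]
  have h4 : IsLocalRing.residue V (z' - 1) = 0 := by
    rw [map_sub, map_one]
    exact pow_eq_zero_iff (pow_ne_zero m hp.ne_zero) |>.1 h3
  have h5 := (hmem (z' - 1)).2 ((IsLocalRing.residue_eq_zero_iff _).1 h4)
  exact h5

/-- a root of unity of `p`-power order which is `1` modulo `V.nonunits` is `1`, if `p` is a unit -/
lemma eq_one {p : ℕ} (hp : p.Prime) (hV : (p : ℂ) ∉ V.nonunits) {z : ℂ} {m : ℕ}
    (hz : z ^ p ^ m = 1) (h1 : z - 1 ∈ V.nonunits) : z = 1 := by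
  have : Fact p.Prime := ⟨hp⟩
  by_contra hne
  obtain ⟨i, hi, ho⟩ := (Nat.dvd_prime_pow hp).1 (orderOf_dvd_of_pow_eq_one hz)
  have hprim := IsPrimitiveRoot.orderOf z
  rw [ho] at hprim
  have hi0 : i ≠ 0 := by
    rintro rfl
    rw [pow_zero] at hprim
    exact hne (IsPrimitiveRoot.one_right_iff.1 hprim)
  obtain ⟨j, rfl⟩ : ∃ j, i = j + 1 := ⟨i - 1, by omega⟩
  have h2 := Polynomial.eval_one_cyclotomic_prime_pow (R := ℂ) (p := p) j
  rw [Polynomial.cyclotomic_eq_prod_X_sub_primitiveRoots hprim, Polynomial.eval_prod] at h2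
  have hpos : 0 < p ^ (j + 1) := pow_pos hp.pos _
  have hmem : z ∈ primitiveRoots (p ^ (j + 1)) ℂ := (mem_primitiveRoots hpos).2 hprim
  rw [← Finset.mul_prod_erase _ _ hmem] at h2
  apply hV
  rw [← h2, mul_comm]
  refine nonunits_mul ?_ ?_
  · refine prod_mem fun μ hμ => ?_
    rw [Polynomial.eval_sub, Polynomial.eval_X, Polynomial.eval_C]
    have h3 := (mem_primitiveRoots hpos).1 (Finset.mem_of_mem_erase hμ)
    exact V.sub_mem (V.one_mem) (mem_root hpos.ne' h3.pow_eq_one)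
  · rw [Polynomial.eval_sub, Polynomial.eval_X, Polynomial.eval_C]
    have h4 : (1 : ℂ) - z = 0 - (z - 1) := by ring
    rw [h4]
    refine nonunits_sub ?_ h1
    rw [ValuationSubring.mem_nonunits_iff, map_zero]
    exact zero_lt_one

/-- the cyclotomic field -/
def Cy (p m : ℕ) : IntermediateField ℚ ℂ := IntermediateField.adjoin ℚ {z : ℂ | z ^ (p ^ m) = 1}

lemma nrm_Cy (p m : ℕ) : Nrm ⊥ (Cy p m) := by
  intro σ _
  have h1 : Cy p m ≤ PreF σ (Cy p m) := by
    refine IntermediateField.adjoin_le_iff.2 fun z hz => ?_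
    show σ z ∈ Cy p m
    refine IntermediateField.subset_adjoin _ _ ?_
    show (σ z) ^ p ^ m = 1
    have hz' : z ^ p ^ m = 1 := hz
    rw [← map_pow, hz', map_one]
  exact fun x hx => h1 hx

lemma cyc (p m : ℕ) (hp : p.Prime) : IsCyclotomicExtension {p ^ m} ℚ (Cy p m) := by
  have hN : p ^ m ≠ 0 := pow_ne_zero m hp.ne_zero
  have h := IntermediateField.isCyclotomicExtension_adjoin_of_exists_isPrimitiveRoot
    ({p ^ m} : Set ℕ) ℚ ℂ (fun n hn _ => by
      rw [Set.mem_singleton_iff] at hn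
      rw [hn]
      exact ⟨_, Complex.isPrimitiveRoot_exp _ hN⟩)
  have hset : {x : ℂ | ∃ n ∈ ({p ^ m} : Set ℕ), n ≠ 0 ∧ x ^ n = 1} = {z : ℂ | z ^ p ^ m = 1} := by
    ext x
    simp [hp.ne_zero]
  rw [hset] at h
  exact h

end CYQ

open CYQ in
theorem tb_CYQ (hF : Sb_FRC) (hM : Sb_MUL) : Sb_CYQ := by
  intro p n _ B hB V
  have hp : p.Prime := Fact.out
  obtain ⟨hfd, hgal, -⟩ := LAY_thm p n B hB
  obtain ⟨-, -, m, hle⟩ := hB
  have hN : p ^ m ≠ 0 := pow_ne_zero m hp.ne_zero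
  have hcyc := cyc p m hp
  have hle' : B ≤ Cy p m := hle
  have : FiniteDimensional ℚ (Cy p m) := IsCyclotomicExtension.finiteDimensional {p ^ m} ℚ _
  have hNB : Nrm ⊥ B := by
    intro σ _ x hx
    have hn : Normal ℚ B := hgal.to_normal
    have h1 := @LAY.mem_of_normal ℚ ℂ _ _ _ B hn
      (@RingHom.toRatAlgHom _ _ _ _ _ _ ((σ : ℂ →+* ℂ).comp (algebraMap B ℂ))) ⟨x, hx⟩
    exact h1
  constructor
  · intro hV σ
    refine inr_mono hle' ((hF (Cy p m) V).2 σ fun x => ?_)
    set ζ : ℂ := Complex.exp (2 * Real.pi * Complex.I / (p ^ m : ℕ)) with hζd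
    have hζ : IsPrimitiveRoot ζ (p ^ m) := Complex.isPrimitiveRoot_exp _ hN
    have hζm : ζ ∈ Cy p m := IntermediateField.subset_adjoin _ _ hζ.pow_eq_one
    have hζ' : IsPrimitiveRoot (⟨ζ, hζm⟩ : Cy p m) (p ^ m) :=
      IsPrimitiveRoot.of_map_of_injective (f := algebraMap (Cy p m) ℂ) hζ
        (algebraMap (Cy p m) ℂ).injective
    have hic := IsCyclotomicExtension.Rat.isIntegralClosure_adjoin_singleton_of_prime_pow
      (p := p) (k := m) hζ'
    have hxint : IsIntegral ℤ (x : Cy p m) := x.2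
    obtain ⟨y, hy⟩ := hic.isIntegral_iff.1 hxint
    have key : ∀ y ∈ Algebra.adjoin ℤ {(⟨ζ, hζm⟩ : Cy p m)},
        ((y : Cy p m) : ℂ) ∈ V ∧ σ ((y : Cy p m) : ℂ) - ((y : Cy p m) : ℂ) ∈ V.nonunits := by
      intro y hy
      induction hy using Algebra.adjoin_induction with
      | mem x hx =>
        rw [Set.mem_singleton_iff] at hx
        subst hx
        refine ⟨mem_root hN hζ.pow_eq_one, ?_⟩
        have h1 := sub_one hp hV hζ.pow_eq_one
        have h2 := sub_one (V := V) (m := m) hp hV (z := σ ζ) (by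
          rw [← map_pow, hζ.pow_eq_one, map_one])
        have h3 : σ ζ - ζ = (σ ζ - 1) - (ζ - 1) := by ring
        show σ ζ - ζ ∈ V.nonunits
        rw [h3]
        exact nonunits_sub h2 h1
      | algebraMap r =>
        have h1 : ((algebraMap ℤ (Cy p m) r : Cy p m) : ℂ) = (r : ℂ) := by
          rw [eq_intCast]
          push_cast
          rfl
        rw [h1, map_intCast, sub_self, ValuationSubring.mem_nonunits_iff, map_zero]
        exact ⟨intCast_mem V r, zero_lt_one⟩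
      | add x y hx hy ihx ihy =>
        have h1 : ((x + y : Cy p m) : ℂ) = (x : ℂ) + (y : ℂ) := rfl
        rw [h1, map_add]
        refine ⟨V.add_mem _ _ ihx.1 ihy.1, ?_⟩
        have h2 : σ (x : ℂ) + σ (y : ℂ) - ((x : ℂ) + (y : ℂ)) =
            (σ (x : ℂ) - x) + (σ (y : ℂ) - y) := by ring
        rw [h2]
        exact nonunits_add ihx.2 ihy.2
      | mul x y hx hy ihx ihy =>
        have h1 : ((x * y : Cy p m) : ℂ) = (x : ℂ) * (y : ℂ) := rfl
        rw [h1, map_mul]
        refine ⟨V.mul_mem _ _ ihx.1 ihy.1, ?_⟩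
        have h2 : σ (x : ℂ) * σ (y : ℂ) - (x : ℂ) * (y : ℂ) =
            ((σ (x : ℂ) - x) + x) * (σ (y : ℂ) - y) + (y : ℂ) * (σ (x : ℂ) - x) := by ring
        rw [h2]
        exact nonunits_add (nonunits_mul (V.add_mem _ _ (nonunits_le ihx.2) ihx.1) ihy.2)
          (nonunits_mul ihy.1 ihx.2)
    have h5 := (key _ y.2).2
    have h6 : ((y : Cy p m)) = (x : Cy p m) := hy
    rw [h6] at h5
    exact h5
  · intro hV
    refine (hM V ⊥ B (Cy p m) bot_le hle' hNB (nrm_Cy p m)).2 ?_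
    intro σ _ hI
    rw [fixes_iff]
    refine IntermediateField.adjoin_le_iff.2 fun z hz => ?_
    show σ z = z
    have hz' : z ^ p ^ m = 1 := hz
    have hz0 : z ≠ 0 := by
      rintro rfl
      rw [zero_pow hN] at hz'
      exact zero_ne_one hz'
    have h1 := hI z (IntermediateField.subset_adjoin _ _ hz) (mem_root hN hz')
    have hinv : z⁻¹ ∈ V := mem_root hN (by rw [inv_pow, hz', inv_one])
    have h2 : σ z * z⁻¹ - 1 = z⁻¹ * (σ z - z) := by
      field_simp
    have h3 : σ z * z⁻¹ - 1 ∈ V.nonunits := by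
      rw [h2]
      exact nonunits_mul hinv h1
    have h4 := eq_one hp hV (z := σ z * z⁻¹) (m := m) (by
      rw [mul_pow, inv_pow, hz', inv_one, mul_one, ← map_pow, hz', map_one]) h3
    field_simp at h4
    exact h4

end

end Pool.Agent.VB
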