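import Pool.Agent.VB.StVB
import Pool.Agent.MUX.J_LDX

/-!
# VB, DEG: the degrees of the layers (helper41)
-/

set_option autoImplicit false

open NumberField IsDedekindDomain
open scoped nonZeroDivisors Pointwise

namespace Pool.Agent.VB

open Pool.Agent.RI Pool.Agent.RID Pool.Agent.MU3 Pool.Agent.Lib_helper28.FROB

namespace DEGx

theorem step {F E : Type*} [Field F] [Field E] [Algebra F E] (p : ℕ) (hp : p.Prime)
    (K : IntermediateField F E) (B : ℕ → IntermediateField F E) (hK : FiniteDimensional F K)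
    (hd : ∀ n, Module.finrank F (B n) = p ^ n) (hG : ∀ n, IsGalois F (B n))
    (hC : ∀ n, IsCyclic ((B n) ≃ₐ[F] (B n))) (hmono : Monotone B) (n₀ : ℕ)
    (hnot : ¬ B (n₀ + 1) ≤ K ⊔ B n₀) (j : ℕ) :
    Module.finrank F ↥(K ⊔ B (n₀ + j)) = Module.finrank F ↥(K ⊔ B n₀) * p ^ j := by
  have hfin : ∀ n, FiniteDimensional F (B n) := fun n =>
    Module.finite_of_finrank_pos (by rw [hd]; exact pow_pos hp.pos n)
  have hfinK : ∀ n, FiniteDimensional F ↥(K ⊔ B n) := fun n =>
    IntermediateField.finiteDimensional_sup K (B n)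
  have h0 : B n₀ ≤ K ⊔ B n₀ := le_sup_right
  have hle : ∀ j, B n₀ ≤ B (n₀ + j) := fun j => hmono (Nat.le_add_right _ _)
  set K' : IntermediateField (B n₀) E := IntermediateField.extendScalars h0 with hK'
  set B' : ℕ → IntermediateField (B n₀) E := fun j => IntermediateField.extendScalars (hle j)
    with hB'
  have fB : ∀ j, FiniteDimensional F ↥(B' j) := fun j => hfin (n₀ + j)
  have gB : ∀ j, IsGalois F ↥(B' j) := fun j => hG (n₀ + j)
  have cB : ∀ j, IsCyclic (↥(B' j) ≃ₐ[F] ↥(B' j)) := fun j => hC (n₀ + j)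
  have dB : ∀ j, Module.finrank F ↥(B' j) = p ^ (n₀ + j) := fun j => hd (n₀ + j)
  have fK : FiniteDimensional F ↥K' := hfinK n₀
  have fK' : FiniteDimensional (B n₀) ↥K' := Module.Finite.of_restrictScalars_finite F _ _
  have hpos : 0 < p ^ n₀ := pow_pos hp.pos _
  have hd' : ∀ j, Module.finrank (B n₀) (B' j) = p ^ j := by
    intro j
    have h1 := Module.finrank_mul_finrank F (B n₀) ↥(B' j)
    rw [dB, hd, pow_add] at h1
    exact Nat.eq_of_mul_eq_mul_left hpos h1
  have hG' : ∀ j, IsGalois (B n₀) (B' j) := fun j => IsGalois.tower_top_of_isGalois F _ _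
  have hC' : ∀ j, IsCyclic (↥(B' j) ≃ₐ[B n₀] ↥(B' j)) := by
    intro j
    exact isCyclic_of_injective (AlgEquiv.restrictScalarsHom F)
      (AlgEquiv.restrictScalars_injective F)
  have hmono' : Monotone B' := by
    intro a b hab x hx
    exact hmono (Nat.add_le_add_left hab n₀) hx
  have hnot' : ¬ B' 1 ≤ K' := by
    intro h
    exact hnot (fun x hx => h hx)
  have key := MUXJ.ldx_gen p hp K' B' fK' hd' hG' hC' hmono' hnot' j
  have hsup : (K' ⊔ B' j) = IntermediateField.extendScalars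
      (le_sup_of_le_left h0 : B n₀ ≤ (K ⊔ B n₀) ⊔ B (n₀ + j)) := by
    rw [hK', hB']
    exact IntermediateField.extendScalars_sup _ _
  have h2 : (K ⊔ B n₀) ⊔ B (n₀ + j) = K ⊔ B (n₀ + j) := by
    rw [sup_assoc, sup_eq_right.2 (hle j)]
  have h3 : Module.finrank F ↥((K ⊔ B n₀) ⊔ B (n₀ + j)) =
      Module.finrank F (B n₀) * Module.finrank (B n₀) ↥(K' ⊔ B' j) := by
    rw [Module.finrank_mul_finrank F (B n₀) ↥(K' ⊔ B' j), hsup]
    rfl
  have h4 : Module.finrank F ↥(K ⊔ B n₀) =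
      Module.finrank F (B n₀) * Module.finrank (B n₀) ↥K' :=
    (Module.finrank_mul_finrank F (B n₀) ↥K').symm
  rw [← h2, h3, key, h4, mul_assoc]

theorem gen {F E : Type*} [Field F] [Field E] [Algebra F E] (p : ℕ) (hp : p.Prime)
    (K : IntermediateField F E) (B : ℕ → IntermediateField F E) (hK : FiniteDimensional F K)
    (hd : ∀ n, Module.finrank F (B n) = p ^ n) (hG : ∀ n, IsGalois F (B n))
    (hC : ∀ n, IsCyclic ((B n) ≃ₐ[F] (B n))) (hmono : Monotone B) :
    ∃ n₀ : ℕ, ∀ n m : ℕ, n₀ ≤ n → n ≤ m →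
      Module.finrank F ↥(K ⊔ B m) = Module.finrank F ↥(K ⊔ B n) * p ^ (m - n) := by
  have hex : ∃ n₀, ¬ B (n₀ + 1) ≤ K ⊔ B n₀ := by
    by_contra hcon
    push Not at hcon
    have h1 : ∀ n, B n ≤ K := by
      intro n
      induction n with
      | zero =>
        have h2 := hd 0
        rw [pow_zero] at h2
        rw [IntermediateField.finrank_eq_one_iff.1 h2]
        exact bot_le
      | succ n ih => exact (hcon n).trans (sup_le le_rfl ih)
    have h2 : ∀ n, p ^ n ≤ Module.finrank F K := by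
      intro n
      rw [← hd n]
      exact IntermediateField.finrank_le_of_le_right (h1 n)
    have h3 := h2 (Module.finrank F K)
    have h4 := Nat.lt_pow_self (n := Module.finrank F K) hp.one_lt
    omega
  obtain ⟨n₀, hn₀⟩ := hex
  refine ⟨n₀, ?_⟩
  intro n m hn hm
  obtain ⟨a, rfl⟩ := Nat.exists_eq_add_of_le hn
  obtain ⟨b, rfl⟩ := Nat.exists_eq_add_of_le hm
  rw [step p hp K B hK hd hG hC hmono n₀ hn₀ a, add_assoc,
    step p hp K B hK hd hG hC hmono n₀ hn₀ (a + b), mul_assoc, ← pow_add]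
  congr 2
  omega

end DEGx

/-- DEG -/
theorem tb_DEG : Sb_DEG := by
  intro p hp F hF B hB hmono
  have key : ∀ (D : IntermediateField ℚ ℂ) (a b : Algebra ℚ D), @IsGalois ℚ _ D _ a →
      @IsGalois ℚ _ D _ b := by
    intro D a b h
    rw [Subsingleton.elim b a]
    exact h
  have key2 : ∀ (D : IntermediateField ℚ ℂ) (a b : Algebra ℚ D),
      IsCyclic (@AlgEquiv ℚ D D _ _ _ a a) → IsCyclic (@AlgEquiv ℚ D D _ _ _ b b) := by
    intro D a b h
    have e : b = a := Subsingleton.elim b a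
    subst e
    exact h
  exact DEGx.gen (F := ℚ) (E := ℂ) p hp.out F B hF (fun n => (hB n).1)
    (fun n => key _ _ _ (LAY_thm p n (B n) (hB n)).2.1)
    (fun n => key2 _ _ _ (t_LAYC p n (B n) (hB n))) hmono

end Pool.Agent.VB
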