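import Pool.Agent.VB.StVB

set_option autoImplicit false

namespace Pool.Agent.VB

namespace DGRa

/-- all `p`-th roots of unity are in `L` -/
lemma root_mem {p : ℕ} [Fact p.Prime] {L : IntermediateField ℚ ℂ}
    (hz : ∃ ζ ∈ L, IsPrimitiveRoot ζ p) {η : ℂ} (h : η ^ p = 1) : η ∈ L := by
  obtain ⟨ζ, hζ, hp⟩ := hz
  haveI : NeZero p := ⟨(Fact.out : p.Prime).ne_zero⟩
  obtain ⟨i, _, rfl⟩ := hp.eq_pow_of_pow_eq_one h
  exact pow_mem hζ i

lemma nrm_kum {p : ℕ} [Fact p.Prime] {L : IntermediateField ℚ ℂ}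
    (hz : ∃ ζ ∈ L, IsPrimitiveRoot ζ p) {y : ℂ} (hy : y ^ p ∈ L) (hy0 : y ≠ 0) :
    Nrm L (adj L y) := by
  refine nrm_adj fun σ hσ => ?_
  have h1 : (σ y / y) ^ p = 1 := by
    rw [div_pow, ← map_pow, hσ _ hy, div_self (pow_ne_zero p hy0)]
  have h2 : σ y / y ∈ L := root_mem hz h1
  have h3 : σ y = (σ y / y) * y := by field_simp
  rw [h3]
  exact mul_mem (le_adj L y h2) (mem_adj L y)

lemma fd_adj {p : ℕ} [Fact p.Prime] {L : IntermediateField ℚ ℂ} [FiniteDimensional ℚ L]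
    {y : ℂ} (hy : y ^ p ∈ L) : FiniteDimensional ℚ (adj L y) := by
  have h1 : IsIntegral ℚ (⟨y ^ p, hy⟩ : L) := IsIntegral.of_finite ℚ _
  have h2 : IsIntegral ℚ (y ^ p : ℂ) := h1.map L.val
  have h3 : IsIntegral ℚ y := IsIntegral.of_pow (Fact.out : p.Prime).pos h2
  haveI := IntermediateField.adjoin.finiteDimensional h3
  unfold adj
  infer_instance

lemma adj_self {L : IntermediateField ℚ ℂ} {y : ℂ} (hy : y ∈ L) : adj L y = L :=
  le_antisymm (adj_le le_rfl hy) (le_adj L y)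

lemma mem_nu {V : ValuationSubring ℂ} {a : ℂ} (ha : a ≠ 0) : a ∈ V.nonunits ↔ a⁻¹ ∉ V := by
  rw [ValuationSubring.mem_nonunits_iff, ← V.valuation_le_one_iff, map_inv₀, not_le]
  have h0 : 0 < V.valuation a := by
    rw [zero_lt_iff, Valuation.ne_zero_iff]
    exact ha
  exact (one_lt_inv₀ h0).symm

lemma nu_comap {V : ValuationSubring ℂ} (σ : ℂ ≃+* ℂ) {a : ℂ} :
    a ∈ (V.comap (σ : ℂ →+* ℂ)).nonunits ↔ σ a ∈ V.nonunits := by
  by_cases ha : a = 0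
  · subst ha
    rw [map_zero]
    constructor
    · intro _
      rw [ValuationSubring.mem_nonunits_iff, map_zero]
      exact zero_lt_one
    · intro _
      rw [ValuationSubring.mem_nonunits_iff, map_zero]
      exact zero_lt_one
  · have hb : σ a ≠ 0 := fun h => ha (by rwa [map_eq_zero_iff σ σ.injective] at h)
    rw [mem_nu ha, mem_nu hb, ValuationSubring.mem_comap, ← map_inv₀]
    rfl

lemma mem_supl {A B : IntermediateField ℚ ℂ} {x : ℂ} (h : x ∈ A) : x ∈ A ⊔ B :=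
  (le_sup_left : A ≤ A ⊔ B) h

lemma mem_supr {A B : IntermediateField ℚ ℂ} {x : ℂ} (h : x ∈ B) : x ∈ A ⊔ B :=
  (le_sup_right : B ≤ A ⊔ B) h

lemma fd_sup {A B : IntermediateField ℚ ℂ} (hA : FiniteDimensional ℚ A)
    (hB : FiniteDimensional ℚ B) : FiniteDimensional ℚ ↥(A ⊔ B) := by
  infer_instance

/-- descent of trivial inertia to a Kummer subextension -/
lemma ti_desc (hM : Sb_MUL) {p : ℕ} [Fact p.Prime] {L : IntermediateField ℚ ℂ}
    (hz : ∃ ζ ∈ L, IsPrimitiveRoot ζ p) {y : ℂ} (hy : y ^ p ∈ L) (hy0 : y ≠ 0)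
    (N : IntermediateField ℚ ℂ) (hfd : FiniteDimensional ℚ N) (hLN : L ≤ N) (hyN : y ∈ N)
    (hN : Nrm L N) (V : ValuationSubring ℂ) (hT : TI V L N) : TI V L (adj L y) :=
  (hM V L (adj L y) N (le_adj L y) (adj_le hLN hyN) (nrm_kum hz hy hy0) hN).2 hT

lemma ind_mul (hM : Sb_MUL) {p : ℕ} [hp : Fact p.Prime] {L : IntermediateField ℚ ℂ}
    [FiniteDimensional ℚ L] (hz : ∃ ζ ∈ L, IsPrimitiveRoot ζ p) (x x' : ℂ)
    (h1 : InD p L x) (h2 : InD p L x') : InD p L (x * x') := by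
  obtain ⟨hx, hx0, hxU⟩ := h1
  obtain ⟨hx', hx0', hxU'⟩ := h2
  have hp0 : 0 < p := hp.out.pos
  refine ⟨mul_mem hx hx', mul_ne_zero hx0 hx0', fun y hy V => ?_⟩
  obtain ⟨y₁, hy₁⟩ := IsAlgClosed.exists_pow_nat_eq x hp0
  have hy₁0 : y₁ ≠ 0 := by
    rintro rfl
    rw [zero_pow hp0.ne'] at hy₁
    exact hx0 hy₁.symm
  have hy0 : y ≠ 0 := by
    rintro rfl
    rw [zero_pow hp0.ne'] at hy
    exact mul_ne_zero hx0 hx0' hy.symm
  obtain ⟨y₂, hy2⟩ : ∃ y₂ : ℂ, y₂ = y / y₁ := ⟨_, rfl⟩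
  have hy₂ : y₂ ^ p = x' := by
    rw [hy2, div_pow, hy, hy₁, mul_div_cancel_left₀ _ hx0]
  have hy₂0 : y₂ ≠ 0 := by
    rw [hy2]
    exact div_ne_zero hy0 hy₁0
  have hyy : y = y₁ * y₂ := by
    rw [hy2]
    field_simp
  have f1 : y₁ ^ p ∈ L := by rw [hy₁]; exact hx
  have f2 : y₂ ^ p ∈ L := by rw [hy₂]; exact hx'
  have f3 : y ^ p ∈ L := by rw [hy]; exact mul_mem hx hx'
  have hyN : y ∈ adj L y₁ ⊔ adj L y₂ := by
    rw [hyy]
    exact mul_mem (mem_supl (mem_adj L y₁)) (mem_supr (mem_adj L y₂))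
  exact ti_desc hM hz f3 hy0 (adj L y₁ ⊔ adj L y₂) (fd_sup (fd_adj f1) (fd_adj f2))
    (le_trans (le_adj L y₁) le_sup_left) hyN (nrm_sup (nrm_kum hz f1 hy₁0) (nrm_kum hz f2 hy₂0))
    V (ti_sup (hxU y₁ hy₁ V) (hxU' y₂ hy₂ V))

lemma ind_base {p : ℕ} {L L' : IntermediateField ℚ ℂ} (hLL : L ≤ L') (x : ℂ)
    (h : InD p L x) : InD p L' x := by
  obtain ⟨hx, hx0, hxU⟩ := h
  refine ⟨hLL hx, hx0, fun y hy V => ?_⟩
  have h1 : adj L' y = L' ⊔ adj L y :=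
    le_antisymm (adj_le le_sup_left (mem_supr (mem_adj L y)))
      (sup_le (le_adj L' y) (adj_le (le_trans hLL (le_adj L' y)) (mem_adj L' y)))
  rw [h1]
  exact ti_base (hxU y hy V) hLL

lemma ind_inv {p : ℕ} {L : IntermediateField ℚ ℂ} (x : ℂ)
    (h : InD p L x) : InD p L x⁻¹ := by
  obtain ⟨hx, hx0, hxU⟩ := h
  refine ⟨inv_mem hx, inv_ne_zero hx0, fun y hy V => ?_⟩
  have h1 : (y⁻¹) ^ p = x := by rw [inv_pow, hy, inv_inv]
  have h2 : adj L y = adj L y⁻¹ := by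
    refine le_antisymm (adj_le (le_adj L _) ?_) (adj_le (le_adj L _) (inv_mem (mem_adj L y)))
    have := inv_mem (mem_adj L y⁻¹)
    rwa [inv_inv] at this
  rw [h2]
  exact hxU _ h1 V

end DGRa

open DGRa in
theorem tb_DGR (hM : Sb_MUL) : Sb_DGR := by
  intro p hp L hL hz
  have hp0 : 0 < p := hp.out.pos
  refine ⟨?_, ?_, ?_, ?_, ?_⟩
  · intro t ht ht0
    refine ⟨pow_mem ht p, pow_ne_zero p ht0, fun y hy V => ?_⟩
    have h1 : (y / t) ^ p = 1 := by rw [div_pow, hy, div_self (pow_ne_zero p ht0)]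
    have h2 : y = (y / t) * t := by field_simp
    have h3 : y ∈ L := by
      rw [h2]
      exact mul_mem (root_mem hz h1) ht
    rw [adj_self h3]
    exact ti_self V L
  · exact ind_mul hM hz
  · exact ind_inv
  · exact fun L' hLL x hx => ind_base hLL x hx
  · rintro σ hσ hσi x ⟨hx, hx0, hxU⟩
    refine ⟨hσ x hx, fun h => hx0 (by rwa [map_eq_zero_iff σ σ.injective] at h),
      fun y hy V τ hτ hI => ?_⟩
    have e1 : σ ((σ⁻¹ : ℂ ≃+* ℂ) y) = y := σ.apply_symm_apply y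
    have hy₁ : ((σ⁻¹ : ℂ ≃+* ℂ) y) ^ p = x := by
      rw [← map_pow, hy]
      exact σ.symm_apply_apply x
    have hsub : adj L ((σ⁻¹ : ℂ ≃+* ℂ) y) ≤ PreF σ (adj L y) := by
      refine adj_le (fun z hz' => ?_) ?_
      · rw [mem_PreF]
        exact le_adj L y (hσ z hz')
      · rw [mem_PreF, e1]
        exact mem_adj L y
    have hρL : Fixes L (σ⁻¹ * τ * σ) := by
      intro z hz'
      show σ.symm (τ (σ z)) = z
      rw [hτ _ (hσ z hz'), σ.symm_apply_apply]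
    have hρI : Inr (V.comap (σ : ℂ →+* ℂ)) (adj L ((σ⁻¹ : ℂ ≃+* ℂ) y)) (σ⁻¹ * τ * σ) := by
      intro z hz' hzV
      rw [nu_comap, map_sub]
      have h1 : σ ((σ⁻¹ * τ * σ : ℂ ≃+* ℂ) z) = τ (σ z) := by
        show σ (σ.symm (τ (σ z))) = _
        rw [σ.apply_symm_apply]
      rw [h1]
      exact hI (σ z) (hsub hz') hzV
    have h3 := hxU _ hy₁ (V.comap (σ : ℂ →+* ℂ)) _ hρL hρI _ (mem_adj L _)
    have h4 : τ y = y := by
      have h5 : σ.symm (τ (σ ((σ⁻¹ : ℂ ≃+* ℂ) y))) = (σ⁻¹ : ℂ ≃+* ℂ) y := h3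
      rw [e1] at h5
      have h6 := congrArg σ h5
      rw [σ.apply_symm_apply, e1] at h6
      exact h6
    exact fixes_adj hτ h4

end Pool.Agent.VB
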