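import Pool.Agent.VB.StVB
import Pool.Agent.MU3.MDEG2

/-!
# VB, module DLB: the primes with a degree one prime above (helper30)
-/

set_option autoImplicit false

open NumberField IsDedekindDomain Ideal Filter Topology Asymptotics
open scoped nonZeroDivisors

namespace Pool.Agent.VB

open Pool.Agent.MU3 Pool.Agent.Lib_helper28.FROB

namespace DLB

variable (L M : Type) [Field L] [NumberField L] [Field M] [NumberField M] [Algebra L M]

/-- the prime below -/
noncomputable def dn (w : HeightOneSpectrum (𝓞 M)) : HeightOneSpectrum (𝓞 L) :=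
  ⟨w.asIdeal.under (𝓞 L), by
    have := w.isPrime
    infer_instance, fun h0 => w.ne_bot (Ideal.eq_bot_of_comap_eq_bot h0)⟩

lemma norm_dn (w : HeightOneSpectrum (𝓞 M)) (hp : (absNorm w.asIdeal).Prime) :
    absNorm w.asIdeal = absNorm (dn L M w).asIdeal := by
  have hinj : Function.Injective
      (Ideal.quotientMap w.asIdeal (algebraMap (𝓞 L) (𝓞 M)) (le_refl _)) :=
    Ideal.quotientMap_injective
  have hdvd : Nat.card (𝓞 L ⧸ w.asIdeal.under (𝓞 L)) ∣ Nat.card (𝓞 M ⧸ w.asIdeal) :=
    AddSubgroup.card_dvd_of_injective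
      (Ideal.quotientMap w.asIdeal (algebraMap (𝓞 L) (𝓞 M)) (le_refl _)).toAddMonoidHom hinj
  have h1 : absNorm (dn L M w).asIdeal ∣ absNorm w.asIdeal := hdvd
  rcases (Nat.dvd_prime hp).1 h1 with h | h
  · exact absurd (Ideal.absNorm_eq_one_iff.1 h) (dn L M w).isPrime.ne_top
  · exact h.symm

lemma exists_inj (v : HeightOneSpectrum (𝓞 L)) :
    ∃ e : HeightOneSpectrum (𝓞 M) → Fin (Module.finrank L M),
      ∀ w w' : HeightOneSpectrum (𝓞 M), dn L M w = v → dn L M w' = v → e w = e w' → w = w' := by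
  classical
  have hmax : v.asIdeal.IsMaximal := v.isMaximal
  have hnz : NoZeroSMulDivisors (𝓞 L) (𝓞 M) := ⟨fun {c x} h => by simpa using h⟩
  have hcard : (IsDedekindDomain.primesOverFinset v.asIdeal (𝓞 M)).card ≤ Module.finrank L M :=
    card_primesOverFinset_le_finrank (𝓞 M) L M v.ne_bot
  have hmem : ∀ w : HeightOneSpectrum (𝓞 M), dn L M w = v →
      w.asIdeal ∈ IsDedekindDomain.primesOverFinset v.asIdeal (𝓞 M) := by
    intro w hw
    refine (IsDedekindDomain.mem_primesOverFinset_iff v.ne_bot _).2 ⟨w.isPrime, ⟨?_⟩⟩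
    rw [← hw]
    rfl
  have hpos : 0 < Module.finrank L M := Module.finrank_pos
  refine ⟨fun w => if hw : dn L M w = v then
    Fin.castLE hcard ((IsDedekindDomain.primesOverFinset v.asIdeal (𝓞 M)).equivFin
      ⟨w.asIdeal, hmem w hw⟩) else ⟨0, hpos⟩, fun w w' hw hw' h => ?_⟩
  simp only [dif_pos hw, dif_pos hw'] at h
  have h1 := Fin.castLE_injective hcard h
  have h2 := (IsDedekindDomain.primesOverFinset v.asIdeal (𝓞 M)).equivFin.injective h1
  exact HeightOneSpectrum.ext (congrArg Subtype.val h2)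

end DLB

theorem tb_DLB : Sb_DLB := by
  classical
  intro L M _ _ _ _ _
  obtain ⟨C₁, hC₁⟩ := (isBigO_sum M).bound
  obtain ⟨C₂, hC₂⟩ := m_DEG2 M {w : HeightOneSpectrum (𝓞 M) | ¬ (absNorm w.asIdeal).Prime}
    (fun w hw => hw)
  choose e he using DLB.exists_inj L M
  set B : Set (HeightOneSpectrum (𝓞 L)) := {v | Pool.Agent.HB.Deg1 L M v} with hB
  set W : Set (HeightOneSpectrum (𝓞 M)) := {w | (absNorm w.asIdeal).Prime} with hW
  have hWB : ∀ w : W, DLB.dn L M w.1 ∈ B := fun w =>
    ⟨w.1, rfl, DLB.norm_dn L M w.1 w.2⟩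
  let g : W → B × Fin (Module.finrank L M) := fun w =>
    (⟨DLB.dn L M w.1, hWB w⟩, e (DLB.dn L M w.1) w.1)
  have hg : Function.Injective g := by
    intro w w' h
    have h1 : DLB.dn L M w.1 = DLB.dn L M w'.1 := congrArg (fun q => q.1.1) h
    have h2 : e (DLB.dn L M w.1) w.1 = e (DLB.dn L M w'.1) w'.1 := congrArg (fun q => q.2) h
    rw [← h1] at h2
    exact Subtype.ext (he (DLB.dn L M w.1) w.1 w'.1 rfl h1.symm h2)
  refine ⟨C₁ + C₂, ?_⟩
  filter_upwards [hC₁, self_mem_nhdsWithin] with s hsC hs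
  have hs' : (1 : ℝ) < s := hs
  rw [norm_one, mul_one, Real.norm_eq_abs] at hsC
  have h1 := neg_abs_le (∑' v : HeightOneSpectrum (𝓞 M), x s v - Real.log (1 / (s - 1)))
  have hsumL := summable_x (K := L) hs'
  have hsumM := summable_x (K := M) hs'
  have h2 := hC₂ s hs'
  -- splitting the sum
  have h3 : ∑' w : HeightOneSpectrum (𝓞 M), x s w = ∑' w, Set.indicator W (x s) w +
      ∑' w, Set.indicator {w : HeightOneSpectrum (𝓞 M) | ¬ (absNorm w.asIdeal).Prime} (x s) w := by
    rw [← (hsumM.indicator W).tsum_add (hsumM.indicator _)]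
    refine tsum_congr fun w => ?_
    by_cases hw : w ∈ W
    · have hn : w ∉ {w : HeightOneSpectrum (𝓞 M) | ¬ (absNorm w.asIdeal).Prime} := fun h => h hw
      rw [Set.indicator_of_mem hw, Set.indicator_of_notMem hn, add_zero]
    · rw [Set.indicator_of_notMem hw, Set.indicator_of_mem (show w ∈ {w : HeightOneSpectrum (𝓞 M) |
        ¬ (absNorm w.asIdeal).Prime} from hw), zero_add]
  -- the comparison
  have h4 : ∑' w, Set.indicator W (x s) w ≤
      (Module.finrank L M : ℝ) * ∑' v, Set.indicator B (x s) v := by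
    have hs2 : Summable fun q : B × Fin (Module.finrank L M) => x (K := L) s q.1.1 := by
      have h0 : Summable fun v : B => x (K := L) s v.1 := hsumL.subtype B
      have h5 := h0.mul_of_nonneg (g := fun _ : Fin (Module.finrank L M) => (1 : ℝ))
        (Summable.of_finite) (fun v => (x_pos s v.1).le) (fun _ => zero_le_one)
      refine h5.congr fun q => ?_
      rw [mul_one]
    have h6 : (Module.finrank L M : ℝ) * ∑' v, Set.indicator B (x s) v =
        ∑' q : B × Fin (Module.finrank L M), x (K := L) s q.1.1 := by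
      rw [← tsum_subtype, hs2.tsum_prod, ← tsum_mul_left]
      refine tsum_congr fun v => ?_
      simp
    rw [h6, ← tsum_subtype]
    refine Summable.tsum_le_tsum_of_inj g hg (fun q _ => (x_pos s q.1.1).le) (fun w => ?_)
      (hsumM.subtype W) hs2
    have h7 : absNorm w.1.asIdeal = absNorm (DLB.dn L M w.1).asIdeal := DLB.norm_dn L M w.1 w.2
    show x s w.1 ≤ x s (DLB.dn L M w.1)
    unfold x
    rw [h7]
  linarith

end Pool.Agent.VB
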