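import Pool.Agent.VB.StVB

/-!
# VB, module FNP (helper53): the main theorem for a field with `p`-th roots of unity
-/

set_option autoImplicit false

open NumberField IsDedekindDomain Filter Topology
open scoped nonZeroDivisors Pointwise

namespace Pool.Agent.VB

open Pool.Agent.RI Pool.Agent.MU3 Pool.Agent.Lib_helper28.FROB

namespace FNP

/-- bounded families of inequivalent elements: finite index -/
theorem index_le {G : Type} [CommGroup G] (P K : Subgroup G) (N : ℕ)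
    (h : ∀ T : Finset G, (∀ x ∈ T, x ∈ K) → (∀ x ∈ T, ∀ x' ∈ T, x ≠ x' → x / x' ∉ P) →
      T.card ≤ N) : P.relIndex K ≠ 0 ∧ P.relIndex K ≤ N := by
  classical
  have hb : ∀ U : Finset (K ⧸ P.subgroupOf K), U.card ≤ N := by
    intro U
    have hinj : Function.Injective fun q : K ⧸ P.subgroupOf K => ((Quotient.out q : K) : G) := by
      intro a b hab
      have h1 : (Quotient.out a : K) = Quotient.out b := Subtype.ext hab
      rw [← Quotient.out_eq a, ← Quotient.out_eq b, h1]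
    rw [← Finset.card_image_of_injective U hinj]
    refine h _ ?_ ?_
    · intro x hx
      obtain ⟨q, -, rfl⟩ := Finset.mem_image.1 hx
      exact (Quotient.out q : K).2
    · intro x hx x' hx' hne hdiv
      obtain ⟨q, -, rfl⟩ := Finset.mem_image.1 hx
      obtain ⟨q', -, rfl⟩ := Finset.mem_image.1 hx'
      apply hne
      have hq : q = q' := by
        rw [← QuotientGroup.out_eq' q, ← QuotientGroup.out_eq' q', QuotientGroup.eq]
        rw [Subgroup.mem_subgroupOf]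
        have h2 := P.inv_mem hdiv
        rw [inv_div] at h2
        have e : (((Quotient.out q)⁻¹ * Quotient.out q' : K) : G) =
            ((Quotient.out q' : K) : G) / ((Quotient.out q : K) : G) := by
          rw [Subgroup.coe_mul, Subgroup.coe_inv, div_eq_mul_inv, mul_comm]
        rw [e]
        exact h2
      rw [hq]
  have hfin : Finite (K ⧸ P.subgroupOf K) := by
    by_contra hinf
    rw [not_finite_iff_infinite] at hinf
    obtain ⟨U, hU⟩ := Infinite.exists_subset_card_eq (K ⧸ P.subgroupOf K) (N + 1)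
    have := hb U
    omega
  have := Fintype.ofFinite (K ⧸ P.subgroupOf K)
  have hc : P.relIndex K = Fintype.card (K ⧸ P.subgroupOf K) := by
    rw [Subgroup.relIndex, Subgroup.index, Nat.card_eq_fintype_card]
  rw [hc]
  exact ⟨Fintype.card_ne_zero, hb Finset.univ⟩

/-- the action on the units -/
noncomputable def su (γ : ℂ ≃+* ℂ) : ℂˣ →* ℂˣ := Units.map (γ : ℂ →* ℂ)

theorem su_val (γ : ℂ ≃+* ℂ) (x : ℂˣ) : ((su γ x : ℂˣ) : ℂ) = γ x := rfl

theorem su_iter (γ : ℂ ≃+* ℂ) (k : ℕ) (x : ℂˣ) : (((⇑(su γ))^[k] x : ℂˣ) : ℂ) = (γ ^ k) x := by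
  induction k with
  | zero => rfl
  | succ k ih =>
    rw [Function.iterate_succ_apply', su_val, ih, pow_succ']
    rfl

/-- `y^p = y'^p t^p` in terms of roots of unity -/
theorem adj_le_adj {p : ℕ} (hp : 0 < p) {E : IntermediateField ℚ ℂ} {ζ : ℂ} (hζE : ζ ∈ E)
    (hζ : IsPrimitiveRoot ζ p) {y y' t : ℂ} (ht : t ∈ E) (ht0 : t ≠ 0) (hy : y ≠ 0)
    (h : t ^ p * y ^ p = y' ^ p) : adj E y' ≤ adj E y := by
  have : NeZero p := ⟨hp.ne'⟩
  have h1 : (y' / (t * y)) ^ p = 1 := by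
    rw [div_pow, mul_pow, h]
    refine div_self (pow_ne_zero _ ?_)
    rintro rfl
    rw [zero_pow hp.ne'] at h
    exact mul_ne_zero (pow_ne_zero _ ht0) (pow_ne_zero _ hy) h
  obtain ⟨i, -, hi⟩ := hζ.eq_pow_of_pow_eq_one h1
  have h2 : y' = ζ ^ i * (t * y) := by
    rw [hi]
    field_simp
  refine adj_le (le_adj E y) ?_
  rw [h2]
  exact mul_mem (le_adj E y (pow_mem hζE i)) (mul_mem (le_adj E y ht) (mem_adj E y))

end FNP

theorem tb_FNP (hTOW : Sb_TOW) (hLIM : Sb_LIM) (hDGR : Sb_DGR) (hBND : Sb_BND) (hABS : Sb_ABS)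
    (hGRO : Sb_GRO) (hVD1 : Sb_VD1) (hKUF : Sb_KUF) : Sb_FNP := by
  intro p hpF F hFd B hlay hmono hTC hζ hC
  classical
  have hp : p.Prime := hpF.out
  obtain ⟨n₁, γ, hT⟩ := hTOW p F B hlay hmono hζ
  obtain ⟨l1, -, -⟩ := hLIM F B hmono
  obtain ⟨C, hC⟩ := hC
  obtain ⟨ζ, hζF, hζ⟩ := hζ
  have hle : ∀ i j, i ≤ j → F ⊔ B (n₁ + i) ≤ F ⊔ B (n₁ + j) := fun i j hij =>
    sup_le_sup_left (hmono (by omega)) F
  have hle' : ∀ i, F ⊔ B i ≤ F ⊔ B (n₁ + i) := fun i => sup_le_sup_left (hmono (by omega)) F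
  have hfd : ∀ i, FiniteDimensional ℚ ↥(F ⊔ B (n₁ + i)) := fun i => hT.fd _
  have hζi : ∀ i, ∃ ζ ∈ F ⊔ B (n₁ + i), IsPrimitiveRoot ζ p := fun i =>
    ⟨ζ, (le_sup_left : F ≤ F ⊔ B (n₁ + i)) hζF, hζ⟩
  have hd : ∀ i, _ := fun i => @hDGR p hpF (F ⊔ B (n₁ + i)) (hfd i) (hζi i)
  -- the group `D`
  set E := Finf F B with hE
  have hFE : ∀ i, F ⊔ B (n₁ + i) ≤ E := fun i => le_Finf F B _
  have hζE : ζ ∈ E := (le_sup_left : F ≤ F ⊔ ⨆ n, B n) hζF
  have hup : ∀ i j, i ≤ j → ∀ x, InD p (F ⊔ B (n₁ + i)) x → InD p (F ⊔ B (n₁ + j)) x :=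
    fun i j hij x hx => (hd i).2.2.2.1 _ (hle i j hij) x hx
  let D : Subgroup ℂˣ :=
    { carrier := {x | ∃ i, InD p (F ⊔ B (n₁ + i)) (x : ℂ)}
      mul_mem' := by
        rintro a b ⟨i, hi⟩ ⟨j, hj⟩
        refine ⟨max i j, ?_⟩
        rw [Units.val_mul]
        exact (hd (max i j)).2.1 _ _ (hup _ _ (le_max_left i j) _ hi)
          (hup _ _ (le_max_right i j) _ hj)
      one_mem' := by
        refine ⟨0, ?_⟩
        have h1 := (hd 0).1 1 (one_mem _) one_ne_zero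
        rw [one_pow] at h1
        rw [Units.val_one]
        exact h1
      inv_mem' := by
        rintro a ⟨i, hi⟩
        refine ⟨i, ?_⟩
        rw [Units.val_inv_eq_inv_val]
        exact (hd i).2.2.1 _ hi }
  have memD : ∀ x : ℂˣ, x ∈ D ↔ ∃ i, InD p (F ⊔ B (n₁ + i)) (x : ℂ) := fun x => Iff.rfl
  set P : Subgroup ℂˣ := PL p E with hP
  have memP : ∀ x : ℂˣ, x ∈ P ↔ ∃ t : ℂˣ, (t : ℂ) ∈ E ∧ t ^ p = x := fun x => Iff.rfl
  have hPD : P ≤ D := by
    rintro x ⟨t, ht, rfl⟩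
    obtain ⟨n, hn⟩ := l1 _ ht
    refine (memD _).2 ⟨n, ?_⟩
    rw [Units.val_pow_eq_pow_val]
    exact (hd n).1 _ (hle' n hn) t.ne_zero
  have hDp : ∀ x ∈ D, x ^ p ∈ P := by
    rintro x ⟨i, hi⟩
    exact (memP _).2 ⟨x, hFE i hi.1, rfl⟩
  -- `γ` acts
  have hγF : Fixes F γ := by
    have h1 := hT.fix 0
    rw [pow_zero, pow_one] at h1
    exact fixes_mono le_sup_left h1
  have hstab : ∀ σ : ℂ ≃+* ℂ, Fixes F σ → ∀ i, ∀ x ∈ F ⊔ B (n₁ + i), σ x ∈ F ⊔ B (n₁ + i) := by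
    intro σ hσ i
    have h1 : F ⊔ B (n₁ + i) ≤ PreF σ (F ⊔ B (n₁ + i)) := by
      refine sup_le (fun x hx => ?_) (fun x hx => ?_)
      · rw [mem_PreF, hσ x hx]
        exact (le_sup_left : F ≤ F ⊔ B (n₁ + i)) hx
      · rw [mem_PreF]
        exact (le_sup_right : B (n₁ + i) ≤ F ⊔ B (n₁ + i)) (hT.nrm _ σ (fixes_bot σ) x hx)
    exact fun x hx => h1 hx
  have hsD : ∀ x ∈ D, FNP.su γ x ∈ D := by
    rintro x ⟨i, hi⟩
    refine (memD _).2 ⟨i, ?_⟩
    rw [FNP.su_val]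
    exact (hd i).2.2.2.2 γ (hstab γ hγF i) (hstab γ⁻¹ (fixes_inv hγF) i) _ hi
  have hsP : ∀ x ∈ P, FNP.su γ x ∈ P := by
    rintro x ⟨t, ht, rfl⟩
    refine (memP _).2 ⟨FNP.su γ t, ?_, ?_⟩
    · obtain ⟨n, hn⟩ := l1 _ ht
      rw [FNP.su_val]
      exact hFE n (hstab γ hγF n _ (hle' n hn))
    · rw [map_pow]
  have hDm : ∀ x ∈ D, ∃ m : ℕ, (⇑(FNP.su γ))^[p ^ m] x / x ∈ P := by
    rintro x ⟨i, hi⟩
    refine ⟨i, ?_⟩
    have h1 : (⇑(FNP.su γ))^[p ^ i] x = x := by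
      refine Units.ext ?_
      rw [FNP.su_iter]
      exact hT.fix i _ hi.1
    rw [h1, div_self']
    exact P.one_mem
  -- the exponent
  obtain ⟨j, hj⟩ := hGRO p C n₁ hp
  set N := p ^ (padicValNat p (classNo (F ⊔ B (n₁ + (j + 1)))) + 1) with hN
  have hN2 : N < 2 ^ (p ^ j) := by
    refine lt_of_le_of_lt (Nat.pow_le_pow_right hp.pos ?_) hj
    have h1 := hC (n₁ + (j + 1))
    have e : n₁ + (j + 1) + 1 = n₁ + j + 2 := by omega
    rw [e] at h1
    omega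
  let K : Subgroup ℂˣ := D ⊓ P.comap (FNP.su (γ ^ p ^ j) / MonoidHom.id ℂˣ)
  have hsu : ∀ x : ℂˣ, FNP.su (γ ^ p ^ j) x = (⇑(FNP.su γ))^[p ^ j] x := by
    intro x
    refine Units.ext ?_
    rw [FNP.su_iter, FNP.su_val]
  have hK : ∀ x, x ∈ K ↔ x ∈ D ∧ (⇑(FNP.su γ))^[p ^ j] x / x ∈ P := by
    intro x
    rw [← hsu x]
    exact Iff.rfl
  obtain ⟨hK0, hKN⟩ := FNP.index_le P K N (by
    intro U hUK hUP
    refine hBND p F B n₁ γ hT hTC j U ?_ hUP
    intro x hx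
    obtain ⟨hxD, hxP⟩ := (hK x).1 (hUK x hx)
    refine ⟨(memD x).1 hxD, ?_⟩
    obtain ⟨t, ht, he⟩ := (memP _).1 hxP
    refine ⟨t, ht, ?_⟩
    rw [← FNP.su_val, hsu, ← Units.val_pow_eq_pow_val, he, Units.val_div_eq_div_val]
    field_simp)
  have hDP : P.relIndex D ≠ 0 := hABS ℂˣ p (FNP.su γ) D P hPD hsD hsP hDp hDm j K hK hK0
    (lt_of_le_of_lt hKN hN2)
  -- the extensions
  have hfi : (P.subgroupOf D).FiniteIndex := ⟨hDP⟩
  have hfin : Finite (D ⧸ P.subgroupOf D) := Subgroup.finite_quotient_of_finiteIndex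
  have hy : ∀ M : UM p E, ∃ y : ℂ, y ≠ 0 ∧ (M : IntermediateField ℚ ℂ) = adj E y ∧
      ∃ i, InD p (F ⊔ B (n₁ + i)) (y ^ p) := by
    rintro ⟨M, h, hG, hr, hU⟩
    obtain ⟨y, hyp, hyE, hM⟩ := hKUF p E M h ⟨ζ, hζE, hζ⟩ hG hr
    have hy0 : y ≠ 0 := by
      rintro rfl
      exact hyE (zero_mem E)
    obtain ⟨i, hi⟩ := l1 _ hyp
    refine ⟨y, hy0, hM, i + 1, ?_⟩
    refine hVD1 p F B n₁ γ hT i (y ^ p) y (hle' i hi) (pow_ne_zero _ hy0) rfl hyE ?_
    rw [← hM]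
    exact hU
  choose y hy0 hyM hyD using hy
  let f : UM p E → D ⧸ P.subgroupOf D := fun M =>
    QuotientGroup.mk ⟨Units.mk0 (y M ^ p) (pow_ne_zero _ (hy0 M)), hyD M⟩
  have hf : Function.Injective f := by
    intro M M' hMM
    have h1 := QuotientGroup.eq.1 hMM
    rw [Subgroup.mem_subgroupOf] at h1
    obtain ⟨t, ht, he⟩ := (memP _).1 h1
    have he' : (t : ℂ) ^ p = (y M ^ p)⁻¹ * y M' ^ p := by
      rw [← Units.val_pow_eq_pow_val, he]
      rfl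
    have hn := pow_ne_zero p (hy0 M)
    have hn' := pow_ne_zero p (hy0 M')
    have ht0 := t.ne_zero
    apply Subtype.ext
    rw [hyM M, hyM M']
    refine le_antisymm ?_ ?_
    · refine FNP.adj_le_adj hp.pos hζE hζ (t := (t : ℂ)⁻¹) (inv_mem ht) (inv_ne_zero ht0)
        (hy0 M') ?_
      rw [inv_pow, he']
      field_simp
    · refine FNP.adj_le_adj hp.pos hζE hζ ht ht0 (hy0 M) ?_
      rw [he']
      field_simp
  have := Finite.of_injective f hf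
  exact Set.toFinite _

end Pool.Agent.VB
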