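import Pool.Agent.VB.StVB

/-!
# VB, module FQC: the group of an unramified extension of degree `p` (helper5)
-/

set_option autoImplicit false

open NumberField IsDedekindDomain
open scoped nonZeroDivisors Pointwise

namespace Pool.Agent.VB

open Pool.Agent.RI Pool.Agent.MU3

theorem tb_FQC (hFQI : Sb_FQI) (hUIX : Sb_UIX) (hUNR : Sb_UNR) (hNRM : Sb_NRM)
    (hCRD : Sb_CRD) : Sb_FQC := by
  intro p hp L M _ _ h hTC hN hR hU
  have hAL : Algebra.IsAlgebraic ℚ M := inferInstance
  have gA : IsGalois L (IntermediateField.extendScalars h) := (hNRM L M hAL h).2 hN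
  have fA : Module.finrank L (IntermediateField.extendScalars h) = p := by
    rw [(hCRD L M h).2.2.1, hR]
  let a1 := algC h
  have g1 : IsGalois L M := (isGalois_algC h).2 gA
  have f1 : Module.finrank L M = p := (finrank_algC h).trans fA
  have hfd : FiniteDimensional L M :=
    FiniteDimensional.of_finrank_pos (by rw [f1]; exact hp.out.pos)
  have hcard : Nat.card (M ≃ₐ[L] M) = p := by
    rw [IsGalois.card_aut_eq_finrank, f1]
  have : IsCyclic (M ≃ₐ[L] M) := isCyclic_of_prime_card hcard
  obtain ⟨σ, hσ⟩ := IsCyclic.exists_generator (α := M ≃ₐ[L] M)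
  have hcyc : Pool.Agent.HB.Cyc (p ^ 1) σ := ⟨g1, hσ, by rw [pow_one, f1]⟩
  have hTC' : Pool.Agent.HB.TC L := by
    intro v
    rw [← InfinitePlace.not_isReal_iff_isComplex]
    intro hv
    rw [InfinitePlace.isReal_iff] at hv
    obtain ⟨x, hx⟩ := hTC (InfinitePlace.embedding v)
    apply hx
    have h2 := RingHom.congr_fun (ComplexEmbedding.isReal_iff.1 hv) x
    rw [ComplexEmbedding.conjugate_coe_eq] at h2
    exact h2
  obtain ⟨U, S, hUi, hUS⟩ := hFQI L M p 1 σ hp.out hcyc hTC' (hUNR L M h hN hU)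
  exact ⟨U, S, le_antisymm (hUIX L M p hp.out f1 U S hUS) (by rw [pow_one] at hUi; exact hUi),
    hUS⟩

end Pool.Agent.VB
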