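import Pool.Agent.VB.StVB
import Pool.Agent.RID.P_LAYC

/-!
# VB, module GAM: a topological generator
-/

set_option autoImplicit false

namespace Pool.Agent.VB

open Pool.Agent.RI Pool.Agent.MU3

namespace GAM

/-- an element outside the subgroup of index `p` generates a cyclic `p`-group -/
lemma order_of_notMem {C : Type*} [Group C] [IsCyclic C] {p m : ℕ} (hp : p.Prime)
    (hC : Nat.card C = p ^ (m + 1)) (C1 : Subgroup C) (h1 : C1.index = p) (g : C)
    (hg : g ∉ C1) : orderOf g = p ^ (m + 1) := by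
  classical
  have hfin : Finite C := Nat.finite_of_card_ne_zero (by rw [hC]; exact pow_ne_zero _ hp.ne_zero)
  have hF : Fintype C := Fintype.ofFinite C
  have hcard1 : Nat.card C1 = p ^ m := by
    have h2 := C1.card_mul_index
    rw [h1, hC, pow_succ] at h2
    exact Nat.eq_of_mul_eq_mul_right hp.pos h2
  have hdvd : orderOf g ∣ p ^ (m + 1) := hC ▸ orderOf_dvd_natCard g
  obtain ⟨k, hk, hgk⟩ := (Nat.dvd_prime_pow hp).1 hdvd
  rcases Nat.lt_or_ge k (m + 1) with hlt | hge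
  · exfalso
    have hgm : g ^ (p ^ m) = 1 := by
      rw [← orderOf_dvd_iff_pow_eq_one, hgk]
      exact pow_dvd_pow p (Nat.lt_succ_iff.1 hlt)
    have hle := IsCyclic.card_pow_eq_one_le (α := C) (n := p ^ m) (pow_pos hp.pos m)
    have hsub : insert g (Finset.univ.filter (fun x : C => x ∈ C1)) ⊆
        Finset.univ.filter (fun x : C => x ^ (p ^ m) = 1) := by
      intro x hx
      rw [Finset.mem_insert, Finset.mem_filter] at hx
      rw [Finset.mem_filter]
      refine ⟨Finset.mem_univ _, ?_⟩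
      rcases hx with rfl | ⟨-, hx⟩
      · exact hgm
      · have h3 : (⟨x, hx⟩ : C1) ^ (Nat.card C1) = 1 := pow_card_eq_one'
        rw [hcard1] at h3
        exact congrArg Subtype.val h3
    have hcard2 := Finset.card_le_card hsub
    rw [Finset.card_insert_of_notMem (by
      rw [Finset.mem_filter]
      exact fun h => hg h.2)] at hcard2
    have hcard3 : (Finset.univ.filter (fun x : C => x ∈ C1)).card = p ^ m := by
      rw [← hcard1, Nat.card_eq_fintype_card, Fintype.card_subtype]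
    omega
  · have : k = m + 1 := le_antisymm hk hge
    rw [hgk, this]

/-- the abstract form -/
lemma abstr {G : Type*} [Group G] (K : ℕ → Subgroup G) (p : ℕ) (hp : p.Prime)
    (hN : ∀ m, (K m).Normal) (hanti : Antitone K) (hidx : ∀ m, (K m).index = p ^ m)
    (hcyc : ∀ m, IsCyclic (G ⧸ K m)) :
    ∃ γ : G, (∀ j, γ ^ (p ^ j) ∈ K j) ∧
      ∀ j m, j ≤ m → ∀ σ ∈ K j, ∃ i : ℕ, σ⁻¹ * γ ^ (p ^ j * i) ∈ K m := by
  have h1 : ∃ γ : G, γ ∉ K 1 := by
    by_contra hcon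
    push Not at hcon
    have h2 : K 1 = ⊤ := (Subgroup.eq_top_iff' _).2 hcon
    have h3 := hidx 1
    rw [h2, Subgroup.index_top, pow_one] at h3
    exact hp.one_lt.ne h3
  obtain ⟨γ, hγ⟩ := h1
  have hcard : ∀ m, Nat.card (G ⧸ K m) = p ^ m := fun m => hidx m
  have hord : ∀ m, orderOf (QuotientGroup.mk (s := K m) γ) = p ^ m := by
    intro m
    rcases m with _ | m
    · have h2 := orderOf_dvd_natCard (QuotientGroup.mk (s := K 0) γ)
      rw [hcard 0, pow_zero, Nat.dvd_one] at h2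
      rw [h2, pow_zero]
    · have := hcyc (m + 1)
      have hle : K (m + 1) ≤ K 1 := hanti (by omega)
      refine order_of_notMem hp (hcard (m + 1)) ((K 1).map (QuotientGroup.mk' (K (m + 1)))) ?_ _ ?_
      · rw [Subgroup.index_map, QuotientGroup.ker_mk', sup_eq_left.2 hle, hidx 1, pow_one,
          MonoidHom.range_eq_top.2 (QuotientGroup.mk'_surjective _), Subgroup.index_top, mul_one]
      · rintro ⟨k, hk, hk2⟩
        have h3 : k⁻¹ * γ ∈ K (m + 1) := QuotientGroup.eq.1 hk2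
        have h4 : k * (k⁻¹ * γ) ∈ K 1 := mul_mem hk (hle h3)
        rw [mul_inv_cancel_left] at h4
        exact hγ h4
  have hpow : ∀ (m n : ℕ), γ ^ n ∈ K m ↔ p ^ m ∣ n := by
    intro m n
    rw [← hord m, orderOf_dvd_iff_pow_eq_one, ← QuotientGroup.mk_pow, QuotientGroup.eq_one_iff]
  refine ⟨γ, fun j => (hpow j _).2 dvd_rfl, ?_⟩
  intro j m hjm σ hσ
  have hfin : Finite (G ⧸ K m) :=
    Nat.finite_of_card_ne_zero (by rw [hcard]; exact pow_ne_zero _ hp.ne_zero)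
  have hz : Subgroup.zpowers (QuotientGroup.mk (s := K m) γ) = ⊤ := by
    refine Subgroup.eq_top_of_card_eq _ ?_
    rw [Nat.card_zpowers, hord, hcard]
  have hmem : (QuotientGroup.mk (s := K m) σ) ∈ Subgroup.zpowers (QuotientGroup.mk (s := K m) γ) := by
    rw [hz]
    exact Subgroup.mem_top _
  rw [← mem_powers_iff_mem_zpowers] at hmem
  obtain ⟨a, ha⟩ := hmem
  have h5 : σ⁻¹ * γ ^ a ∈ K m := by
    refine QuotientGroup.eq.1 ?_
    rw [QuotientGroup.mk_pow]
    exact ha.symm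
  have h6 : γ ^ a ∈ K j := by
    have h7 : σ * (σ⁻¹ * γ ^ a) ∈ K j := mul_mem hσ (hanti hjm h5)
    rwa [mul_inv_cancel_left] at h7
  obtain ⟨i, rfl⟩ := (hpow j a).1 h6
  exact ⟨i, h5⟩

/-- the automorphisms which fix `L` -/
def fixS (L : IntermediateField ℚ ℂ) : Subgroup (ℂ ≃+* ℂ) where
  carrier := {σ | Fixes L σ}
  mul_mem' := fun h h' => fixes_mul h h'
  one_mem' := fixes_one L
  inv_mem' := fun h => fixes_inv h

/-- restriction to a stable field -/
noncomputable def resH (M : IntermediateField ℚ ℂ) (hM : Nrm ⊥ M) :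
    (ℂ ≃+* ℂ) →* (M ≃ₐ[ℚ] M) where
  toFun σ := AlgEquiv.ofRingEquiv (f :=
    { toFun := fun x => ⟨σ (x : ℂ), hM σ (fixes_bot σ) x x.2⟩
      invFun := fun x => ⟨σ.symm (x : ℂ), hM σ.symm (fixes_bot σ.symm) x x.2⟩
      left_inv := fun x => Subtype.ext (σ.symm_apply_apply (x : ℂ))
      right_inv := fun x => Subtype.ext (σ.apply_symm_apply (x : ℂ))
      map_mul' := fun x y => Subtype.ext (map_mul σ (x : ℂ) y)
      map_add' := fun x y => Subtype.ext (map_add σ (x : ℂ) y) }) (fun r => by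
      apply Subtype.ext
      have h1 : ((algebraMap ℚ M r : M) : ℂ) = (r : ℂ) := by
        have h2 : (algebraMap M ℂ).comp (algebraMap ℚ M) = algebraMap ℚ ℂ :=
          Subsingleton.elim _ _
        exact congrArg (fun f : ℚ →+* ℂ => f r) h2
      show σ ((algebraMap ℚ M r : M) : ℂ) = ((algebraMap ℚ M r : M) : ℂ)
      rw [h1]
      exact map_ratCast σ r)
  map_one' := by
    ext x
    rfl
  map_mul' := fun σ τ => by
    ext x
    rfl

lemma resH_eq_one {M : IntermediateField ℚ ℂ} (hM : Nrm ⊥ M) (σ : ℂ ≃+* ℂ) :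
    resH M hM σ = 1 ↔ Fixes M σ := by
  constructor
  · intro h x hx
    have h1 := congrArg (fun f : M ≃ₐ[ℚ] M => ((f ⟨x, hx⟩ : M) : ℂ)) h
    exact h1
  · intro h
    ext x
    exact h x x.2

/-- the layers are stable under all automorphisms -/
lemma layer_nrm {p n : ℕ} [hp : Fact p.Prime] {B : IntermediateField ℚ ℂ}
    (hB : IsLayer p n B) : Nrm ⊥ B := by
  obtain ⟨-, -, m, hle⟩ := hB
  have hN : p ^ m ≠ 0 := pow_ne_zero m hp.out.ne_zero
  have hA := LAY.isAbelian_of_le (p ^ m) hN ⟨_, Complex.isPrimitiveRoot_exp _ hN⟩ B hle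
  have hG := hA.toIsGalois
  have hn := hG.to_normal
  intro σ hσ x hx
  have h1 := @LAY.mem_of_normal ℚ ℂ _ _ _ B hn
    (@RingHom.toRatAlgHom _ _ _ _ _ _ ((σ : ℂ →+* ℂ).comp (algebraMap B ℂ))) ⟨x, hx⟩
  exact h1

end GAM

open GAM in
theorem tb_GAM (hCRD : Sb_CRD) : Sb_GAM := by
  intro p hpf F hF B hB hmono n₁ hdeg
  have hp : p.Prime := hpf.out
  have hnB : ∀ n, Nrm ⊥ (B n) := fun n => layer_nrm (hB n)
  have hfdB : ∀ n, FiniteDimensional ℚ (B n) := fun n => (LAY_thm p n (B n) (hB n)).1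
  have hfd : ∀ n, FiniteDimensional ℚ ↥(F ⊔ B n) := fun n => by
    have := hfdB n
    exact IntermediateField.finiteDimensional_sup F (B n)
  let G := fixS (F ⊔ B n₁)
  let f : ∀ m, G →* (B (n₁ + m) ≃ₐ[ℚ] B (n₁ + m)) := fun m =>
    (resH (B (n₁ + m)) (hnB _)).comp G.subtype
  let K : ℕ → Subgroup G := fun m => (f m).ker
  have hK : ∀ m (σ : G), σ ∈ K m ↔ Fixes (F ⊔ B (n₁ + m)) (σ : ℂ ≃+* ℂ) := by
    intro m σ
    have h1 : σ ∈ K m ↔ Fixes (B (n₁ + m)) (σ : ℂ ≃+* ℂ) :=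
      MonoidHom.mem_ker.trans (resH_eq_one (hnB _) _)
    rw [h1]
    constructor
    · intro h
      exact fixes_sup (fixes_mono le_sup_left (show Fixes (F ⊔ B n₁) (σ : ℂ ≃+* ℂ) from σ.2)) h
    · exact fun h => fixes_mono le_sup_right h
  have hKanti : Antitone K := by
    intro a b hab σ hσ
    rw [hK] at hσ ⊢
    exact fixes_mono (sup_le_sup_left (hmono (by omega)) F) hσ
  have hcyc : ∀ m, IsCyclic (G ⧸ K m) := by
    intro m
    have := Pool.Agent.RID.t_LAYC p (n₁ + m) (B (n₁ + m)) (hB _)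
    exact isCyclic_of_injective (QuotientGroup.kerLift (f m)) (QuotientGroup.kerLift_injective _)
  have hidx : ∀ m, (K m).index = p ^ m := by
    intro m
    have := hfd (n₁ + m)
    have hle : F ⊔ B n₁ ≤ F ⊔ B (n₁ + m) := sup_le_sup_left (hmono (by omega)) F
    obtain ⟨h1, -, -, -, -⟩ := hCRD (F ⊔ B n₁) (F ⊔ B (n₁ + m)) hle
    rw [hdeg m] at h1
    have hpos : 0 < Module.finrank ℚ ↥(F ⊔ B n₁) := by
      have := hfd n₁
      exact Module.finrank_pos
    have h2 : p ^ m = cR (F ⊔ B n₁) (F ⊔ B (n₁ + m)) := Nat.eq_of_mul_eq_mul_left hpos h1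
    rw [h2]
    refine Nat.card_congr (Equiv.ofBijective (fun q : G ⧸ K m => Quotient.liftOn' q
      (fun σ : G => (⟨fun x => (σ : ℂ ≃+* ℂ) x, ⟨σ, σ.2, fun _ => rfl⟩⟩ :
        {f : ↥(F ⊔ B (n₁ + m)) → ℂ // ∃ σ : ℂ ≃+* ℂ, Fixes (F ⊔ B n₁) σ ∧ ∀ x, f x = σ x})) ?_) ?_)
    · intro σ τ hστ
      rw [QuotientGroup.leftRel_apply, hK] at hστ
      refine Subtype.ext (funext fun x => ?_)
      have h3 := hστ x x.2
      have h4 : (σ : ℂ ≃+* ℂ) ((((σ⁻¹ * τ : G) : ℂ ≃+* ℂ)) x) = (τ : ℂ ≃+* ℂ) x :=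
        (σ : ℂ ≃+* ℂ).apply_symm_apply _
      rw [h3] at h4
      exact h4
    · constructor
      · intro q q'
        refine Quotient.inductionOn₂' q q' ?_
        intro σ τ hστ
        refine Quotient.sound' ?_
        rw [QuotientGroup.leftRel_apply, hK]
        intro x hx
        have h3 : (σ : ℂ ≃+* ℂ) x = (τ : ℂ ≃+* ℂ) x :=
          congrFun (congrArg Subtype.val hστ) ⟨x, hx⟩
        show (σ : ℂ ≃+* ℂ).symm ((τ : ℂ ≃+* ℂ) x) = x
        rw [← h3]
        exact (σ : ℂ ≃+* ℂ).symm_apply_apply x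
      · rintro ⟨g, σ, hσ, hg⟩
        refine ⟨QuotientGroup.mk (⟨σ, hσ⟩ : G), ?_⟩
        refine Subtype.ext (funext fun x => ?_)
        exact (hg x).symm
  obtain ⟨γ, h1, h2⟩ := abstr K p hp (fun m => MonoidHom.normal_ker _) hKanti hidx hcyc
  refine ⟨(γ : ℂ ≃+* ℂ), ?_, ?_⟩
  · intro j
    have h3 := (hK j _).1 (h1 j)
    exact h3
  · intro j m hjm σ hσ
    have hle : F ⊔ B n₁ ≤ F ⊔ B (n₁ + j) := sup_le_sup_left (hmono (by omega)) F
    have hσG : σ ∈ G := fixes_mono hle hσ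
    obtain ⟨i, hi⟩ := h2 j m hjm ⟨σ, hσG⟩ ((hK j _).2 hσ)
    refine ⟨i, fun x hx => ?_⟩
    have h3 := (hK m _).1 hi x hx
    have h4 : σ (σ.symm (((γ : ℂ ≃+* ℂ) ^ (p ^ j * i)) x)) = ((γ : ℂ ≃+* ℂ) ^ (p ^ j * i)) x :=
      σ.apply_symm_apply _
    rw [← h4]
    exact congrArg σ h3.symm

end Pool.Agent.VB
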