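import Pool.Agent.VB.StVB

/-!
# VB: growth (module VB_GRO, helper12)
-/

set_option autoImplicit false

open Filter Topology

namespace Pool.Agent.VB

private lemma gro_tend (p C n₁ : ℕ) (hp : 2 ≤ p) :
    Tendsto (fun j : ℕ => ((p : ℝ) * (C * ((n₁ : ℝ) + j + 2) ^ C + 1)) / (p : ℝ) ^ j) atTop (𝓝 0) := by
  have hp1 : (1 : ℝ) < (p : ℝ) := by exact_mod_cast (by omega : 1 < p)
  have hp0 : (0 : ℝ) < (p : ℝ) := by linarith
  have h1 := (tendsto_pow_const_div_const_pow_of_one_lt C hp1).comp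
    (tendsto_add_atTop_nat (n₁ + 2))
  have h2 := (tendsto_pow_const_div_const_pow_of_one_lt 0 hp1)
  have h3 := ((h1.const_mul ((p : ℝ) * C * (p : ℝ) ^ (n₁ + 2))).add (h2.const_mul (p : ℝ)))
  simp only [mul_zero, add_zero] at h3
  refine h3.congr fun j => ?_
  simp only [Function.comp]
  have hpj : (p : ℝ) ^ j ≠ 0 := pow_ne_zero _ hp0.ne'
  have hpn : (p : ℝ) ^ (n₁ + 2) ≠ 0 := pow_ne_zero _ hp0.ne'
  have e : (p : ℝ) ^ (j + (n₁ + 2)) = (p : ℝ) ^ j * (p : ℝ) ^ (n₁ + 2) := pow_add _ _ _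
  rw [e]
  push_cast
  field_simp
  ring

theorem tb_GRO : Sb_GRO := by
  intro p C n₁ hp
  have hp2 := hp.two_le
  have hp0 : (0 : ℝ) < (p : ℝ) := by exact_mod_cast hp.pos
  obtain ⟨j, hj⟩ := ((gro_tend p C n₁ hp2).eventually_lt_const (by norm_num : (0 : ℝ) < 1)).exists
  refine ⟨j, ?_⟩
  have hj2 : p * (C * (n₁ + j + 2) ^ C + 1) < p ^ j := by
    rw [div_lt_one (pow_pos hp0 j)] at hj
    exact_mod_cast hj
  calc p ^ (C * (n₁ + j + 2) ^ C + 1)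
      ≤ (2 ^ p) ^ (C * (n₁ + j + 2) ^ C + 1) :=
        Nat.pow_le_pow_left (Nat.lt_two_pow_self).le _
    _ = 2 ^ (p * (C * (n₁ + j + 2) ^ C + 1)) := by rw [← pow_mul]
    _ < 2 ^ (p ^ j) := Nat.pow_lt_pow_right (by norm_num) hj2

end Pool.Agent.VB
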