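import Pool.Agent.VB.StVB
import Pool.Agent.MUX.KAllX

/-!
# IDX: density of primes in a subgroup of the class group (helper9)
-/

set_option autoImplicit false

namespace Pool.Agent.VB

theorem tb_IDX : Sb_IDX := Pool.Agent.MUXK.k_IDX

end Pool.Agent.VB
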