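import Pool.Agent.VB.StVB
import Pool.Agent.MU3.MSPLS

/-!
# Module VB_INA: two different unramified extensions do not have the same group `U`
-/

set_option autoImplicit false

open NumberField IsDedekindDomain Filter Topology
open scoped nonZeroDivisors Pointwise

namespace Pool.Agent.VB

open Pool.Agent.RI Pool.Agent.MU3 Pool.Agent.Lib_helper28.FROB

theorem tb_INA (hI : Sb_IDX) (hD : Sb_DLB) (hS : Sb_SPN) : Sb_INA := by
  intro L M M' N _ _ _ _ _ _ _ _ _ _ _ _ _ _ _ _ _ _ p hp hσ hM hM' hN hu hu' U S hUi hU hU'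
  classical
  set D : Set (HeightOneSpectrum (𝓞 L)) := {v | Pool.Agent.HB.Deg1 L M v} with hDdef
  set D' : Set (HeightOneSpectrum (𝓞 L)) := {v | Pool.Agent.HB.Deg1 L M' v} with hD'def
  have hp0 : (0 : ℝ) < p := by exact_mod_cast hp.pos
  have hp2 : (2 : ℝ) ≤ p := by exact_mod_cast hp.two_le
  obtain ⟨C1, hC1⟩ := hD L M
  obtain ⟨C2, hC2⟩ := hD L M'
  obtain ⟨C3, hC3⟩ := m_SPLS L N (p ^ 2) (D ∩ D') (fun v hv => by
    rw [← hN]
    exact hS L M M' N hσ v (hu v) (hu' v) hv.1 hv.2)
  set c : ℝ := 2 / p - 1 / (p : ℝ) ^ 2 with hc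
  have hc0 : 0 < c := by
    have h1 : c = (2 * p - 1) / (p : ℝ) ^ 2 := by
      rw [hc]; field_simp
    rw [h1]
    apply div_pos
    · linarith
    · positivity
  have key : ∃ C' : ℝ, ∀ᶠ s : ℝ in 𝓝[>] 1,
      c * Real.log (1 / (s - 1)) - C' ≤
        ∑' v, Set.indicator ((D ∪ D') \ (S : Set (HeightOneSpectrum (𝓞 L)))) (x s) v := by
    refine ⟨C1 / p + C2 / p + C3 / (p : ℝ) ^ 2 + S.card, ?_⟩
    filter_upwards [hC1, hC2, hC3, self_mem_nhdsWithin] with s hs1 hs2 hs3 hs
    have hs' : 1 < s := hs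
    have hsum := summable_x (K := L) hs'
    have e1 : Summable (Set.indicator D (x s)) := hsum.indicator _
    have e2 : Summable (Set.indicator D' (x s)) := hsum.indicator _
    have e3 : Summable (Set.indicator (D ∩ D') (x s)) := hsum.indicator _
    have e4 : Summable (Set.indicator ((D ∪ D') \ (S : Set (HeightOneSpectrum (𝓞 L)))) (x s)) :=
      hsum.indicator _
    have e5 : Summable (Set.indicator (S : Set (HeightOneSpectrum (𝓞 L))) (x s)) :=
      hsum.indicator _
    have h4 : ∑' v, Set.indicator D (x s) v + ∑' v, Set.indicator D' (x s) v ≤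
        ∑' v, Set.indicator ((D ∪ D') \ (S : Set (HeightOneSpectrum (𝓞 L)))) (x s) v +
          ∑' v, Set.indicator (S : Set (HeightOneSpectrum (𝓞 L))) (x s) v +
          ∑' v, Set.indicator (D ∩ D') (x s) v := by
      rw [← e1.tsum_add e2, ← e4.tsum_add e5, ← (e4.add e5).tsum_add e3]
      refine (e1.add e2).tsum_le_tsum (fun v => ?_) ((e4.add e5).add e3)
      have h0 := (x_pos s v).le
      by_cases hv : v ∈ D <;> by_cases hv' : v ∈ D' <;> by_cases hw : v ∈ S <;>
        simp [hv, hv', hw, h0]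
    have h5 : ∑' v, Set.indicator (S : Set (HeightOneSpectrum (𝓞 L))) (x s) v ≤ S.card := by
      rw [tsum_eq_sum (s := S) (fun v hv => by simp [hv])]
      have h6 : ∀ v ∈ S, Set.indicator (S : Set (HeightOneSpectrum (𝓞 L))) (x s) v ≤ 1 := by
        intro v hv
        rw [Set.indicator_of_mem (by exact_mod_cast hv)]
        have := x_le (s := s) hs'.le v
        linarith
      refine (Finset.sum_le_sum h6).trans ?_
      simp
    rw [hM] at hs1
    rw [hM'] at hs2
    push_cast at hs3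
    have h7 : (Real.log (1 / (s - 1)) - C1) / p ≤ ∑' v, Set.indicator D (x s) v := by
      rw [div_le_iff₀ hp0]; linarith
    have h8 : (Real.log (1 / (s - 1)) - C2) / p ≤ ∑' v, Set.indicator D' (x s) v := by
      rw [div_le_iff₀ hp0]; linarith
    have h9 : ∑' v, Set.indicator (D ∩ D') (x s) v ≤ (Real.log (1 / (s - 1)) + C3) / (p : ℝ) ^ 2 := by
      rw [le_div_iff₀ (by positivity)]; linarith
    have h10 : c * Real.log (1 / (s - 1)) - (C1 / p + C2 / p + C3 / (p : ℝ) ^ 2 + S.card) =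
        (Real.log (1 / (s - 1)) - C1) / p + (Real.log (1 / (s - 1)) - C2) / p -
          (Real.log (1 / (s - 1)) + C3) / (p : ℝ) ^ 2 - S.card := by
      rw [hc]; ring
    rw [h10]
    linarith
  have h := hI L ((D ∪ D') \ (S : Set (HeightOneSpectrum (𝓞 L)))) c hc0 key U (by
    rintro v ⟨hv | hv, hw⟩
    · exact hU v (by simpa using hw) hv
    · exact hU' v (by simpa using hw) hv)
  have h1 : (p : ℝ) * c ≤ 1 := by
    refine le_trans ?_ h
    exact mul_le_mul_of_nonneg_right (by exact_mod_cast hUi) hc0.le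
  have h2 : (p : ℝ) * c = 2 - 1 / p := by
    rw [hc]; field_simp
  rw [h2] at h1
  have h3 : 1 / (p : ℝ) ≤ 1 / 2 := one_div_le_one_div_of_le (by norm_num) hp2
  linarith

end Pool.Agent.VB
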