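import Pool.Agent.VB.StVB

/-!
# VB, module INJ: the group `U` determines the unramified extension (helper65)
-/

set_option autoImplicit false

open NumberField IsDedekindDomain
open scoped nonZeroDivisors Pointwise

namespace Pool.Agent.VB

open Pool.Agent.RI Pool.Agent.MU3

namespace INJ

/-- the join does not depend on the base field -/
lemma ext_sup {L M M' : IntermediateField ℚ ℂ} (h : L ≤ M) (h' : L ≤ M') (hN : L ≤ M ⊔ M') :
    IntermediateField.extendScalars h ⊔ IntermediateField.extendScalars h' =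
      IntermediateField.extendScalars hN := by
  apply le_antisymm
  · refine sup_le ?_ ?_
    · intro x hx
      exact (le_sup_left : M ≤ M ⊔ M') hx
    · intro x hx
      exact (le_sup_right : M' ≤ M ⊔ M') hx
  · set A := IntermediateField.extendScalars h
    set B := IntermediateField.extendScalars h'
    have h1 : M ⊔ M' ≤ IntermediateField.restrictScalars ℚ (A ⊔ B) := by
      refine sup_le ?_ ?_
      · intro x hx
        exact (le_sup_left : A ≤ A ⊔ B) hx
      · intro x hx
        exact (le_sup_right : B ≤ A ⊔ B) hx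
    intro x hx
    exact h1 hx

/-- a ring automorphism of `M ⊔ M'` which is trivial on `M` and on `M'` is trivial -/
lemma triv {M M' : IntermediateField ℚ ℂ} (σ : ↥(M ⊔ M') →+* ↥(M ⊔ M'))
    (h1 : ∀ (x : ℂ) (hx : x ∈ M ⊔ M'), x ∈ M → σ ⟨x, hx⟩ = ⟨x, hx⟩)
    (h2 : ∀ (x : ℂ) (hx : x ∈ M ⊔ M'), x ∈ M' → σ ⟨x, hx⟩ = ⟨x, hx⟩) :
    ∀ x, σ x = x := by
  let E : IntermediateField ℚ ℂ :=
    { carrier := {x | ∃ hx : x ∈ M ⊔ M', σ ⟨x, hx⟩ = ⟨x, hx⟩}
      mul_mem' := by
        rintro a b ⟨ha, ha'⟩ ⟨hb, hb'⟩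
        refine ⟨mul_mem ha hb, ?_⟩
        have : (⟨a * b, mul_mem ha hb⟩ : ↥(M ⊔ M')) = ⟨a, ha⟩ * ⟨b, hb⟩ := rfl
        rw [this, map_mul, ha', hb']
      one_mem' := ⟨one_mem _, map_one σ⟩
      add_mem' := by
        rintro a b ⟨ha, ha'⟩ ⟨hb, hb'⟩
        refine ⟨add_mem ha hb, ?_⟩
        have : (⟨a + b, add_mem ha hb⟩ : ↥(M ⊔ M')) = ⟨a, ha⟩ + ⟨b, hb⟩ := rfl
        rw [this, map_add, ha', hb']
      zero_mem' := ⟨zero_mem _, map_zero σ⟩
      algebraMap_mem' := fun r => ⟨(M ⊔ M').algebraMap_mem r, by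
        have : (⟨algebraMap ℚ ℂ r, (M ⊔ M').algebraMap_mem r⟩ : ↥(M ⊔ M')) = ((r : ℚ) : ↥(M ⊔ M')) := by
          apply Subtype.ext
          simp
        rw [this, map_ratCast]⟩
      inv_mem' := by
        rintro a ⟨ha, ha'⟩
        refine ⟨inv_mem ha, ?_⟩
        have : (⟨a⁻¹, inv_mem ha⟩ : ↥(M ⊔ M')) = (⟨a, ha⟩)⁻¹ := rfl
        rw [this, map_inv₀, ha'] }
  have hE : M ⊔ M' ≤ E := by
    refine sup_le ?_ ?_
    · intro x hx
      exact ⟨(le_sup_left : M ≤ M ⊔ M') hx, h1 x _ hx⟩
    · intro x hx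
      exact ⟨(le_sup_right : M' ≤ M ⊔ M') hx, h2 x _ hx⟩
  intro x
  obtain ⟨hx, hx'⟩ := hE x.2
  exact hx'

end INJ

open INJ in
theorem tb_INJ (hINA : Sb_INA) (hUNR : Sb_UNR) (hNRM : Sb_NRM) (hCRD : Sb_CRD) : Sb_INJ := by
  intro p hp L M M' _ _ _ h h' nM nM' cM cM' uM uM' U S hU hS hS'
  by_contra hne
  have hN : L ≤ M ⊔ M' := h.trans le_sup_left
  have hMN : M ≤ M ⊔ M' := le_sup_left
  have hMN' : M' ≤ M ⊔ M' := le_sup_right
  have algM : Algebra.IsAlgebraic ℚ M := inferInstance
  have algM' : Algebra.IsAlgebraic ℚ M' := inferInstance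
  have : FiniteDimensional ℚ ↥(M ⊔ M') := IntermediateField.finiteDimensional_sup M M'
  have algN : Algebra.IsAlgebraic ℚ ↥(M ⊔ M') := inferInstance
  have nN : Nrm L (M ⊔ M') := nrm_sup nM nM'
  have gA : IsGalois L (IntermediateField.extendScalars h) := (hNRM L M algM h).2 nM
  have gB : IsGalois L (IntermediateField.extendScalars h') := (hNRM L M' algM' h').2 nM'
  have gN : IsGalois L (IntermediateField.extendScalars hN) := (hNRM L _ algN hN).2 nN
  have fA : Module.finrank L (IntermediateField.extendScalars h) = p :=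
    (hCRD L M h).2.2.1.trans cM
  have fB : Module.finrank L (IntermediateField.extendScalars h') = p :=
    (hCRD L M' h').2.2.1.trans cM'
  have hp0 : 0 < p := hp.out.pos
  have fdA : FiniteDimensional L (IntermediateField.extendScalars h) :=
    Module.finite_of_finrank_pos (by rw [fA]; exact hp0)
  have fdB : FiniteDimensional L (IntermediateField.extendScalars h') :=
    Module.finite_of_finrank_pos (by rw [fB]; exact hp0)
  have hAB : IntermediateField.extendScalars h ≠ IntermediateField.extendScalars h' := by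
    intro he
    apply hne
    apply SetLike.ext
    intro x
    have : x ∈ IntermediateField.extendScalars h ↔ x ∈ IntermediateField.extendScalars h' := by
      rw [he]
    exact this
  have hinf : IntermediateField.extendScalars h ⊓ IntermediateField.extendScalars h' = ⊥ := by
    set A := IntermediateField.extendScalars h
    set B := IntermediateField.extendScalars h'
    have h1 : Module.finrank L ↥(A ⊓ B) ∣ p := by
      rw [← fA]
      exact IntermediateField.finrank_dvd_of_le_right inf_le_left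
    rcases (Nat.dvd_prime hp.out).1 h1 with h2 | h2
    · exact IntermediateField.finrank_eq_one_iff.1 h2
    · exfalso
      have h3 : A ⊓ B = A := IntermediateField.eq_of_le_of_finrank_eq inf_le_left (by rw [h2, fA])
      have h4 : A ⊓ B = B := IntermediateField.eq_of_le_of_finrank_eq inf_le_right (by rw [h2, fB])
      exact hAB (h3.symm.trans h4)
  have fN : Module.finrank L (IntermediateField.extendScalars hN) = p ^ 2 := by
    rw [← ext_sup h h' hN]
    have hd := IntermediateField.LinearDisjoint.of_inf_eq_bot hinf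
    rw [hd.finrank_sup, fA, fB, sq]
  let a1 := algC h
  let a2 := algC h'
  let a3 := algC hN
  let a4 := algC hMN
  let a5 := algC hMN'
  have t1 : IsScalarTower L M ↥(M ⊔ M') := towerC h hMN
  have t2 : IsScalarTower L M' ↥(M ⊔ M') := towerC h' hMN'
  have g1 : IsGalois L M := (isGalois_algC h).2 gA
  have g2 : IsGalois L M' := (isGalois_algC h').2 gB
  have g3 : IsGalois L ↥(M ⊔ M') := (isGalois_algC hN).2 gN
  refine hINA L M M' ↥(M ⊔ M') p hp.out ?_ ((finrank_algC h).trans fA)
    ((finrank_algC h').trans fB) ((finrank_algC hN).trans fN) (hUNR L M h nM uM)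
    (hUNR L M' h' nM' uM') U S hU.ge hS hS'
  intro σ hσ hσ'
  apply AlgEquiv.ext
  exact triv (σ : ↥(M ⊔ M') →+* ↥(M ⊔ M')) (fun x hx hxM => hσ ⟨x, hxM⟩)
    (fun x hx hxM => hσ' ⟨x, hxM⟩)

end Pool.Agent.VB
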