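import Pool.Agent.VB.StVB
import Pool.Agent.MUX.U_AUE
import Pool.Agent.MUX.U_AUF
import Pool.Agent.MUX.U_AUT

/-!
# VB: when two Kummer extensions are equal (helper64)
-/

set_option autoImplicit false

namespace Pool.Agent.VB

open Pool.Agent.RI Pool.Agent.MU3

theorem tb_KFI : Sb_KFI := by
  intro p _ L _ hz x x' y y' hxL hx'L hy hy' hyL hy'L
  have hp : p.Prime := Fact.out
  obtain ⟨ζ, hζL, hζ⟩ := hz
  have alg : Algebra.IsAlgebraic ℚ L := inferInstance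
  have AUF : Pool.Agent.MUXU.Su_AUF :=
    Pool.Agent.MUXU.tu_AUF Pool.Agent.MUXU.tu_AUE Pool.Agent.MUXU.tu_AUT
  have h1 : ∃ σ : ℂ ≃+* ℂ, Fixes L σ ∧ σ y ≠ y := by
    by_contra hcon
    push Not at hcon
    exact hyL (AUF L alg y (fun σ hσ => hcon σ hσ))
  obtain ⟨σ, hσ, hσy⟩ := h1
  have hx0 : (x : ℂ) ≠ 0 := x.ne_zero
  have hx'0 : (x' : ℂ) ≠ 0 := x'.ne_zero
  have hy0 : y ≠ 0 := by
    rintro rfl
    rw [zero_pow hp.ne_zero] at hy
    exact hx0 hy.symm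
  have hy'0 : y' ≠ 0 := by
    rintro rfl
    rw [zero_pow hp.ne_zero] at hy'
    exact hx'0 hy'.symm
  have root : ∀ τ : ℂ ≃+* ℂ, Fixes L τ → ∀ z : ℂ, z ≠ 0 → z ^ p ∈ L → (τ z / z) ^ p = 1 := by
    intro τ hτ z hz0 hz
    rw [div_pow, ← map_pow, hτ _ hz, div_self (pow_ne_zero _ hz0)]
  obtain ⟨η, hηdef⟩ : ∃ η : ℂ, η = σ y / y := ⟨_, rfl⟩
  have hyp : y ^ p ∈ L := by rw [hy]; exact hxL
  have hy'p : y' ^ p ∈ L := by rw [hy']; exact hx'L
  have hηp : η ^ p = 1 := by rw [hηdef]; exact root σ hσ y hy0 hyp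
  have hη1 : η ≠ 1 := by
    rw [hηdef]
    intro h
    rw [div_eq_one_iff_eq hy0] at h
    exact hσy h
  have hσy2 : σ y = η * y := by rw [hηdef, div_mul_cancel₀ _ hy0]
  have hηprim : IsPrimitiveRoot η p := by
    have := IsPrimitiveRoot.orderOf η
    rwa [orderOf_eq_prime hηp hη1] at this
  have hp0 : NeZero p := ⟨hp.ne_zero⟩
  have hηL : η ∈ L := by
    obtain ⟨i, -, hi⟩ := hζ.eq_pow_of_pow_eq_one hηp
    rw [← hi]
    exact pow_mem hζL i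
  have tau : ∀ τ : ℂ ≃+* ℂ, Fixes L τ → ∀ z : ℂ, z ≠ 0 → z ^ p ∈ L →
      ∃ k < p, τ z = η ^ k * z := by
    intro τ hτ z hz0 hz
    obtain ⟨k, hk, hk'⟩ := hηprim.eq_pow_of_pow_eq_one (root τ hτ z hz0 hz)
    exact ⟨k, hk, by rw [hk', div_mul_cancel₀ _ hz0]⟩
  obtain ⟨j, hj, hσy'⟩ := tau σ hσ y' hy'0 hy'p
  have hη0 : η ≠ 0 := by
    rintro rfl
    rw [zero_pow hp.ne_zero] at hηp
    exact zero_ne_one hηp
  have hσt : σ (y' / y ^ j) = y' / y ^ j := by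
    rw [map_div₀, map_pow, hσy', hσy2, mul_pow, mul_div_mul_left _ _ (pow_ne_zero _ hη0)]
  have hσk : ∀ k : ℕ, (σ ^ k) y = η ^ k * y ∧ (σ ^ k) (y' / y ^ j) = y' / y ^ j := by
    intro k
    induction k with
    | zero => exact ⟨by simp, rfl⟩
    | succ k ih =>
      have e : ∀ z : ℂ, (σ ^ (k + 1)) z = (σ ^ k) (σ z) := fun z => by
        rw [pow_succ]
        rfl
      refine ⟨?_, ?_⟩
      · rw [e, hσy2, map_mul, fixes_pow hσ k η hηL, ih.1, pow_succ]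
        ring
      · rw [e, hσt]
        exact ih.2
  have htL : y' / y ^ j ∈ L := by
    refine AUF L alg _ (fun τ hτ => ?_)
    obtain ⟨k, -, hk⟩ := tau τ hτ y hy0 hyp
    have hf : Fixes (adj L y) (τ⁻¹ * σ ^ k) := by
      refine fixes_adj (fixes_mul (fixes_inv hτ) (fixes_pow hσ k)) ?_
      show τ.symm ((σ ^ k) y) = y
      rw [RingEquiv.symm_apply_eq, (hσk k).1, hk]
    have hft : (τ⁻¹ * σ ^ k) (y' / y ^ j) = y' / y ^ j :=
      hf _ (div_mem hy'L (pow_mem (mem_adj L y) j))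
    have hft2 : τ.symm ((σ ^ k) (y' / y ^ j)) = y' / y ^ j := hft
    rw [(hσk k).2, RingEquiv.symm_apply_eq] at hft2
    exact hft2.symm
  refine ⟨j, hj, Units.mk0 (y' / y ^ j) (div_ne_zero hy'0 (pow_ne_zero _ hy0)), htL, ?_⟩
  apply Units.ext
  rw [Units.val_pow_eq_pow_val, Units.val_mk0, Units.val_div_eq_div_val, Units.val_pow_eq_pow_val,
    div_pow, hy', ← pow_mul, mul_comm j p, pow_mul, hy]

end Pool.Agent.VB
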