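import Pool.Agent.VB.StVB

/-!
# VB: (KUF) Galois extensions of degree `p` are Kummer extensions
-/

set_option autoImplicit false

open NumberField IntermediateField

namespace Pool.Agent.VB

theorem tb_KUF : Sb_KUF := by
  intro p hp E M h hζ hG hd
  haveI := hG
  have hpos : 0 < Module.finrank E (IntermediateField.extendScalars h) := by
    rw [hd]; exact hp.out.pos
  haveI : FiniteDimensional E (IntermediateField.extendScalars h) :=
    FiniteDimensional.of_finrank_pos hpos
  have hK : (primitiveRoots (Module.finrank E (IntermediateField.extendScalars h)) E).Nonempty := by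
    obtain ⟨ζ, hζE, hζ⟩ := hζ
    refine ⟨⟨ζ, hζE⟩, ?_⟩
    rw [mem_primitiveRoots hpos, hd]
    exact IsPrimitiveRoot.of_map_of_injective (f := E.val) hζ E.val.injective
  have hc : Nat.card (IntermediateField.extendScalars h ≃ₐ[E] IntermediateField.extendScalars h)
      = p := by
    rw [IsGalois.card_aut_eq_finrank, hd]
  haveI : IsCyclic (IntermediateField.extendScalars h ≃ₐ[E] IntermediateField.extendScalars h) :=
    isCyclic_of_prime_card hc
  obtain ⟨α, ⟨b, hb⟩, htop⟩ := exists_root_adjoin_eq_top_of_isCyclic E
    (IntermediateField.extendScalars h) hK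
  rw [hd] at hb
  have hαM : (α : ℂ) ∈ M := α.2
  refine ⟨(α : ℂ), ?_, ?_, ?_⟩
  · have h1 : ((α ^ p : IntermediateField.extendScalars h) : ℂ) = (b : ℂ) := by
      rw [← hb]; rfl
    have h2 : (α : ℂ) ^ p = (b : ℂ) := by
      rw [← h1]; rfl
    rw [h2]
    exact b.2
  · intro hE
    have h1 : α ∈ (⊥ : IntermediateField E (IntermediateField.extendScalars h)) :=
      IntermediateField.mem_bot.2 ⟨⟨(α : ℂ), hE⟩, rfl⟩
    have h2 : (⊤ : IntermediateField E (IntermediateField.extendScalars h)) = ⊥ := by
      rw [← htop, IntermediateField.adjoin_simple_eq_bot_iff]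
      exact h1
    have h3 : Module.finrank E (⊤ : IntermediateField E (IntermediateField.extendScalars h)) = 1 := by
      rw [h2]; exact IntermediateField.finrank_bot
    rw [IntermediateField.finrank_top'] at h3
    rw [hd] at h3
    exact hp.out.one_lt.ne' h3
  · apply le_antisymm
    · intro x hx
      have hx' : (⟨x, hx⟩ : IntermediateField.extendScalars h) ∈
          (E⟮α⟯ : IntermediateField E (IntermediateField.extendScalars h)) := by
        rw [htop]; exact IntermediateField.mem_top
      have key : ∀ z : IntermediateField.extendScalars h,
          z ∈ (E⟮α⟯ : IntermediateField E (IntermediateField.extendScalars h)) →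
          (z : ℂ) ∈ adj E (α : ℂ) := by
        intro z hz
        induction hz using IntermediateField.adjoin_induction with
        | mem a ha =>
          rw [Set.mem_singleton_iff] at ha
          rw [ha]
          exact mem_adj E _
        | algebraMap a => exact le_adj E _ a.2
        | add a b _ _ ha hb => exact add_mem ha hb
        | inv a _ ha => exact inv_mem ha
        | mul a b _ _ ha hb => exact mul_mem ha hb
      exact key _ hx'
    · exact adj_le h hαM

end Pool.Agent.VB
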