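import Pool.Agent.VB.StVB

set_option autoImplicit false

namespace Pool.Agent.VB

namespace LIMa

/-- membership in the union of a monotone sequence of fields -/
lemma mem_iSup_mono {A : ℕ → IntermediateField ℚ ℂ} (hA : Monotone A) {x : ℂ} :
    x ∈ (⨆ n, A n) ↔ ∃ n, x ∈ A n := by
  have h := IntermediateField.coe_iSup_of_directed (t := A) (hA.directed_le)
  constructor
  · intro hx
    have hx' : x ∈ ((⨆ n, A n : IntermediateField ℚ ℂ) : Set ℂ) := hx
    rw [h] at hx'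
    simpa using hx'
  · rintro ⟨n, hn⟩
    exact (le_iSup A n) hn

lemma mono_sup {B : ℕ → IntermediateField ℚ ℂ} (hB : Monotone B) (F : IntermediateField ℚ ℂ) :
    Monotone fun n => F ⊔ B n := fun _ _ h => sup_le_sup_left (hB h) F

lemma mono_adj {A : ℕ → IntermediateField ℚ ℂ} (hA : Monotone A) (y : ℂ) :
    Monotone fun n => adj (A n) y := fun _ _ h => sup_le_sup_right (hA h) _

lemma finf_le (F : IntermediateField ℚ ℂ) (B : ℕ → IntermediateField ℚ ℂ) :
    Finf F B ≤ ⨆ n, F ⊔ B n :=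
  sup_le (le_trans le_sup_left (le_iSup (fun n => F ⊔ B n) 0))
    (iSup_le fun n => le_trans le_sup_right (le_iSup (fun n => F ⊔ B n) n))

lemma adj_finf_le (F : IntermediateField ℚ ℂ) (B : ℕ → IntermediateField ℚ ℂ) (y : ℂ) :
    adj (Finf F B) y ≤ ⨆ n, adj (F ⊔ B n) y := by
  refine adj_le (le_trans (finf_le F B) (iSup_mono fun n => le_adj _ y)) ?_
  exact (le_iSup (fun n => adj (F ⊔ B n) y) 0) (mem_adj _ y)

end LIMa

open LIMa in
theorem tb_LIM : Sb_LIM := by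
  intro F B hB
  have h1 : ∀ x ∈ Finf F B, ∃ n : ℕ, x ∈ F ⊔ B n := fun x hx =>
    (mem_iSup_mono (mono_sup hB F)).1 (finf_le F B hx)
  refine ⟨h1, fun y x hx => (mem_iSup_mono (mono_adj (mono_sup hB F) y)).1
    (adj_finf_le F B y hx), ?_⟩
  intro hfd
  refine ⟨fun x => ?_⟩
  obtain ⟨n, hn⟩ := h1 x.1 x.2
  haveI := hfd n
  have h2 : IsIntegral ℚ (⟨x.1, hn⟩ : ↥(F ⊔ B n)) := IsIntegral.of_finite ℚ _
  have h3 : IsIntegral ℚ (x.1 : ℂ) := h2.map (F ⊔ B n).val
  have h4 : IsAlgebraic ℚ (x.1 : ℂ) := h3.isAlgebraic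
  exact (isAlgebraic_algHom_iff (Finf F B).val (Finf F B).val.injective).1 h4

end Pool.Agent.VB
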