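import Pool.Agent.VB.V_CIR

/-!
# (MUL): the orders of the inertia groups are multiplicative (helper11)
-/

set_option autoImplicit false

open NumberField IsDedekindDomain
open scoped nonZeroDivisors Pointwise

namespace Pool.Agent.VB

open Pool.Agent.RI

noncomputable section

namespace MULx

open CIRx

/-- the ring homomorphism from the integers of `M` to `V` -/
def toV (V : ValuationSubring ℂ) (M : IntermediateField ℚ ℂ) : 𝓞 M →+* V where
  toFun x := ⟨((x : M) : ℂ), int_mem V (int_coe x)⟩
  map_one' := Subtype.ext (by simp)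
  map_mul' a b := Subtype.ext (by simp)
  map_zero' := Subtype.ext (by simp)
  map_add' a b := Subtype.ext (by simp)

/-- the ideal of the integers in the nonunits of `V` -/
def PV (V : ValuationSubring ℂ) (M : IntermediateField ℚ ℂ) : Ideal (𝓞 M) :=
  (IsLocalRing.maximalIdeal V).comap (toV V M)

theorem mem_PV (V : ValuationSubring ℂ) (M : IntermediateField ℚ ℂ) (x : 𝓞 M) :
    x ∈ PV V M ↔ ((x : M) : ℂ) ∈ V.nonunits := by
  unfold PV
  rw [Ideal.mem_comap]
  exact (ValuationSubring.coe_mem_nonunits_iff (a := toV V M x)).symm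

instance (V : ValuationSubring ℂ) (M : IntermediateField ℚ ℂ) : (PV V M).IsPrime := by
  unfold PV
  infer_instance

end MULx

open MULx CIRx

theorem tb_MUL (hCRD : Sb_CRD) (hCIR : Sb_CIR) : Sb_MUL := by
  intro V L M' M _ hLM' hM'M hN' hN
  have hLM : L ≤ M := hLM'.trans hM'M
  have hN'' : Nrm M' M := nrm_mono hLM' hN
  have hfdM' : FiniteDimensional ℚ M' :=
    FiniteDimensional.of_injective (IntermediateField.inclusion hM'M).toLinearMap
      (IntermediateField.inclusion hM'M).injective
  have hfdL : FiniteDimensional ℚ L :=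
    FiniteDimensional.of_injective (IntermediateField.inclusion hLM).toLinearMap
      (IntermediateField.inclusion hLM).injective
  have hNL : NumberField L := NumberField.mk
  have hNM' : NumberField M' := NumberField.mk
  have hNM : NumberField M := NumberField.mk
  obtain ⟨-, -, -, -, c1⟩ := hCRD L M hLM
  obtain ⟨-, -, -, -, c2⟩ := hCRD M' M hM'M
  obtain ⟨-, -, -, -, c3⟩ := hCRD L M' hLM'
  have key : cI V L M = cI V M' M * cI V L M' := by
    by_cases hP : PV V M = ⊥
    · -- `M` is contained in `V` and has no nonzero nonunits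
      have hint : ∀ x : 𝓞 M, ((x : M) : ℂ) ∈ V.nonunits → x = 0 := by
        intro x hx
        have : x ∈ PV V M := (mem_PV V M x).2 hx
        rw [hP] at this
        exact (Submodule.mem_bot _).1 this
      have hunit : ∀ x : 𝓞 M, x ≠ 0 → (((x : M) : ℂ))⁻¹ ∈ V := by
        intro x hx
        have h1 : ((x : M) : ℂ) ∉ V.nonunits := fun h => hx (hint x h)
        rw [ValuationSubring.mem_nonunits_iff, not_lt] at h1
        have h2 : V.valuation ((x : M) : ℂ) ≤ 1 :=
          (V.valuation_le_one_iff _).2 (int_mem V (int_coe x))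
        have h3 : V.valuation ((x : M) : ℂ) = 1 := le_antisymm h2 h1
        rw [← V.valuation_le_one_iff, map_inv₀, h3, inv_one]
      have hMV : ∀ x ∈ M, x ∈ V := by
        intro x hx
        obtain ⟨s, t, ht, hst⟩ := IsFractionRing.div_surjective (A := 𝓞 M) (⟨x, hx⟩ : M)
        have ht0 : t ≠ 0 := nonZeroDivisors.ne_zero ht
        have h1 : x = ((s : M) : ℂ) * (((t : M) : ℂ))⁻¹ := by
          have h2 := congrArg (Subtype.val : M → ℂ) hst
          rw [← div_eq_mul_inv]
          exact h2.symm
        rw [h1]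
        exact V.mul_mem _ _ (int_mem V (int_coe s)) (hunit t ht0)
      have hzero : ∀ x ∈ M, x ∈ V.nonunits → x = 0 := by
        intro x hx hxn
        by_contra h0
        have h1 : x⁻¹ ∈ V := hMV _ (M.inv_mem hx)
        have h2 := nonunits_mul h1 hxn
        rw [inv_mul_cancel₀ h0, ValuationSubring.mem_nonunits_iff, map_one] at h2
        exact lt_irrefl _ h2
      have hti : ∀ (K K' : IntermediateField ℚ ℂ), K' ≤ M → Nrm K K' → TI V K K' := by
        intro K K' hK' hNK σ hσ hI x hx
        have h1 := hI x hx (hMV x (hK' hx))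
        have h2 := hzero _ (hK' (K'.sub_mem (hNK σ hσ x hx) hx)) h1
        exact sub_eq_zero.1 h2
      rw [(c1 V).2.2.1.2 (hti L M le_rfl hN), (c2 V).2.2.1.2 (hti M' M le_rfl hN''),
        (c3 V).2.2.1.2 (hti L M' hM'M hN')]
    · have hP' : PV V M' ≠ ⊥ := by
        intro h0
        -- the integer `absNorm P` is in `P`
        have h1 : Ideal.absNorm (PV V M) ≠ 0 := by
          rw [Ne, Ideal.absNorm_eq_zero_iff]
          exact hP
        have h2 : ((Ideal.absNorm (PV V M) : ℕ) : 𝓞 M) ∈ PV V M := Ideal.absNorm_mem _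
        rw [mem_PV] at h2
        have h3 : ((Ideal.absNorm (PV V M) : ℕ) : 𝓞 M') ∈ PV V M' := by
          rw [mem_PV]
          simpa using h2
        rw [h0, Submodule.mem_bot] at h3
        exact h1 (by exact_mod_cast h3)
      let P : HeightOneSpectrum (𝓞 M) := ⟨PV V M, inferInstance, hP⟩
      let P' : HeightOneSpectrum (𝓞 M') := ⟨PV V M', inferInstance, hP'⟩
      have e1 := hCIR V L M hLM hN P (fun x => mem_PV V M x)
      have e2 := hCIR V M' M hM'M hN'' P (fun x => mem_PV V M x)
      have e3 := hCIR V L M' hLM' hN' P' (fun x => mem_PV V M' x)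
      let a1 := algC hLM'
      let a2 := algC hM'M
      let a3 := algC hLM
      have tw : IsScalarTower L M' M := towerC hLM' hM'M
      have hlo : P.asIdeal.LiesOver P'.asIdeal := by
        constructor
        ext x
        show x ∈ PV V M' ↔ algebraMap (𝓞 M') (𝓞 M) x ∈ PV V M
        rw [mem_PV, mem_PV]
        rfl
      have hflat : Module.Flat (𝓞 M') (𝓞 M) := inferInstance
      have h4 := Ideal.ramificationIdx_tower (R := 𝓞 L) P'.asIdeal P.asIdeal
      rw [e1, e2, e3, h4, mul_comm]
  refine ⟨key, fun hti => ?_⟩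
  have h1 := (c1 V).2.2.1.2 hti
  rw [h1] at key
  have h2 : cI V L M' = 1 := Nat.eq_one_of_mul_eq_one_left key.symm
  exact (c3 V).2.2.1.1 h2

end

end Pool.Agent.VB
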