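import Pool.Agent.VB.StVB
import Pool.Agent.MUX.UAll

set_option autoImplicit false

namespace Pool.Agent.VB

namespace NRMa

open Polynomial IntermediateField

/-- elements of an algebraic subfield are algebraic numbers -/
lemma alg_Q {M : IntermediateField ℚ ℂ} (hM : Algebra.IsAlgebraic ℚ M) {x : ℂ} (hx : x ∈ M) :
    IsAlgebraic ℚ x := by
  obtain ⟨p, hp, hpx⟩ := hM.isAlgebraic (⟨x, hx⟩ : M)
  refine ⟨p, hp, ?_⟩
  have h1 := congrArg (algebraMap M ℂ) hpx
  rw [Polynomial.aeval_def, Polynomial.hom_eval₂, map_zero] at h1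
  rw [Polynomial.aeval_def]
  have h2 : (algebraMap M ℂ).comp (algebraMap ℚ M) = algebraMap ℚ ℂ := Subsingleton.elim _ _
  rw [h2] at h1
  exact h1

/-- a subextension of an algebraic extension (as sets) is algebraic -/
lemma alg_of_le {M F : IntermediateField ℚ ℂ} (hM : Algebra.IsAlgebraic ℚ M) (h : F ≤ M) :
    Algebra.IsAlgebraic ℚ F := by
  refine ⟨fun y => ?_⟩
  obtain ⟨p, hp, hpx⟩ := alg_Q hM (h y.2)
  refine ⟨p, hp, ?_⟩
  apply (algebraMap F ℂ).injective
  rw [Polynomial.aeval_def, Polynomial.hom_eval₂, map_zero]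
  rw [Polynomial.aeval_def] at hpx
  have h2 : (algebraMap F ℂ).comp (algebraMap ℚ F) = algebraMap ℚ ℂ := Subsingleton.elim _ _
  rw [h2]
  exact hpx

/-- an element of `M` is algebraic over `L` -/
lemma alg_elt {M : IntermediateField ℚ ℂ} (hM : Algebra.IsAlgebraic ℚ M)
    (L : IntermediateField ℚ ℂ) {x : ℂ} (hx : x ∈ M) : IsAlgebraic L x :=
  IsAlgebraic.tower_top (K := ℚ) L (alg_Q hM hx)

/-- conjugates come from automorphisms -/
lemma conj_aut {L M : IntermediateField ℚ ℂ} (hM : Algebra.IsAlgebraic ℚ M) (h : L ≤ M)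
    {x z : ℂ} (hx : x ∈ M) (hz : z ∈ (minpoly L x).rootSet ℂ) :
    ∃ σ : ℂ ≃+* ℂ, Fixes L σ ∧ σ x = z := by
  have hint : IsIntegral L x := (alg_elt hM L hx).isIntegral
  have hz' : z ∈ (minpoly L x).aroots ℂ := by
    rw [Polynomial.rootSet_def] at hz
    exact Multiset.mem_toFinset.1 (by simpa using hz)
  let f : L⟮x⟯ →ₐ[L] ℂ := (IntermediateField.algHomAdjoinIntegralEquiv L hint).symm ⟨z, hz'⟩
  have hf : f (IntermediateField.AdjoinSimple.gen L x) = z :=
    IntermediateField.algHomAdjoinIntegralEquiv_symm_apply_gen L hint ⟨z, hz'⟩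
  let F : IntermediateField ℚ ℂ := IntermediateField.restrictScalars ℚ L⟮x⟯
  have hFM : F ≤ M := by
    intro y hy
    have h1 : L⟮x⟯ ≤ IntermediateField.extendScalars h := by
      rw [IntermediateField.adjoin_le_iff]
      intro t ht
      rw [Set.mem_singleton_iff] at ht
      subst ht
      exact hx
    exact h1 hy
  obtain ⟨σ, hσ⟩ := Pool.Agent.MUXU.u_AUE F (alg_of_le hM hFM) (f : L⟮x⟯ →+* ℂ)
  refine ⟨σ, fun y hy => ?_, ?_⟩
  · have h1 := hσ (⟨y, (algebraMap L L⟮x⟯ ⟨y, hy⟩).2⟩ : L⟮x⟯)
    have h2 : f (algebraMap L L⟮x⟯ ⟨y, hy⟩) = y := f.commutes _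
    exact h1.trans h2
  · have h1 := hσ (IntermediateField.AdjoinSimple.gen L x)
    exact h1.trans hf

end NRMa

open NRMa in
theorem tb_NRM : Sb_NRM := by
  intro L M hM h
  constructor
  · intro hG σ hσ x hx
    have : Normal L (IntermediateField.extendScalars h) := hG.to_normal
    let f : (IntermediateField.extendScalars h) →ₐ[L] ℂ :=
      { toRingHom := (σ : ℂ →+* ℂ).comp (algebraMap (IntermediateField.extendScalars h) ℂ)
        commutes' := fun r => hσ r r.2 }
    have hr : f.fieldRange = IntermediateField.extendScalars h := AlgHom.fieldRange_of_normal f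
    have h1 : f ⟨x, hx⟩ ∈ f.fieldRange := ⟨⟨x, hx⟩, rfl⟩
    rw [hr] at h1
    exact h1
  · intro hN
    have halg : Algebra.IsAlgebraic L (IntermediateField.extendScalars h) := by
      refine ⟨fun y => ?_⟩
      rw [IntermediateField.isAlgebraic_iff]
      exact alg_elt hM L (show (y : ℂ) ∈ M from y.2)
    have hnor : Normal L (IntermediateField.extendScalars h) := by
      refine { toIsAlgebraic := halg, splits' := fun x => ?_ }
      have hmp : minpoly L x = minpoly L (x : ℂ) := by
        have := minpoly.algebraMap_eq (A := L)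
          (algebraMap (IntermediateField.extendScalars h) ℂ).injective x
        exact this.symm
      refine IntermediateField.splits_of_splits (IsAlgClosed.splits _) ?_
      intro z hz
      rw [hmp] at hz
      obtain ⟨σ, hσ, hσx⟩ := conj_aut hM h (show (x : ℂ) ∈ M from x.2) hz
      have h1 := hN σ hσ x x.2
      rw [hσx] at h1
      exact h1
    have := halg
    have : Algebra.IsSeparable L (IntermediateField.extendScalars h) := inferInstance
    exact isGalois_iff.2 ⟨inferInstance, hnor⟩

end Pool.Agent.VB
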