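import Pool.Agent.VB.StVB
import Pool.Agent.VB.V_LIM

/-!
# VB, module RED (helper85): from `F'` to `F ≤ F'`
-/

set_option autoImplicit false

open IntermediateField

namespace Pool.Agent.VB

open Pool.Agent.RI

namespace REDa

/-- `F'_∞ / F_∞` is finite -/
lemma fd_ext (F F' : IntermediateField ℚ ℂ) [FiniteDimensional ℚ F']
    (B : ℕ → IntermediateField ℚ ℂ) (h : Finf F B ≤ Finf F' B) :
    FiniteDimensional (Finf F B) (extendScalars h) := by
  obtain ⟨α, hα⟩ := Field.exists_primitive_element ℚ F'
  have h1 : IsIntegral ℚ (α : ℂ) := (IsIntegral.of_finite ℚ α).map F'.val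
  have hint : IsIntegral (Finf F B) (α : ℂ) := h1.tower_top
  haveI : FiniteDimensional (Finf F B) (Finf F B)⟮(α : ℂ)⟯ := adjoin.finiteDimensional hint
  have hle : extendScalars h ≤ (Finf F B)⟮(α : ℂ)⟯ := by
    rw [extendScalars_le_iff]
    have hE : Finf F B ≤ ((Finf F B)⟮(α : ℂ)⟯).restrictScalars ℚ := fun x hx =>
      ((Finf F B)⟮(α : ℂ)⟯).algebraMap_mem ⟨x, hx⟩
    refine sup_le ?_ (le_trans le_sup_right hE)
    intro x hx
    have h2 : (⟨x, hx⟩ : F') ∈ ℚ⟮α⟯ := by rw [hα]; trivial
    have h3 : ℚ⟮α⟯ ≤ (((Finf F B)⟮(α : ℂ)⟯).restrictScalars ℚ).comap F'.val := by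
      rw [adjoin_le_iff, Set.singleton_subset_iff]
      exact mem_adjoin_simple_self (Finf F B) (α : ℂ)
    exact h3 h2
  exact FiniteDimensional.of_injective (inclusion hle).toLinearMap (inclusion hle).injective

lemma tower {E D M : IntermediateField ℚ ℂ} (h : E ≤ D) (h' : D ≤ M) :
    Module.finrank E (extendScalars h) * Module.finrank D (extendScalars h') =
      Module.finrank E (extendScalars (h.trans h')) := by
  letI := algC h
  letI := algC h'
  letI := algC (h.trans h')
  haveI := towerC h h'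
  rw [← finrank_algC h, ← finrank_algC h', ← finrank_algC (h.trans h')]
  exact Module.finrank_mul_finrank E D M

lemma deg_sup {E E' M : IntermediateField ℚ ℂ} (h : E ≤ M) (h' : E ≤ E')
    [FiniteDimensional E (extendScalars h')] [IsGalois E (extendScalars h)]
    [FiniteDimensional E (extendScalars h)] (hinf : E' ⊓ M ≤ E) :
    Module.finrank E' (extendScalars (le_sup_left : E' ≤ E' ⊔ M)) =
      Module.finrank E (extendScalars h) := by
  have h1 : extendScalars h ⊓ extendScalars h' = ⊥ := by
    rw [eq_bot_iff]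
    intro x hx
    rw [mem_inf] at hx
    rw [mem_bot]
    exact ⟨⟨x, hinf ⟨hx.2, hx.1⟩⟩, rfl⟩
  have h2 := (LinearDisjoint.of_inf_eq_bot h1).finrank_sup
  rw [sup_comm, extendScalars_sup] at h2
  have h3 := tower h' (le_sup_left : E' ≤ E' ⊔ M)
  rw [h2, mul_comm (Module.finrank E (extendScalars h))] at h3
  exact Nat.eq_of_mul_eq_mul_left Module.finrank_pos h3

lemma alg_of_fd {E M : IntermediateField ℚ ℂ} (hE : Algebra.IsAlgebraic ℚ E) (h : E ≤ M)
    [FiniteDimensional E (extendScalars h)] : Algebra.IsAlgebraic ℚ M := by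
  refine ⟨fun x => ?_⟩
  have h1 : IsAlgebraic E (⟨x.1, x.2⟩ : extendScalars h) := Algebra.IsAlgebraic.isAlgebraic _
  have h2 : IsAlgebraic E (x.1 : ℂ) := h1.algHom (extendScalars h).val
  have h3 : IsAlgebraic ℚ (x.1 : ℂ) := IsAlgebraic.restrictScalars ℚ h2
  exact (isAlgebraic_algHom_iff M.val M.val.injective).1 h3

/-- finitely many intermediate fields -/
lemma fin_between {E N : IntermediateField ℚ ℂ} (h : E ≤ N)
    [FiniteDimensional E (extendScalars h)] : {M | E ≤ M ∧ M ≤ N}.Finite := by
  haveI : Finite (IntermediateField E (extendScalars h)) :=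
    Field.finite_intermediateField_of_exists_primitive_element E (extendScalars h)
      (Field.exists_primitive_element E (extendScalars h))
  have : Set.Finite (Set.range fun K : IntermediateField E (extendScalars h) =>
      ((lift K).restrictScalars ℚ : IntermediateField ℚ ℂ)) := Set.finite_range _
  refine this.subset ?_
  rintro M ⟨h1, h2⟩
  refine ⟨restrict (show extendScalars h1 ≤ extendScalars h from h2), ?_⟩
  show (lift (restrict _)).restrictScalars ℚ = M
  rw [lift_restrict]
  rfl

end REDa

open REDa in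
theorem tb_RED (hN : Sb_NRM) : Sb_RED := by
  intro p _ F F' _ B hB hmono hFF hfin
  have hp : p.Prime := Fact.out
  have hEE : Finf F B ≤ Finf F' B := sup_le_sup_right hFF _
  haveI hfd := fd_ext F F' B hEE
  have hfdF' : ∀ n, FiniteDimensional ℚ ↥(F' ⊔ B n) := fun n => by
    haveI := hB n
    infer_instance
  have halg' : Algebra.IsAlgebraic ℚ (Finf F' B) := (tb_LIM F' B hmono).2.2 hfdF'
  have halg : Algebra.IsAlgebraic ℚ (Finf F B) := by
    refine ⟨fun x => ?_⟩
    have h1 : IsAlgebraic ℚ (⟨x.1, hEE x.2⟩ : Finf F' B) := halg'.isAlgebraic _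
    have h2 : IsAlgebraic ℚ (x.1 : ℂ) := h1.algHom (Finf F' B).val
    exact (isAlgebraic_algHom_iff (Finf F B).val (Finf F B).val.injective).1 h2
  set E := Finf F B with hEdef
  set E' := Finf F' B with hE'def
  have key : ∀ M ∈ UM p E, E' ⊔ M ∈ insert E' (UM p E') := by
    rintro M ⟨h, hg, hdeg, hunr⟩
    haveI := hg
    haveI : FiniteDimensional E (extendScalars h) :=
      FiniteDimensional.of_finrank_pos (by rw [hdeg]; exact hp.pos)
    have halgM := alg_of_fd halg h
    have hnrm : Nrm E M := (hN E M halgM h).1 hg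
    by_cases hle : M ≤ E'
    · left
      exact sup_eq_left.2 hle
    · right
      have hinf : E' ⊓ M ≤ E := by
        have h1 : E ≤ E' ⊓ M := le_inf hEE h
        have h2 : E' ⊓ M ≤ M := inf_le_right
        have h3 := tower h1 h2
        rw [hdeg] at h3
        have h4 : Module.finrank E (extendScalars h1) ∣ p := ⟨_, h3.symm⟩
        rcases (Nat.dvd_prime hp).1 h4 with h5 | h5
        · have h6 : extendScalars h1 = ⊥ := finrank_eq_one_iff.1 h5
          intro x hx
          have h7 : x ∈ extendScalars h1 := hx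
          rw [h6, mem_bot] at h7
          obtain ⟨y, rfl⟩ := h7
          exact y.2
        · exfalso
          have h6 : extendScalars h1 = extendScalars h :=
            eq_of_le_of_finrank_eq (fun x hx => hx.2) (by rw [h5, hdeg])
          apply hle
          intro x hx
          have h7 : x ∈ extendScalars h1 := by rw [h6]; exact hx
          exact h7.1
      have hd := deg_sup h hEE hinf
      haveI : FiniteDimensional E' (extendScalars (le_sup_left : E' ≤ E' ⊔ M)) :=
        FiniteDimensional.of_finrank_pos (by rw [hd, hdeg]; exact hp.pos)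
      refine ⟨le_sup_left, ?_, by rw [hd, hdeg], fun V => ti_base (hunr V) hEE⟩
      exact (hN E' (E' ⊔ M) (alg_of_fd halg' le_sup_left) le_sup_left).2
        (nrm_sup (nrm_self E') (nrm_mono hEE hnrm))
  have hcov : UM p E ⊆ ⋃ N ∈ insert E' (UM p E'), {M | M ∈ UM p E ∧ E' ⊔ M = N} := by
    intro M hM
    simp only [Set.mem_iUnion]
    exact ⟨E' ⊔ M, key M hM, hM, rfl⟩
  refine (Set.Finite.biUnion (hfin.insert E') ?_).subset hcov
  intro N _
  by_cases hne : ∃ M₀, M₀ ∈ UM p E ∧ E' ⊔ M₀ = N
  · obtain ⟨M₀, ⟨h, hg, hdeg, -⟩, rfl⟩ := hne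
    haveI : FiniteDimensional E (extendScalars h) :=
      FiniteDimensional.of_finrank_pos (by rw [hdeg]; exact hp.pos)
    haveI : FiniteDimensional E (extendScalars (le_sup_of_le_left hEE : E ≤ E' ⊔ M₀)) := by
      rw [← extendScalars_sup hEE h]
      infer_instance
    refine (fin_between (le_sup_of_le_left hEE : E ≤ E' ⊔ M₀)).subset ?_
    rintro M ⟨⟨h1, -, -, -⟩, h2⟩
    exact ⟨h1, h2 ▸ le_sup_right⟩
  · convert Set.finite_empty
    ext M
    constructor
    · intro hM
      exact hne ⟨M, hM⟩
    · intro hM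
      exact hM.elim

end Pool.Agent.VB
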