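import Pool.Agent.VB.StVB
import Mathlib.NumberTheory.RamificationInertia.Valuation

/-!
# VB: module SPN (helper80)

Primes which split completely in `M` and `M'` split completely in `N = M M'`.
-/

set_option autoImplicit false

open NumberField IsDedekindDomain
open scoped nonZeroDivisors Pointwise

namespace Pool.Agent.VB

open Pool.Agent.MU3

namespace SPN

/-- residue fields are perfect -/
lemma perf {L : Type} [Field L] [NumberField L] (v : HeightOneSpectrum (𝓞 L)) :
    PerfectField v.asIdeal.ResidueField := by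
  have := v.isMaximal
  have := v.isPrime
  have : Finite (𝓞 L ⧸ v.asIdeal) := Ideal.finiteQuotientOfFreeOfNeBot v.asIdeal v.ne_bot
  have : Finite v.asIdeal.ResidueField :=
    Finite.of_surjective (algebraMap (𝓞 L ⧸ v.asIdeal) v.asIdeal.ResidueField)
      (Ideal.bijective_algebraMap_quotient_residueField v.asIdeal).2
  infer_instance

lemma one_lt_absNorm {L : Type} [Field L] [NumberField L] (v : HeightOneSpectrum (𝓞 L)) :
    1 < Ideal.absNorm v.asIdeal := by
  have h1 : Ideal.absNorm v.asIdeal ≠ 0 := by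
    rw [Ne, Ideal.absNorm_eq_zero_iff]
    exact v.ne_bot
  have h2 : Ideal.absNorm v.asIdeal ≠ 1 := by
    rw [Ne, Ideal.absNorm_eq_one_iff]
    exact v.isPrime.ne_top
  omega

/-- the ramification index is one -/
lemma ram_one {L M : Type} [Field L] [NumberField L] [Field M] [NumberField M] [Algebra L M]
    (v : HeightOneSpectrum (𝓞 L)) (hU : Pool.Agent.HB.Unr L M v) (w : HeightOneSpectrum (𝓞 M))
    (hw : Pool.Agent.HB.Lies L M v w) : w.asIdeal.ramificationIdx (𝓞 L) = 1 := by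
  have hl : w.asIdeal.LiesOver v.asIdeal := ⟨hw.symm⟩
  have hp := w.isPrime
  rw [← Ideal.ramificationIdx'_eq_ramificationIdx v.asIdeal w.asIdeal v.ne_bot]
  obtain ⟨π, hπ⟩ := v.valuation_exists_uniformizer L
  have hπ0 : π ≠ 0 := by
    rintro rfl
    rw [map_zero] at hπ
    exact WithZero.coe_ne_zero hπ.symm
  have h1 := HeightOneSpectrum.valuation_liesOver (K := L) M v w π
  have h2 := hU w hw (Units.mk0 π hπ0)
  have h3 : Pool.Agent.HB.ord v (Units.mk0 π hπ0) = 1 := by
    unfold Pool.Agent.HB.ord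
    rw [Units.val_mk0, hπ, WithZero.log_exp, neg_neg]
  have h4 : Pool.Agent.HB.ord w (Pool.Agent.HB.iu L M (Units.mk0 π hπ0)) =
      (v.asIdeal.ramificationIdx' w.asIdeal : ℤ) := by
    unfold Pool.Agent.HB.ord
    have h5 : ((Pool.Agent.HB.iu L M (Units.mk0 π hπ0) : Mˣ) : M) = algebraMap L M π := rfl
    rw [h5, ← h1, hπ, WithZero.log_pow, WithZero.log_exp, nsmul_eq_mul]
    ring
  rw [h4, h3] at h2
  exact_mod_cast h2

/-- the stabilizer of a prime above a completely split prime is trivial -/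
lemma stab_one {L M : Type} [Field L] [NumberField L] [Field M] [NumberField M] [Algebra L M]
    [IsGalois L M] (v : HeightOneSpectrum (𝓞 L)) (hU : Pool.Agent.HB.Unr L M v)
    (hD : Pool.Agent.HB.Deg1 L M v) (w : HeightOneSpectrum (𝓞 M))
    (hw : Pool.Agent.HB.Lies L M v w) (τ : M ≃ₐ[L] M) (hτ : τ • w.asIdeal = w.asIdeal) :
    τ = 1 := by
  have hl : w.asIdeal.LiesOver v.asIdeal := ⟨hw.symm⟩
  have hp := w.isPrime
  have hv := v.isPrime
  have := perf v
  obtain ⟨w0, hw0, hn⟩ := hD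
  have hl0 : w0.asIdeal.LiesOver v.asIdeal := ⟨hw0.symm⟩
  have hp0 := w0.isPrime
  have hc := Ideal.card_stabilizer_eq (G := M ≃ₐ[L] M) v.asIdeal w.asIdeal
  rw [Ideal.ramificationIdxIn_eq_ramificationIdx v.asIdeal w.asIdeal (M ≃ₐ[L] M),
    Ideal.inertiaDegIn_eq_inertiaDeg v.asIdeal w0.asIdeal (M ≃ₐ[L] M), ram_one v hU w hw,
    one_mul] at hc
  have h1 := Ideal.absNorm_pow_inertiaDeg v.asIdeal w0.asIdeal
  rw [hn] at h1
  have h2 : w0.asIdeal.inertiaDeg (𝓞 L) = 1 := by
    have h3 := one_lt_absNorm v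
    have h4 : Ideal.absNorm v.asIdeal ^ w0.asIdeal.inertiaDeg (𝓞 L) =
        Ideal.absNorm v.asIdeal ^ 1 := by rw [h1, pow_one]
    exact Nat.pow_right_injective h3 h4
  rw [h2, Nat.card_eq_one_iff_unique] at hc
  have h5 := hc.1
  exact congrArg Subtype.val (Subsingleton.elim
    (⟨τ, hτ⟩ : MulAction.stabilizer (M ≃ₐ[L] M) w.asIdeal) 1)

/-- the restriction of an automorphism in the decomposition group -/
lemma restr {L M N : Type} [Field L] [NumberField L] [Field M] [NumberField M]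
    [Field N] [NumberField N] [Algebra L M] [Algebra L N] [Algebra M N] [IsScalarTower L M N]
    [IsGalois L M] (v : HeightOneSpectrum (𝓞 L)) (hU : Pool.Agent.HB.Unr L M v)
    (hD : Pool.Agent.HB.Deg1 L M v) (W : HeightOneSpectrum (𝓞 N))
    (hW : Pool.Agent.HB.Lies L N v W) (σ : N ≃ₐ[L] N) (hσ : σ • W.asIdeal = W.asIdeal) (z : M) :
    σ (algebraMap M N z) = algebraMap M N z := by
  set w : HeightOneSpectrum (𝓞 M) := W.under (𝓞 M) with hwd
  have hwW : w.asIdeal = W.asIdeal.under (𝓞 M) := rfl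
  have hw : Pool.Agent.HB.Lies L M v w := by
    unfold Pool.Agent.HB.Lies at hW ⊢
    rw [hwW, ← hW, Ideal.under_under]
  have hc : ∀ x : M, algebraMap M N ((σ.restrictNormal M) x) = σ (algebraMap M N x) :=
    fun x => AlgEquiv.restrictNormal_commutes σ M x
  have hcO : ∀ x : 𝓞 M, algebraMap (𝓞 M) (𝓞 N) ((σ.restrictNormal M) • x) =
      σ • (algebraMap (𝓞 M) (𝓞 N) x) := by
    intro x
    apply RingOfIntegers.ext
    exact hc x
  have hmem : ∀ x : 𝓞 M, x ∈ w.asIdeal ↔ algebraMap (𝓞 M) (𝓞 N) x ∈ W.asIdeal := by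
    intro x
    rw [hwW, Ideal.under, Ideal.mem_comap]
  have hst : (σ.restrictNormal M) • w.asIdeal = w.asIdeal := by
    ext x
    have h1 : x = (σ.restrictNormal M) • ((σ.restrictNormal M)⁻¹ • x) := by
      rw [smul_inv_smul]
    constructor
    · intro hx
      rw [h1, Ideal.smul_mem_pointwise_smul_iff, hmem] at hx
      rw [h1, hmem, hcO, ← hσ, Ideal.smul_mem_pointwise_smul_iff]
      exact hx
    · intro hx
      rw [h1, hmem, hcO, ← hσ, Ideal.smul_mem_pointwise_smul_iff] at hx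
      rw [h1, Ideal.smul_mem_pointwise_smul_iff, hmem]
      exact hx
  have h2 := stab_one v hU hD w hw _ hst
  rw [← hc z, h2]
  rfl

end SPN

open SPN in
theorem tb_SPN : Sb_SPN := by
  intro L M M' N _ _ _ _ _ _ _ _ _ _ _ _ _ _ _ _ _ _ hone v hU hU' hD hD'
  have hv := v.isPrime
  have := perf v
  have hvm := v.isMaximal
  -- a prime above `v`
  obtain ⟨P, hPm, hPl⟩ := Ideal.exists_maximal_ideal_liesOver_of_isIntegral v.asIdeal (S := 𝓞 N)
  have hP0 : P ≠ ⊥ := Ideal.ne_bot_of_liesOver_of_ne_bot v.ne_bot P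
  let W : HeightOneSpectrum (𝓞 N) := ⟨P, hPm.isPrime, hP0⟩
  have hW : Pool.Agent.HB.Lies L N v W := hPl.over.symm
  have hPp := hPm.isPrime
  -- the stabilizer is trivial
  have hst : ∀ σ : N ≃ₐ[L] N, σ • P = P → σ = 1 := by
    intro σ hσ
    exact hone σ (restr v hU hD W hW σ hσ) (restr v hU' hD' W hW σ hσ)
  have hc := Ideal.card_stabilizer_eq (G := N ≃ₐ[L] N) v.asIdeal P
  have h1 : Nat.card (MulAction.stabilizer (N ≃ₐ[L] N) P) = 1 := by
    rw [Nat.card_eq_one_iff_unique]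
    refine ⟨⟨fun a b => ?_⟩, ⟨1⟩⟩
    exact Subtype.ext ((hst a.1 a.2).trans (hst b.1 b.2).symm)
  rw [h1] at hc
  have h2 : Ideal.inertiaDegIn v.asIdeal (𝓞 N) = 1 := Nat.eq_one_of_mul_eq_one_left hc.symm
  -- norms
  have hnorm : ∀ Q : Ideal (𝓞 N), Q.IsPrime → Q.LiesOver v.asIdeal →
      Ideal.absNorm Q = Ideal.absNorm v.asIdeal := by
    intro Q hQ hQl
    have h3 := Ideal.absNorm_pow_inertiaDeg v.asIdeal Q
    rw [Ideal.inertiaDegIn_eq_inertiaDeg v.asIdeal Q (N ≃ₐ[L] N)] at h2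
    rw [h2, pow_one] at h3
    exact h3.symm
  -- the orbit
  have hne : ∀ σ : N ≃ₐ[L] N, σ • P ≠ ⊥ := fun σ =>
    Ideal.ne_bot_of_liesOver_of_ne_bot v.ne_bot (σ • P)
  let f : (N ≃ₐ[L] N) → {w : HeightOneSpectrum (𝓞 N) //
      w.asIdeal.under (𝓞 L) = v.asIdeal ∧ Ideal.absNorm w.asIdeal = Ideal.absNorm v.asIdeal} :=
    fun σ => ⟨⟨σ • P, inferInstance, hne σ⟩,
      (Ideal.LiesOver.over (P := σ • P) (p := v.asIdeal)).symm,
      hnorm (σ • P) inferInstance inferInstance⟩
  have hinj : Function.Injective f := by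
    intro σ τ h
    have h3 : σ • P = τ • P := congrArg (fun w => w.1.asIdeal) h
    have h4 : (τ⁻¹ * σ) • P = P := by
      rw [mul_smul, h3, inv_smul_smul]
    have h5 := hst _ h4
    rw [inv_mul_eq_one] at h5
    exact h5.symm
  have hfin : Finite {w : HeightOneSpectrum (𝓞 N) //
      w.asIdeal.under (𝓞 L) = v.asIdeal ∧ Ideal.absNorm w.asIdeal = Ideal.absNorm v.asIdeal} := by
    have h3 := IsDedekindDomain.primesOver_finite v.asIdeal (𝓞 N)
    have h4 : Finite (v.asIdeal.primesOver (𝓞 N)) := h3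
    refine Finite.of_injective (β := v.asIdeal.primesOver (𝓞 N))
      (fun w => ⟨w.1.asIdeal, w.1.isPrime, ⟨w.2.1.symm⟩⟩) ?_
    intro a b hab
    have h5 : a.1.asIdeal = b.1.asIdeal := congrArg Subtype.val hab
    exact Subtype.ext (HeightOneSpectrum.ext h5)
  rw [← IsGalois.card_aut_eq_finrank]
  exact Nat.card_le_card_of_injective f hinj

end Pool.Agent.VB
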