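import Pool.Agent.VB.StVB

/-!
# VB: extensions of imaginary quadratic fields are totally complex (helper83)
-/

set_option autoImplicit false

namespace Pool.Agent.VB

theorem tb_TCQ : Sb_TCQ := by
  intro k M hk hz hkM φ
  obtain ⟨z, hzk, hzr⟩ := hz
  have : FiniteDimensional ℚ k := FiniteDimensional.of_finrank_pos (by omega)
  let P : Polynomial ℚ := minpoly ℚ (⟨z, hzk⟩ : k)
  have hPm : P.Monic := minpoly.monic (IsIntegral.of_finite ℚ _)
  have hdeg : P.natDegree ≤ 2 := hk ▸ minpoly.natDegree_le (⟨z, hzk⟩ : k)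
  have h0 : Polynomial.aeval (⟨z, hzk⟩ : k) P = 0 := minpoly.aeval ℚ _
  have h1 : Polynomial.aeval z P = 0 := by
    have h := Polynomial.aeval_algHom_apply k.val (⟨z, hzk⟩ : k) P
    rw [h0, map_zero] at h
    exact h
  have h2 : Polynomial.aeval ((starRingEnd ℂ) z) P = 0 := by
    have h := Polynomial.aeval_algHom_apply (starRingEnd ℂ).toRatAlgHom z P
    rw [h1, map_zero] at h
    exact h
  have h3' : Polynomial.aeval (⟨z, hkM hzk⟩ : M) P = 0 := by
    have h := Polynomial.aeval_algHom_apply (IntermediateField.inclusion hkM) (⟨z, hzk⟩ : k) P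
    rw [h0, map_zero] at h
    exact h
  have h3 : Polynomial.aeval (φ ⟨z, hkM hzk⟩) P = 0 := by
    have h := Polynomial.aeval_algHom_apply φ.toRatAlgHom (⟨z, hkM hzk⟩ : M) P
    rw [h3', map_zero] at h
    exact h
  refine ⟨⟨z, hkM hzk⟩, fun hw => ?_⟩
  have hw1 : φ ⟨z, hkM hzk⟩ ≠ z := fun h => hzr (by rw [h] at hw; exact hw)
  have hw2 : φ ⟨z, hkM hzk⟩ ≠ (starRingEnd ℂ) z := fun h => hzr (by
    rw [h, Complex.conj_conj] at hw; exact hw.symm)
  have hne : P.map (algebraMap ℚ ℂ) ≠ 0 := (hPm.map _).ne_zero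
  have hmem : ∀ y : ℂ, Polynomial.aeval y P = 0 → y ∈ (P.map (algebraMap ℚ ℂ)).roots := by
    intro y hy
    rw [Polynomial.mem_roots hne, Polynomial.IsRoot.def, Polynomial.eval_map_algebraMap]
    exact hy
  have hcard : ({z, (starRingEnd ℂ) z, φ ⟨z, hkM hzk⟩} : Finset ℂ).card = 3 := by
    rw [Finset.card_eq_three]
    exact ⟨_, _, _, fun h => hzr h.symm, fun h => hw1 h.symm, fun h => hw2 h.symm, rfl⟩
  have hle : ({z, (starRingEnd ℂ) z, φ ⟨z, hkM hzk⟩} : Finset ℂ).card
      ≤ (P.map (algebraMap ℚ ℂ)).natDegree := by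
    refine Polynomial.card_le_degree_of_subset_roots ?_
    intro y hy
    have hy' : y ∈ ({z, (starRingEnd ℂ) z, φ ⟨z, hkM hzk⟩} : Finset ℂ) := hy
    simp only [Finset.mem_insert, Finset.mem_singleton] at hy'
    rcases hy' with rfl | rfl | rfl
    · exact hmem _ h1
    · exact hmem _ h2
    · exact hmem _ h3
  rw [hcard, Polynomial.natDegree_map] at hle
  omega

end Pool.Agent.VB
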