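import Pool.Agent.VB.StVB
import Pool.Agent.VB.V_GAM

/-!
# VB, module TOT: total ramification above `p` in the tower `F B_n`
-/

set_option autoImplicit false

namespace Pool.Agent.VB

open Pool.Agent.RI Pool.Agent.MU3

namespace TOT

/-- subgroups of a cyclic `p`-group are ordered by their cardinalities -/
lemma le_of_card {C : Type*} [Group C] [IsCyclic C] {p m : ℕ} (hp : p.Prime)
    (hC : Nat.card C = p ^ m) (D H : Subgroup C) (h : Nat.card D ≤ Nat.card H) : D ≤ H := by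
  classical
  have hfin : Finite C := Nat.finite_of_card_ne_zero (by rw [hC]; exact pow_ne_zero _ hp.ne_zero)
  have hF : Fintype C := Fintype.ofFinite C
  obtain ⟨a, -, ha⟩ := (Nat.dvd_prime_pow hp).1 (hC ▸ H.card_subgroup_dvd_card)
  obtain ⟨b, -, hb⟩ := (Nat.dvd_prime_pow hp).1 (hC ▸ D.card_subgroup_dvd_card)
  have hba : p ^ b ∣ p ^ a := by
    rw [ha, hb] at h
    exact pow_dvd_pow p ((Nat.pow_le_pow_iff_right hp.one_lt).1 h)
  have hle := IsCyclic.card_pow_eq_one_le (α := C) (n := p ^ a) (pow_pos hp.pos a)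
  have hsub : Finset.univ.filter (fun x : C => x ∈ H) ⊆
      Finset.univ.filter (fun x : C => x ^ (p ^ a) = 1) := by
    intro x hx
    rw [Finset.mem_filter] at hx ⊢
    refine ⟨Finset.mem_univ _, ?_⟩
    have h3 : (⟨x, hx.2⟩ : H) ^ (Nat.card H) = 1 := pow_card_eq_one'
    rw [ha] at h3
    exact congrArg Subtype.val h3
  have hcard3 : (Finset.univ.filter (fun x : C => x ∈ H)).card = p ^ a := by
    rw [← ha, Nat.card_eq_fintype_card, Fintype.card_subtype]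
  have heq := Finset.eq_of_subset_of_card_le hsub (by rw [hcard3]; exact hle)
  intro x hx
  have h4 : x ^ (p ^ a) = 1 := by
    have h3 : (⟨x, hx⟩ : D) ^ (Nat.card D) = 1 := pow_card_eq_one'
    rw [hb] at h3
    have h5 : x ^ (p ^ b) = 1 := congrArg Subtype.val h3
    obtain ⟨c, hc⟩ := hba
    rw [hc, pow_mul, h5, one_pow]
  have h6 : x ∈ Finset.univ.filter (fun x : C => x ^ (p ^ a) = 1) := by
    rw [Finset.mem_filter]
    exact ⟨Finset.mem_univ _, h4⟩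
  rw [← heq, Finset.mem_filter] at h6
  exact h6.2

/-- the inertia group -/
def inS (V : ValuationSubring ℂ) (L N : IntermediateField ℚ ℂ) (hN : Nrm ⊥ N) :
    Subgroup (ℂ ≃+* ℂ) where
  carrier := {σ | Fixes L σ ∧ Inr V N σ}
  mul_mem' := fun {_ b} h h' => ⟨fixes_mul h.1 h'.1, inr_mul h.2 h'.2 (hN b (fixes_bot b))⟩
  one_mem' := ⟨fixes_one L, inr_one V N⟩
  inv_mem' := fun {a} h => ⟨fixes_inv h.1, inr_inv h.2 (hN a⁻¹ (fixes_bot a⁻¹))⟩

/-- the normal closure -/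
lemma closure_ex (F : IntermediateField ℚ ℂ) [FiniteDimensional ℚ F] :
    ∃ E : IntermediateField ℚ ℂ, FiniteDimensional ℚ E ∧ F ≤ E ∧ Nrm ⊥ E := by
  refine ⟨IntermediateField.normalClosure ℚ F ℂ, inferInstance, F.le_normalClosure,
    ?_⟩
  intro σ hσ
  have h1 : IntermediateField.normalClosure ℚ F ℂ ≤
      PreF σ (IntermediateField.normalClosure ℚ F ℂ) := by
    refine iSup_le fun f => ?_
    rintro x ⟨y, rfl⟩
    have h2 := AlgHom.fieldRange_le_normalClosure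
      (@RingHom.toRatAlgHom _ _ _ _ _ _ ((σ : ℂ →+* ℂ).comp (f : F →+* ℂ)))
    have h3 : σ (f y) ∈ (@RingHom.toRatAlgHom _ _ _ _ _ _
      ((σ : ℂ →+* ℂ).comp (f : F →+* ℂ))).fieldRange := ⟨y, rfl⟩
    exact h2 h3
  exact fun x hx => h1 hx

lemma resH_eq {M : IntermediateField ℚ ℂ} (hM : Nrm ⊥ M) {σ τ : ℂ ≃+* ℂ}
    (h : GAM.resH M hM σ = GAM.resH M hM τ) (x : ℂ) (hx : x ∈ M) : σ x = τ x := by
  have h1 := congrArg (fun f : M ≃ₐ[ℚ] M => ((f ⟨x, hx⟩ : M) : ℂ)) h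
  exact h1

/-- agreement on two fields gives agreement on the compositum -/
lemma eq_sup {L M : IntermediateField ℚ ℂ} {σ τ : ℂ ≃+* ℂ} (h1 : ∀ x ∈ L, σ x = τ x)
    (h2 : ∀ x ∈ M, σ x = τ x) : ∀ x ∈ L ⊔ M, σ x = τ x := by
  have key : ∀ (K : IntermediateField ℚ ℂ), (∀ x ∈ K, σ x = τ x) ↔ Fixes K (τ⁻¹ * σ) := by
    intro K
    constructor
    · intro h x hx
      show τ.symm (σ x) = x
      rw [h x hx]
      exact τ.symm_apply_apply x
    · intro h x hx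
      have h3 : τ.symm (σ x) = x := h x hx
      have h4 : τ (τ.symm (σ x)) = σ x := τ.apply_symm_apply _
      rw [h3] at h4
      exact h4.symm
  exact (key _).2 (fixes_sup ((key _).1 h1) ((key _).1 h2))

end TOT

open TOT GAM in
theorem tb_TOT (hMUL : Sb_MUL) (hCRD : Sb_CRD) (hCYQ : Sb_CYQ) : Sb_TOT := by
  intro p hpf F hF B hB hmono
  have hp : p.Prime := hpf.out
  obtain ⟨E, hE, hFE, hEn⟩ := closure_ex F
  have hnB : ∀ n, Nrm ⊥ (B n) := fun n => layer_nrm (hB n)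
  have hfdB : ∀ n, FiniteDimensional ℚ (B n) := fun n => (LAY_thm p n (B n) (hB n)).1
  have hone : Module.finrank ℚ (⊥ : IntermediateField ℚ ℂ) = 1 := IntermediateField.finrank_bot
  obtain ⟨n₀, hn₀⟩ : ∃ n₀ : ℕ, Module.finrank ℚ E ≤ p ^ n₀ :=
    ⟨Module.finrank ℚ E, (Nat.lt_pow_self hp.one_lt).le⟩
  refine ⟨n₀, ?_⟩
  intro n m hn V hV σ hσ
  rcases Nat.lt_or_ge n m with hnm | hmn
  swap
  · have h1 : F ⊔ B m ≤ F ⊔ B n := sup_le_sup_left (hmono hmn) F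
    intro x hx _
    rw [hσ x (h1 hx), sub_self, ValuationSubring.mem_nonunits_iff, map_zero]
    exact zero_lt_one
  have hfN : FiniteDimensional ℚ ↥(E ⊔ B m) := IntermediateField.finiteDimensional_sup E (B m)
  have hNn : Nrm ⊥ (E ⊔ B m) := nrm_sup hEn (hnB m)
  -- counting
  have hBm := hfdB m
  have c1 := (hMUL V ⊥ (B m) (E ⊔ B m) bot_le le_sup_right (hnB m) hNn).1
  have c2 := (hMUL V ⊥ E (E ⊔ B m) bot_le le_sup_left hEn hNn).1
  obtain ⟨d1, -, -, -, d2⟩ := hCRD ⊥ (B m) bot_le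
  obtain ⟨e1, -, -, -, e2⟩ := hCRD ⊥ E bot_le
  obtain ⟨-, -, -, -, g2⟩ := hCRD (B m) (E ⊔ B m) le_sup_right
  have d3 : cI V ⊥ (B m) = p ^ m := by
    rw [(d2 V).2.2.2 (fun τ _ => (hCYQ p m (B m) (hB m) V).1 hV τ)]
    rw [(hB m).1, hone, one_mul] at d1
    exact d1.symm
  have e3 : cI V ⊥ E ≤ p ^ n₀ := by
    rw [hone, one_mul] at e1
    exact ((e2 V).2.1.trans e1.symm.le).trans hn₀
  have hI : p ^ (m - n) ≤ cI V E (E ⊔ B m) := by
    have f1 : p ^ m ≤ cI V E (E ⊔ B m) * p ^ n₀ := by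
      calc p ^ m = 1 * p ^ m := (one_mul _).symm
        _ ≤ cI V (B m) (E ⊔ B m) * p ^ m := Nat.mul_le_mul_right _ (g2 V).1
        _ = cI V ⊥ (E ⊔ B m) := by rw [c1, d3]
        _ = cI V E (E ⊔ B m) * cI V ⊥ E := c2
        _ ≤ cI V E (E ⊔ B m) * p ^ n₀ := Nat.mul_le_mul_left _ e3
    have f2 : p ^ m = p ^ (m - n₀) * p ^ n₀ := by
      rw [← pow_add, Nat.sub_add_cancel (by omega)]
    rw [f2] at f1
    have f3 : p ^ (m - n₀) ≤ cI V E (E ⊔ B m) := Nat.le_of_mul_le_mul_right f1 (pow_pos hp.pos _)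
    exact (Nat.pow_le_pow_right hp.pos (by omega)).trans f3
  -- the groups
  have hcyc : IsCyclic (B m ≃ₐ[ℚ] B m) := Pool.Agent.RID.t_LAYC p m (B m) (hB m)
  have hcard : Nat.card (B m ≃ₐ[ℚ] B m) = p ^ m := by
    have hG := (LAY_thm p m (B m) (hB m)).2.1
    rw [← (hB m).1]
    exact IsGalois.card_aut_eq_finrank ℚ (B m)
  have hfinC : Finite (B m ≃ₐ[ℚ] B m) :=
    Nat.finite_of_card_ne_zero (by rw [hcard]; exact pow_ne_zero _ hp.ne_zero)
  set ρ := resH (B m) (hnB m) with hρ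
  set H := (inS V E (E ⊔ B m) hNn).map ρ with hH
  set D := (fixS (B n)).map ρ with hD
  have hHc : cI V E (E ⊔ B m) ≤ Nat.card H := by
    refine Nat.card_le_card_of_injective (fun f :
      {f : ↥(E ⊔ B m) → ℂ // ∃ σ : ℂ ≃+* ℂ, Fixes E σ ∧ Inr V (E ⊔ B m) σ ∧
        ∀ x : ↥(E ⊔ B m), f x = σ x} =>
      (⟨ρ f.2.choose, Subgroup.mem_map_of_mem ρ ⟨f.2.choose_spec.1, f.2.choose_spec.2.1⟩⟩ : H)) ?_
    intro f f' hff
    have h1 : ρ f.2.choose = ρ f'.2.choose := congrArg Subtype.val hff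
    have h2 := eq_sup (L := E) (M := B m) (σ := f.2.choose) (τ := f'.2.choose) (fun x hx => by
      rw [f.2.choose_spec.1 x hx, f'.2.choose_spec.1 x hx]) (resH_eq (hnB m) h1)
    refine Subtype.ext (funext fun x => ?_)
    rw [f.2.choose_spec.2.2 x, f'.2.choose_spec.2.2 x]
    exact h2 x x.2
  have hDc : Nat.card D ≤ p ^ (m - n) := by
    obtain ⟨k1, -, -, k2, -⟩ := hCRD (B n) (B m) (hmono hnm.le)
    rw [(hB m).1, (hB n).1] at k1
    have k3 : p ^ m = p ^ n * p ^ (m - n) := by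
      rw [← pow_add, Nat.add_sub_cancel' hnm.le]
    rw [k3] at k1
    have k4 := Nat.eq_of_mul_eq_mul_left (pow_pos hp.pos n) k1
    rw [k4]
    have := k2
    refine Nat.card_le_card_of_injective (fun d : D =>
      (⟨fun x => ((d : B m ≃ₐ[ℚ] B m) x : ℂ), by
        obtain ⟨τ, hτ, hτd⟩ := d.2
        refine ⟨τ, hτ, fun x => ?_⟩
        rw [← hτd]
        rfl⟩ : {f : B m → ℂ // ∃ σ : ℂ ≃+* ℂ, Fixes (B n) σ ∧ ∀ x : B m, f x = σ x})) ?_
    intro d d' hdd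
    have h1 := congrArg Subtype.val hdd
    apply Subtype.ext
    ext x
    exact congrFun h1 x
  have hDH : D ≤ H := le_of_card hp hcard D H ((hDc.trans hI).trans hHc)
  have hσD : ρ σ ∈ D := Subgroup.mem_map_of_mem ρ (show Fixes (B n) σ from
    fixes_mono le_sup_right hσ)
  obtain ⟨τ, hτ, hτσ⟩ := hDH hσD
  have h5 := eq_sup (L := F) (M := B m) (σ := τ) (τ := σ) (fun x hx => by
    rw [hτ.1 x (hFE hx), hσ x ((le_sup_left : F ≤ F ⊔ B n) hx)]) (resH_eq (hnB m) hτσ)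
  intro x hx hxV
  rw [← h5 x hx]
  exact hτ.2 x (sup_le_sup_right hFE (B m) hx) hxV

end Pool.Agent.VB
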