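import Pool.Agent.VB.StVB
import Pool.Agent.RI.LAY

/-!
# TOW: the tower exists (helper99)
-/

set_option autoImplicit false

open NumberField

namespace Pool.Agent.VB

open Pool.Agent.RI

namespace TOWx

lemma mem_gal (B : IntermediateField ℚ ℂ) (h : IsGalois ℚ B) (σ : ℂ ≃+* ℂ) {x : ℂ}
    (hx : x ∈ B) : σ x ∈ B := by
  have key : ∀ a b : Algebra ℚ B, @IsGalois ℚ _ B _ a → @IsGalois ℚ _ B _ b := by
    intro a b h
    rw [Subsingleton.elim b a]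
    exact h
  have h1 : @IsGalois ℚ _ B _ B.algebra' := key _ _ h
  have h2 := @IsGalois.to_normal _ _ _ _ _ h1
  exact @LAY.mem_of_normal ℚ ℂ _ _ _ B h2
    (@RingHom.toRatAlgHom _ _ _ _ _ _ ((σ : ℂ →+* ℂ).comp (algebraMap B ℂ))) ⟨x, hx⟩

end TOWx

/-- (TOW) the tower exists -/
theorem tb_TOW (hDEG : Sb_DEG) (hGAM : Sb_GAM) (hTOT : Sb_TOT) (hCYQ : Sb_CYQ) : Sb_TOW := by
  intro p hp F hF B hB hmono hz
  have hLAY := fun n => LAY_thm p n (B n) (hB n)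
  have hfdB : ∀ n, FiniteDimensional ℚ (B n) := fun n => (hLAY n).1
  have hfd : ∀ n, FiniteDimensional ℚ ↥(F ⊔ B n) := fun n => by
    have := hfdB n
    exact IntermediateField.finiteDimensional_sup F (B n)
  obtain ⟨n₀, h0⟩ := hDEG p F B hB hmono
  obtain ⟨n₂, h2⟩ := hTOT p F B hB hmono
  have hdeg : ∀ j, Module.finrank ℚ ↥(F ⊔ B (max n₀ n₂ + j)) =
      Module.finrank ℚ ↥(F ⊔ B (max n₀ n₂)) * p ^ j := by
    intro j
    have h := h0 (max n₀ n₂) (max n₀ n₂ + j) (le_max_left _ _) (Nat.le_add_right _ _)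
    rwa [Nat.add_sub_cancel_left] at h
  obtain ⟨γ, hγ1, hγ2⟩ := hGAM p F B hB hmono (max n₀ n₂) hdeg
  refine ⟨max n₀ n₂, γ, ⟨hfd, hfdB, hB, hmono, ?_, hz, hγ1, hγ2, hdeg, ?_, ?_⟩⟩
  · intro n σ _ x hx
    exact TOWx.mem_gal (B n) (hLAY n).2.1 σ hx
  · intro V hV j m σ hσ
    exact h2 (max n₀ n₂ + j) (max n₀ n₂ + m)
      ((le_max_right _ _).trans (Nat.le_add_right _ _)) V hV σ hσ
  · intro V hV j m σ hσ hI
    exact fixes_sup (fixes_mono le_sup_left hσ)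
      ((hCYQ p (max n₀ n₂ + m) (B (max n₀ n₂ + m)) (hB _) V).2 hV σ (fixes_bot σ)
        (inr_mono le_sup_right hI))

end Pool.Agent.VB
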