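import Pool.Agent.VB.StVB

/-!
# Module VB_UIX: the index is at most `p`
-/

set_option autoImplicit false

open NumberField IsDedekindDomain Filter Topology
open scoped nonZeroDivisors Pointwise

namespace Pool.Agent.VB

open Pool.Agent.RI Pool.Agent.MU3 Pool.Agent.Lib_helper28.FROB

theorem tb_UIX (hI : Sb_IDX) (hD : Sb_DLB) : Sb_UIX := by
  intro L M _ _ _ _ _ p hp hdeg U S hU
  classical
  set D : Set (HeightOneSpectrum (𝓞 L)) := {v | Pool.Agent.HB.Deg1 L M v} with hDdef
  have hp0 : (0 : ℝ) < p := by exact_mod_cast hp.pos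
  obtain ⟨C, hC⟩ := hD L M
  have key : ∃ C' : ℝ, ∀ᶠ s : ℝ in 𝓝[>] 1,
      (1 / (p : ℝ)) * Real.log (1 / (s - 1)) - C' ≤
        ∑' v, Set.indicator (D \ (S : Set (HeightOneSpectrum (𝓞 L)))) (x s) v := by
    refine ⟨C / p + S.card, ?_⟩
    filter_upwards [hC, self_mem_nhdsWithin] with s hs hs1
    have hs1' : 1 < s := hs1
    have hsum := summable_x (K := L) hs1'
    have h1 : Summable (Set.indicator (D \ (S : Set (HeightOneSpectrum (𝓞 L)))) (x s)) :=
      hsum.indicator _
    have h2 : Summable (Set.indicator D (x s)) := hsum.indicator _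
    have h3 : Summable (Set.indicator (S : Set (HeightOneSpectrum (𝓞 L))) (x s)) :=
      hsum.indicator _
    have h4 : ∑' v, Set.indicator D (x s) v ≤
        ∑' v, Set.indicator (D \ (S : Set (HeightOneSpectrum (𝓞 L)))) (x s) v +
          ∑' v, Set.indicator (S : Set (HeightOneSpectrum (𝓞 L))) (x s) v := by
      rw [← h1.tsum_add h3]
      refine h2.tsum_le_tsum (fun v => ?_) (h1.add h3)
      have h0 := (x_pos s v).le
      by_cases hv : v ∈ D <;> by_cases hv' : v ∈ S <;> simp [hv, hv', h0]
    have h5 : ∑' v, Set.indicator (S : Set (HeightOneSpectrum (𝓞 L))) (x s) v ≤ S.card := by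
      rw [tsum_eq_sum (s := S) (fun v hv => by simp [hv])]
      have h6 : ∀ v ∈ S, Set.indicator (S : Set (HeightOneSpectrum (𝓞 L))) (x s) v ≤ 1 := by
        intro v hv
        rw [Set.indicator_of_mem (by exact_mod_cast hv)]
        have := x_le (s := s) hs1'.le v
        linarith
      refine (Finset.sum_le_sum h6).trans ?_
      simp
    rw [hdeg] at hs
    have h7 : Real.log (1 / (s - 1)) - C ≤ (p : ℝ) *
        (∑' v, Set.indicator (D \ (S : Set (HeightOneSpectrum (𝓞 L)))) (x s) v + S.card) :=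
      hs.trans (mul_le_mul_of_nonneg_left (h4.trans (by linarith)) hp0.le)
    have h8 : (Real.log (1 / (s - 1)) - C) / p ≤
        ∑' v, Set.indicator (D \ (S : Set (HeightOneSpectrum (𝓞 L)))) (x s) v + S.card := by
      rw [div_le_iff₀ hp0]
      linarith
    have h9 : (Real.log (1 / (s - 1)) - C) / p =
        (1 / (p : ℝ)) * Real.log (1 / (s - 1)) - C / p := by ring
    linarith
  have h := hI L (D \ (S : Set (HeightOneSpectrum (𝓞 L)))) (1 / (p : ℝ)) (by positivity) key U
    (fun v hv => hU v (by simpa using hv.2) hv.1)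
  have h' : (U.index : ℝ) ≤ p := by
    rw [mul_one_div, div_le_one hp0] at h
    exact h
  exact_mod_cast h'

end Pool.Agent.VB
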