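import Pool.Agent.VB.StVB
import Pool.Agent.MU3.AVAll
import Mathlib.RingTheory.DedekindDomain.Different
import Mathlib.NumberTheory.RamificationInertia.Valuation

/-!
# VB, module UNR: unramified in the sense of block HB
-/

set_option autoImplicit false

open NumberField IsDedekindDomain
open scoped nonZeroDivisors

namespace Pool.Agent.VB

open Pool.Agent.RI Pool.Agent.MU3

theorem tb_UNR (h1 : Sb_CIR) (h2 : Sb_CRD) : Sb_UNR := by
  intro L M _ _ h hN hU v w hvw x
  let _ := algC h
  obtain ⟨V, hV⟩ := Pool.Agent.MU3X.v_EXT M (algebraMap M ℂ) w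
  have hP : ∀ y : 𝓞 M, y ∈ w.asIdeal ↔ ((y : M) : ℂ) ∈ V.nonunits := by
    intro y
    rw [ValuationSubring.mem_nonunits_iff]
    have h3 := (hV (y : M)).2.1
    rw [show ((y : M) : ℂ) = algebraMap M ℂ (y : M) from rfl, h3]
    have h4 := w.valuation_lt_one_iff_mem (K := M) y
    exact h4.symm
  have h5 := h1 V L M h hN w hP
  have h6 := ((h2 L M h).2.2.2.2 V).2.2.1.2 (hU V)
  rw [h6] at h5
  have hl : w.asIdeal.LiesOver v.asIdeal := ⟨hvw.symm⟩
  have h7 := HeightOneSpectrum.valuation_liesOver (K := L) M v w (x : L)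
  have h8 := Ideal.ramificationIdx'_eq_ramificationIdx v.asIdeal w.asIdeal v.ne_bot
  rw [h8, ← h5, pow_one] at h7
  unfold Pool.Agent.HB.ord
  rw [h7]
  rfl

end Pool.Agent.VB
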