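import Pool.Agent.VB.StVB
import Pool.Agent.MUX.U_AUE
import Pool.Agent.MUX.U_AUF
import Pool.Agent.MUX.U_AUT

/-!
# VD1: from `F_∞` to the layers (helper71)
-/

set_option autoImplicit false

namespace Pool.Agent.VB

open Pool.Agent.RI Pool.Agent.MUXU

namespace VD1

/-- a quotient of two `p`-th roots of the same element is in every field which contains `ζ` -/
lemma root_mem {p : ℕ} [Fact p.Prime] {F : IntermediateField ℚ ℂ} {ζ : ℂ} (hζ : ζ ∈ F)
    (hp : IsPrimitiveRoot ζ p) {η : ℂ} (h : η ^ p = 1) : η ∈ F := by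
  haveI : NeZero p := ⟨(Fact.out : p.Prime).ne_zero⟩
  obtain ⟨i, -, rfl⟩ := hp.eq_pow_of_pow_eq_one h
  exact pow_mem hζ i

lemma quot_pow {p : ℕ} {x y y' : ℂ} (hx : x ≠ 0) (hy : y ^ p = x) (hy' : y' ^ p = x) :
    (y' / y) ^ p = 1 := by
  rw [div_pow, hy, hy', div_self hx]

lemma pow_act {F : IntermediateField ℚ ℂ} {σ : ℂ ≃+* ℂ} (hσ : Fixes F σ) {η y : ℂ} (hη : η ∈ F)
    (h : σ y = η * y) (k : ℕ) : (σ ^ k) y = η ^ k * y := by
  induction k with
  | zero =>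
    rw [pow_zero, pow_zero, one_mul]
    rfl
  | succ k ih =>
    have e1 : (σ ^ (k + 1)) y = (σ ^ k) (σ y) := by
      rw [pow_succ]
      rfl
    rw [e1, h, map_mul, ih, fixes_pow hσ k η hη]
    ring

end VD1

open VD1 in
theorem tb_VD1 (h1 : Sb_VD2) (h2 : Sb_LIM) : Sb_VD1 := by
  intro p _ F B n₁ γ hT j x y hx hx0 hy hyF hU
  have hp0 : p ≠ 0 := (Fact.out : p.Prime).ne_zero
  obtain ⟨ζ, hζF, hζ⟩ := hT.zeta
  obtain ⟨-, hl2, hl3⟩ := h2 F B hT.mono
  have halg := hl3 hT.fd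
  have hy0 : y ≠ 0 := by
    rintro rfl
    rw [zero_pow hp0] at hy
    exact hx0 hy.symm
  have hle : F ⊔ B (n₁ + j) ≤ F ⊔ B (n₁ + (j + 1)) :=
    sup_le_sup_left (hT.mono (by omega)) F
  refine ⟨hle hx, hx0, ?_⟩
  intro y' hy' V
  have hη' : y' / y ∈ F := root_mem hζF hζ (quot_pow hx0 hy hy')
  have hη'' : y / y' ∈ F := by
    have := inv_mem hη'
    rwa [inv_div] at this
  have hy0' : y' ≠ 0 := by
    rintro rfl
    rw [zero_pow hp0] at hy'
    exact hx0 hy'.symm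
  have hFE : F ≤ F ⊔ B (n₁ + (j + 1)) := le_sup_left
  have hadj : adj (F ⊔ B (n₁ + (j + 1))) y' = adj (F ⊔ B (n₁ + (j + 1))) y := by
    apply le_antisymm
    · refine adj_le (le_adj _ _) ?_
      have : y' = (y' / y) * y := by field_simp
      rw [this]
      exact mul_mem (le_adj _ _ (hFE hη')) (mem_adj _ _)
    · refine adj_le (le_adj _ _) ?_
      have : y = (y / y') * y' := by field_simp
      rw [this]
      exact mul_mem (le_adj _ _ (hFE hη'')) (mem_adj _ _)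
  rw [hadj]
  -- an automorphism `ρ` which fixes `F_∞` and moves `y`
  obtain ⟨ρ, hρ, hρy⟩ : ∃ ρ : ℂ ≃+* ℂ, Fixes (Finf F B) ρ ∧ ρ y ≠ y := by
    by_contra hcon
    push Not at hcon
    exact hyF (tu_AUF tu_AUE tu_AUT (Finf F B) halg y (fun σ hσ => hcon σ hσ))
  have hnot : ¬ Inr V (adj (Finf F B) y) ρ := by
    intro hI
    exact hρy (hU V ρ hρ hI y (mem_adj _ _))
  unfold Inr at hnot
  push Not at hnot
  obtain ⟨z, hz, hzV, hzn⟩ := hnot
  obtain ⟨n, hn⟩ := hl2 y z hz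
  set m := max n (j + 1) with hm
  have hnm : F ⊔ B n ≤ F ⊔ B (n₁ + m) :=
    sup_le_sup_left (hT.mono (by have := le_max_left n (j + 1); omega)) F
  have hzm : z ∈ adj (F ⊔ B (n₁ + m)) y :=
    adj_le (hnm.trans (le_adj _ _)) (mem_adj _ _) hn
  refine h1 p F B n₁ γ hT j m x y V hx hx0 hy (le_max_right _ _) ?_
  intro σ hσ hI
  by_contra hcon
  have hσy : σ y ≠ y := fun h => hcon (fixes_adj hσ h)
  have hFm : F ≤ F ⊔ B (n₁ + m) := le_sup_left
  have hroot : ∀ τ : ℂ ≃+* ℂ, Fixes (F ⊔ B (n₁ + m)) τ → (τ y / y) ^ p = 1 := by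
    intro τ hτ
    refine quot_pow hx0 hy ?_
    rw [← map_pow, hy]
    exact hτ x ((sup_le_sup_left (hT.mono (by
      have := le_max_right n (j + 1); omega)) F : F ⊔ B (n₁ + j) ≤ F ⊔ B (n₁ + m)) hx)
  have hρm : Fixes (F ⊔ B (n₁ + m)) ρ := fixes_mono (le_Finf F B (n₁ + m)) hρ
  set η := σ y / y with hηd
  have hηp : η ^ p = 1 := hroot σ hσ
  have hη1 : η ≠ 1 := by
    intro h
    rw [hηd, div_eq_one_iff_eq hy0] at h
    exact hσy h
  have hηF : η ∈ F := root_mem hζF hζ hηp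
  have hσe : σ y = η * y := by
    rw [hηd]
    field_simp
  have hηprim : IsPrimitiveRoot η p := by
    haveI : Fact (1 < p) := ⟨(Fact.out : p.Prime).one_lt⟩
    exact IsPrimitiveRoot.iff_orderOf.2 (orderOf_eq_prime hηp hη1)
  haveI : NeZero p := ⟨hp0⟩
  obtain ⟨k, -, hk⟩ := hηprim.eq_pow_of_pow_eq_one (hroot ρ hρm)
  have hρe : ρ y = η ^ k * y := by
    rw [hk]
    field_simp
  have hσk : (σ ^ k) y = η ^ k * y := pow_act (fixes_mono hFm hσ) hηF hσe k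
  have hstab : ∀ w ∈ adj (F ⊔ B (n₁ + m)) y, σ w ∈ adj (F ⊔ B (n₁ + m)) y := by
    refine nrm_adj (fun τ hτ => ?_) σ hσ
    have e1 : τ y = (τ y / y) * y := by field_simp
    rw [e1]
    exact mul_mem (le_adj _ _ (hFm (root_mem hζF hζ (hroot τ hτ)))) (mem_adj _ _)
  have hIk := inr_pow hI hstab k
  have hfix : Fixes (adj (F ⊔ B (n₁ + m)) y) (ρ⁻¹ * σ ^ k) := by
    refine fixes_adj (fixes_mul (fixes_inv hρm) (fixes_pow hσ k)) ?_
    show ρ.symm ((σ ^ k) y) = y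
    rw [hσk, ← hρe]
    exact ρ.symm_apply_apply y
  have e2 : (σ ^ k) z = ρ z := by
    have e3 : ρ.symm ((σ ^ k) z) = z := hfix z hzm
    rw [← e3, ρ.apply_symm_apply, e3]
  exact hzn (by rw [← e2]; exact hIk z hzm hzV)

end Pool.Agent.VB
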