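import Pool.Agent.VB.StVB

/-!
# VD2: descent of unramifiedness in the tower (helper84)
-/

set_option autoImplicit false

namespace Pool.Agent.VB

open Pool.Agent.RI

namespace VD2

/-- a `p`-th root of unity is in every field which contains `ζ` -/
lemma root_mem {p : ℕ} [Fact p.Prime] {F : IntermediateField ℚ ℂ} {ζ : ℂ} (hζ : ζ ∈ F)
    (hp : IsPrimitiveRoot ζ p) {η : ℂ} (h : η ^ p = 1) : η ∈ F := by
  have : NeZero p := ⟨(Fact.out : p.Prime).ne_zero⟩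
  obtain ⟨i, -, rfl⟩ := hp.eq_pow_of_pow_eq_one h
  exact pow_mem hζ i

lemma pow_act {F : IntermediateField ℚ ℂ} {σ : ℂ ≃+* ℂ} (hσ : Fixes F σ) {η y : ℂ} (hη : η ∈ F)
    (h : σ y = η * y) (k : ℕ) : (σ ^ k) y = η ^ k * y := by
  induction k with
  | zero =>
    rw [pow_zero, pow_zero, one_mul]
    rfl
  | succ k ih =>
    have e1 : (σ ^ (k + 1)) y = (σ ^ k) (σ y) := by
      rw [pow_succ]
      rfl
    rw [e1, h, map_mul, ih, fixes_pow hσ k η hη]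
    ring

/-- powers of two automorphisms which agree on a stable field agree -/
lemma pow_agree {K : IntermediateField ℚ ℂ} {σ τ : ℂ ≃+* ℂ} (h : ∀ x ∈ K, σ x = τ x)
    (hs : ∀ x ∈ K, τ x ∈ K) (k : ℕ) : ∀ x ∈ K, (σ ^ k) x = (τ ^ k) x := by
  induction k with
  | zero =>
    intro x _
    rw [pow_zero, pow_zero]
  | succ k ih =>
    intro x hx
    have e1 : (σ ^ (k + 1)) x = (σ ^ k) (σ x) := by
      rw [pow_succ]
      rfl
    have e2 : (τ ^ (k + 1)) x = (τ ^ k) (τ x) := by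
      rw [pow_succ]
      rfl
    rw [e1, e2, h x hx, ih _ (hs x hx)]

/-- two automorphisms which agree on a field -/
lemma agree_fix {K : IntermediateField ℚ ℂ} {σ τ : ℂ ≃+* ℂ} (h : ∀ x ∈ K, σ x = τ x) :
    Fixes K (τ⁻¹ * σ) := by
  intro x hx
  show τ.symm (σ x) = x
  rw [h x hx]
  exact τ.symm_apply_apply x

lemma agree_of_fix {K : IntermediateField ℚ ℂ} {σ τ : ℂ ≃+* ℂ} (h : Fixes K (τ⁻¹ * σ)) :
    ∀ x ∈ K, σ x = τ x := by
  intro x hx
  have h3 : τ.symm (σ x) = x := h x hx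
  have h4 : τ (τ.symm (σ x)) = σ x := τ.apply_symm_apply _
  rw [h3] at h4
  exact h4.symm

end VD2

open VD2 in
theorem tb_VD2 (hMUL : Sb_MUL) (hCRD : Sb_CRD) : Sb_VD2 := by
  intro p hpf F B n₁ γ hT j m x y V hx hx0 hy hjm hTI
  have hp0 : p ≠ 0 := (Fact.out : p.Prime).ne_zero
  obtain ⟨ζ, hζF, hζ⟩ := hT.zeta
  have hy0 : y ≠ 0 := by
    rintro rfl
    rw [zero_pow hp0] at hy
    exact hx0 hy.symm
  have hfj := hT.fd (n₁ + j)
  have hfm := hT.fd (n₁ + m)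
  have h01 : F ⊔ B (n₁ + j) ≤ F ⊔ B (n₁ + (j + 1)) := sup_le_sup_left (hT.mono (by omega)) F
  have h1m : F ⊔ B (n₁ + (j + 1)) ≤ F ⊔ B (n₁ + m) := sup_le_sup_left (hT.mono (by omega)) F
  have hF0 : F ≤ F ⊔ B (n₁ + j) := le_sup_left
  have hgen := hT.gen (j + 1) m hjm
  have htot : (p : ℂ) ∈ V.nonunits → ∀ σ : ℂ ≃+* ℂ, Fixes (F ⊔ B (n₁ + j)) σ →
      Inr V (F ⊔ B (n₁ + m)) σ := fun h σ hσ => hT.tot V h j m σ hσ
  have hunl : (p : ℂ) ∉ V.nonunits → TI V (F ⊔ B (n₁ + (j + 1))) (F ⊔ B (n₁ + m)) :=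
    fun h => hT.unl V h (j + 1) m
  have hfix : Fixes (F ⊔ B (n₁ + j)) (γ ^ p ^ j) := hT.fix j
  have hnF : Nrm (F ⊔ B (n₁ + j)) (F ⊔ B (n₁ + m)) := by
    refine nrm_sup ?_ (nrm_mono bot_le (hT.nrm _))
    exact nrm_mono hF0 (nrm_self F)
  generalize F ⊔ B (n₁ + j) = L₀ at *
  generalize F ⊔ B (n₁ + (j + 1)) = L₁ at *
  generalize F ⊔ B (n₁ + m) = Lm at *
  have h0m : L₀ ≤ Lm := h01.trans h1m
  -- the field `N`
  have hyi : IsIntegral ℚ y := by
    have h1 : IsIntegral ℚ x := by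
      have h2 : IsIntegral ℚ (⟨x, hx⟩ : L₀) := Algebra.IsIntegral.isIntegral _
      exact h2.map (IntermediateField.val L₀)
    rw [← hy] at h1
    exact h1.of_pow (Nat.pos_of_ne_zero hp0)
  have hfy : FiniteDimensional ℚ (IntermediateField.adjoin ℚ {y}) :=
    IntermediateField.adjoin.finiteDimensional hyi
  have hfN : FiniteDimensional ℚ ↥(adj Lm y) := IntermediateField.finiteDimensional_sup _ _
  have hroot : ∀ τ : ℂ ≃+* ℂ, Fixes L₀ τ → (τ y / y) ^ p = 1 := by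
    intro τ hτ
    rw [div_pow, ← map_pow, hy, hτ x hx, div_self hx0]
  have hrF : ∀ τ : ℂ ≃+* ℂ, Fixes L₀ τ → τ y / y ∈ F := fun τ hτ => root_mem hζF hζ (hroot τ hτ)
  have hye : ∀ τ : ℂ ≃+* ℂ, τ y = (τ y / y) * y := fun τ => by field_simp
  have hnadj : ∀ K : IntermediateField ℚ ℂ, F ≤ K → Nrm L₀ K → Nrm L₀ (adj K y) := by
    intro K hFK hK σ hσ
    have h1 : adj K y ≤ PreF σ (adj K y) := by
      refine adj_le (fun z hz => ?_) ?_
      · rw [mem_PreF]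
        exact le_adj K y (hK σ hσ z hz)
      · rw [mem_PreF, hye σ]
        exact mul_mem (le_adj K y (hFK (hrF σ hσ))) (mem_adj K y)
    exact fun z hz => h1 hz
  have hnN : Nrm L₀ (adj Lm y) := hnadj Lm (hF0.trans h0m) hnF
  have hmN : Lm ≤ adj Lm y := le_adj Lm y
  -- the claim
  have claim : ∀ σ : ℂ ≃+* ℂ, Fixes L₁ σ → Inr V (adj Lm y) σ → σ y = y := by
    intro σ hσ hI
    by_cases hV : (p : ℂ) ∈ V.nonunits
    · -- the numbers
      have c1 := (hMUL V L₀ Lm (adj Lm y) h0m hmN hnF hnN).1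
      have c2 : cI V Lm (adj Lm y) = 1 := ((hCRD Lm (adj Lm y) hmN).2.2.2.2 V).2.2.1.2 hTI
      have c3 : cI V L₀ Lm = cR L₀ Lm := ((hCRD L₀ Lm h0m).2.2.2.2 V).2.2.2 (htot hV)
      have hfin := (hCRD L₀ Lm h0m).2.2.2.1
      have hfin2 := (hCRD L₀ (adj Lm y) (h0m.trans hmN)).2.2.2.1
      rw [c2, one_mul, c3] at c1
      -- the restriction map
      let ρ : {f : ↥(adj Lm y) → ℂ // ∃ σ : ℂ ≃+* ℂ, Fixes L₀ σ ∧ Inr V (adj Lm y) σ ∧
          ∀ z : ↥(adj Lm y), f z = σ z} →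
          {f : Lm → ℂ // ∃ σ : ℂ ≃+* ℂ, Fixes L₀ σ ∧ ∀ z : Lm, f z = σ z} := fun f =>
        ⟨fun z => f.1 ⟨z.1, hmN z.2⟩, by
          obtain ⟨τ, h1, -, h3⟩ := f.2
          exact ⟨τ, h1, fun z => h3 ⟨z.1, hmN z.2⟩⟩⟩
      have hρ : Function.Injective ρ := by
        intro f g hfg
        obtain ⟨τ, t1, t2, t3⟩ := f.2
        obtain ⟨κ, k1, k2, k3⟩ := g.2
        have e1 : ∀ z ∈ Lm, τ z = κ z := by
          intro z hz
          have e2 := congrFun (congrArg Subtype.val hfg) ⟨z, hz⟩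
          have e3 : f.1 ⟨z, hmN hz⟩ = g.1 ⟨z, hmN hz⟩ := e2
          rw [t3, k3] at e3
          exact e3
        have e4 : Fixes (adj Lm y) (κ⁻¹ * τ) := by
          refine hTI _ (agree_fix e1) ?_
          exact inr_mul (inr_inv k2 (hnN κ⁻¹ (fixes_inv k1))) t2 (hnN τ t1)
        have e5 := agree_of_fix e4
        refine Subtype.ext (funext fun z => ?_)
        rw [t3, k3]
        exact e5 z z.2
      have hbij : Function.Bijective ρ := by
        have := hfin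
        have hcard : Nat.card {f : ↥(adj Lm y) → ℂ // ∃ σ : ℂ ≃+* ℂ, Fixes L₀ σ ∧
            Inr V (adj Lm y) σ ∧ ∀ z : ↥(adj Lm y), f z = σ z} =
            Nat.card {f : Lm → ℂ // ∃ σ : ℂ ≃+* ℂ, Fixes L₀ σ ∧ ∀ z : Lm, f z = σ z} := c1
        exact (Nat.bijective_iff_injective_and_card ρ).2 ⟨hρ, hcard⟩
      obtain ⟨f, hf⟩ := hbij.2 ⟨fun z => (γ ^ p ^ j) z, γ ^ p ^ j, hfix, fun _ => rfl⟩
      obtain ⟨τ, t1, t2, t3⟩ := f.2
      have hτ : ∀ z ∈ Lm, τ z = (γ ^ p ^ j) z := by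
        intro z hz
        have e2 := congrFun (congrArg Subtype.val hf) ⟨z, hz⟩
        have e3 : f.1 ⟨z, hmN hz⟩ = (γ ^ p ^ j) z := e2
        rw [t3] at e3
        exact e3
      obtain ⟨i, hi⟩ := hgen σ hσ
      have hpw : γ ^ (p ^ (j + 1) * i) = (γ ^ p ^ j) ^ (p * i) := by
        rw [← pow_mul]
        congr 1
        ring
      have hστ : ∀ z ∈ Lm, σ z = (τ ^ (p * i)) z := by
        intro z hz
        rw [hi z hz, hpw]
        exact (pow_agree hτ (hnF _ hfix) (p * i) z hz).symm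
      have hτpN : ∀ z ∈ adj Lm y, (τ ^ (p * i)) z ∈ adj Lm y :=
        hnN _ (fixes_pow t1 _)
      have hIτ : Inr V (adj Lm y) (τ ^ (p * i)) := inr_pow t2 (hnN τ t1) (p * i)
      have e4 : Fixes (adj Lm y) ((τ ^ (p * i))⁻¹ * σ) := by
        refine hTI _ (agree_fix hστ) ?_
        exact inr_mul (inr_inv hIτ (hnN _ (fixes_inv (fixes_pow t1 _)))) hI
          (hnN σ (fixes_mono h01 hσ))
      have e5 := agree_of_fix e4 y (mem_adj Lm y)
      rw [e5, pow_act (fixes_mono hF0 t1) (hrF τ t1) (hye τ) (p * i), pow_mul, hroot τ t1,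
        one_pow, one_mul]
    · exact hTI σ (hunl hV σ hσ (inr_mono hmN hI)) hI y (mem_adj Lm y)
  -- the conclusion
  have hEN : adj L₁ y ≤ adj Lm y := adj_le (h1m.trans hmN) (mem_adj Lm y)
  have h1E : L₁ ≤ adj L₁ y := le_adj L₁ y
  have hnE : Nrm L₁ (adj L₁ y) := by
    refine nrm_adj fun σ hσ => ?_
    rw [hye σ]
    exact mul_mem (le_adj _ _ (h01 (hF0 (hrF σ (fixes_mono h01 hσ))))) (mem_adj _ _)
  have d1 := (hMUL V L₁ (adj L₁ y) (adj Lm y) h1E hEN hnE (nrm_mono h01 hnN)).1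
  have d2 : cI V L₁ (adj Lm y) = cI V (adj L₁ y) (adj Lm y) := by
    unfold cI
    refine Nat.card_congr (Equiv.subtypeEquivRight fun f => ?_)
    constructor
    · rintro ⟨σ, s1, s2, s3⟩
      exact ⟨σ, fixes_adj s1 (claim σ s1 s2), s2, s3⟩
    · rintro ⟨σ, s1, s2, s3⟩
      exact ⟨σ, fixes_mono h1E s1, s2, s3⟩
  have d3 : 0 < cI V (adj L₁ y) (adj Lm y) := ((hCRD (adj L₁ y) (adj Lm y) hEN).2.2.2.2 V).1
  have hfE : FiniteDimensional ℚ ↥(adj L₁ y) :=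
    FiniteDimensional.of_injective (IntermediateField.inclusion hEN).toLinearMap
      (IntermediateField.inclusion hEN).injective
  refine ((hCRD L₁ (adj L₁ y) h1E).2.2.2.2 V).2.2.1.1 ?_
  rw [d2] at d1
  have d4 : cI V (adj L₁ y) (adj Lm y) * 1 =
      cI V (adj L₁ y) (adj Lm y) * cI V L₁ (adj L₁ y) := by rw [mul_one]; exact d1
  exact (Nat.eq_of_mul_eq_mul_left d3 d4).symm

end Pool.Agent.VB
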