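import Pool.Agent.VB.V_FRC
import Pool.Agent.VB.V_CRD
import Pool.Agent.VB.V_NRM
import Pool.Agent.VB.V_CIR
import Pool.Agent.VB.V_MUL
import Pool.Agent.VB.V_UNR
import Pool.Agent.VB.V_CYQ
import Pool.Agent.VB.V_DEG
import Pool.Agent.VB.V_GAM
import Pool.Agent.VB.V_TOT
import Pool.Agent.VB.V_TOW
import Pool.Agent.VB.V_LIM
import Pool.Agent.VB.V_DGR
import Pool.Agent.VB.V_VD2
import Pool.Agent.VB.V_VD1
import Pool.Agent.VB.V_KUF
import Pool.Agent.VB.V_KDX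
import Pool.Agent.VB.V_KFI
import Pool.Agent.VB.V_ABS
import Pool.Agent.VB.V_CGP
import Pool.Agent.VB.V_GRO
import Pool.Agent.VB.V_IDX
import Pool.Agent.VB.V_DLB
import Pool.Agent.VB.V_UIX
import Pool.Agent.VB.V_SPN
import Pool.Agent.VB.V_INA
import Pool.Agent.VB.V_FQC
import Pool.Agent.VB.V_INJ
import Pool.Agent.VB.V_CNT
import Pool.Agent.VB.V_BND
import Pool.Agent.VB.V_FNP
import Pool.Agent.VB.V_RED
import Pool.Agent.VB.V_TCQ
import Pool.Agent.VB.VFinal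
import Pool.Agent.HB.HBAll

/-!
# VB: all statements (helper51)

`Sb_FQI` is the first inequality for unramified cyclic extensions (block HB).
-/

set_option autoImplicit false

namespace Pool.Agent.VB

theorem v_FQI : Sb_FQI := Pool.Agent.HB.h_FIQ

theorem v_FRC : Sb_FRC := tb_FRC

theorem v_CRD : Sb_CRD := tb_CRD

theorem v_NRM : Sb_NRM := tb_NRM

theorem v_CIR : Sb_CIR := tb_CIR v_FRC v_NRM

theorem v_MUL : Sb_MUL := tb_MUL v_CRD v_CIR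

theorem v_UNR : Sb_UNR := tb_UNR v_CIR v_CRD

theorem v_CYQ : Sb_CYQ := tb_CYQ v_FRC v_MUL

theorem v_DEG : Sb_DEG := tb_DEG

theorem v_GAM : Sb_GAM := tb_GAM v_CRD

theorem v_TOT : Sb_TOT := tb_TOT v_MUL v_CRD v_CYQ

theorem v_TOW : Sb_TOW := tb_TOW v_DEG v_GAM v_TOT v_CYQ

theorem v_LIM : Sb_LIM := tb_LIM

theorem v_DGR : Sb_DGR := tb_DGR v_MUL

theorem v_VD2 : Sb_VD2 := tb_VD2 v_MUL v_CRD

theorem v_VD1 : Sb_VD1 := tb_VD1 v_VD2 v_LIM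

theorem v_KUF : Sb_KUF := tb_KUF

theorem v_KDX : Sb_KDX := tb_KDX

theorem v_KFI : Sb_KFI := tb_KFI

theorem v_ABS : Sb_ABS := tb_ABS

theorem v_CGP : Sb_CGP := tb_CGP

theorem v_GRO : Sb_GRO := tb_GRO

theorem v_IDX : Sb_IDX := tb_IDX

theorem v_DLB : Sb_DLB := tb_DLB

theorem v_UIX : Sb_UIX := tb_UIX v_IDX v_DLB

theorem v_SPN : Sb_SPN := tb_SPN

theorem v_INA : Sb_INA := tb_INA v_IDX v_DLB v_SPN

theorem v_FQC : Sb_FQC := tb_FQC v_FQI v_UIX v_UNR v_NRM v_CRD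

theorem v_INJ : Sb_INJ := tb_INJ v_INA v_UNR v_NRM v_CRD

theorem v_CNT : Sb_CNT := tb_CNT v_FQC v_INJ v_CGP v_KFI v_CRD

theorem v_BND : Sb_BND := tb_BND v_KDX v_VD2 v_DGR v_CNT v_LIM

theorem v_FNP : Sb_FNP := tb_FNP v_TOW v_LIM v_DGR v_BND v_ABS v_GRO v_VD1 v_KUF

theorem v_RED : Sb_RED := tb_RED v_NRM

theorem v_TCQ : Sb_TCQ := tb_TCQ

end Pool.Agent.VB
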