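import Pool.Agent.RI.Basic
import Pool.Agent.HB.Defs

/-!
# VB: unramified extensions of degree `p` of the cyclotomic `ℤ_p`-extension: definitions (helper51)

All fields are subfields of `ℂ` (`IntermediateField ℚ ℂ`), also infinite algebraic extensions of `ℚ`. Galois
groups and inertia groups are described by automorphisms `σ : ℂ ≃+* ℂ` and valuation rings `V` of `ℂ`:

* `Fixes L σ`: `σ x = x` for `x ∈ L`.
* `Inr V M σ`: `σ x - x` is a nonunit of `V` for all `x ∈ M ∩ V`: `σ` is in the inertia group of `V` on `M`.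
* `TI V L M`: an automorphism which fixes `L` and is in the inertia group of `V` on `M` is trivial on `M`: the
  inertia group of `V` in `M / L` is trivial. `UNR L M`: this holds for all `V`: `M / L` is unramified (`M / L` Galois).
* `Nrm L M`: `M` is stable under the automorphisms which fix `L` (for algebraic `M / L`: normal).
* `cR L M`, `cI V L M`: the number of restrictions to `M` of the automorphisms which fix `L` (and are inert).
* `adj L y = L(y)`. `InD p L x`: `x ∈ L`, `x ≠ 0` and `L(x^(1/p)) / L` is unramified.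
* `UM p E`: the set of all unramified Galois extensions `M / E` of degree `p`.
* `Tow p F B n₁ γ`: the tower `F_j = F B_(n₁+j)`, `γ^(p^j)` generates `Gal(F_∞ / F_j)`, the primes above `p` are
  totally ramified, the others are unramified.

The group structure of `ℂ ≃+* ℂ` is `(σ * τ) x = σ (τ x)`.
-/

set_option autoImplicit false

open NumberField IsDedekindDomain
open scoped nonZeroDivisors Pointwise

namespace Pool.Agent.VB

open Pool.Agent.RI

noncomputable section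

/-! ## Automorphisms -/

/-- `σ` fixes all elements of `L` -/
def Fixes (L : IntermediateField ℚ ℂ) (σ : ℂ ≃+* ℂ) : Prop := ∀ x ∈ L, σ x = x

/-- `σ` is in the inertia group of `V` on `M` -/
def Inr (V : ValuationSubring ℂ) (M : IntermediateField ℚ ℂ) (σ : ℂ ≃+* ℂ) : Prop :=
  ∀ x ∈ M, x ∈ V → σ x - x ∈ V.nonunits

/-- the inertia group of `V` in `M / L` is trivial -/
def TI (V : ValuationSubring ℂ) (L M : IntermediateField ℚ ℂ) : Prop :=
  ∀ σ : ℂ ≃+* ℂ, Fixes L σ → Inr V M σ → Fixes M σ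

/-- all inertia groups are trivial -/
def UNR (L M : IntermediateField ℚ ℂ) : Prop := ∀ V : ValuationSubring ℂ, TI V L M

/-- `M` is stable under all automorphisms that fix `L` -/
def Nrm (L M : IntermediateField ℚ ℂ) : Prop := ∀ σ : ℂ ≃+* ℂ, Fixes L σ → ∀ x ∈ M, σ x ∈ M

/-- the number of restrictions to `M` of the automorphisms that fix `L` -/
def cR (L M : IntermediateField ℚ ℂ) : ℕ :=
  Nat.card {f : M → ℂ // ∃ σ : ℂ ≃+* ℂ, Fixes L σ ∧ ∀ x : M, f x = σ x}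

/-- the order of the inertia group of `V` in `M / L` -/
def cI (V : ValuationSubring ℂ) (L M : IntermediateField ℚ ℂ) : ℕ :=
  Nat.card {f : M → ℂ // ∃ σ : ℂ ≃+* ℂ, Fixes L σ ∧ Inr V M σ ∧ ∀ x : M, f x = σ x}

/-- the elements fixed by `σ` -/
def FixF (σ : ℂ ≃+* ℂ) : IntermediateField ℚ ℂ :=
  { carrier := {x | σ x = x}
    mul_mem' := fun {a b} (ha : σ a = a) (hb : σ b = b) => by
      show σ (a * b) = a * b
      rw [map_mul, ha, hb]
    one_mem' := map_one σ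
    add_mem' := fun {a b} (ha : σ a = a) (hb : σ b = b) => by
      show σ (a + b) = a + b
      rw [map_add, ha, hb]
    zero_mem' := map_zero σ
    algebraMap_mem' := fun r => by
      show σ ((r : ℚ) : ℂ) = ((r : ℚ) : ℂ)
      exact map_ratCast σ r
    inv_mem' := fun a (ha : σ a = a) => by
      show σ a⁻¹ = a⁻¹
      rw [map_inv₀, ha] }

lemma mem_FixF {σ : ℂ ≃+* ℂ} {x : ℂ} : x ∈ FixF σ ↔ σ x = x := Iff.rfl

lemma fixes_iff {L : IntermediateField ℚ ℂ} {σ : ℂ ≃+* ℂ} : Fixes L σ ↔ L ≤ FixF σ := Iff.rfl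

lemma fixes_mono {L L' : IntermediateField ℚ ℂ} (h : L ≤ L') {σ : ℂ ≃+* ℂ} (hσ : Fixes L' σ) :
    Fixes L σ := fun x hx => hσ x (h hx)

lemma fixes_bot (σ : ℂ ≃+* ℂ) : Fixes ⊥ σ := fixes_iff.2 bot_le

lemma fixes_sup {L L' : IntermediateField ℚ ℂ} {σ : ℂ ≃+* ℂ} (h : Fixes L σ) (h' : Fixes L' σ) :
    Fixes (L ⊔ L') σ := fixes_iff.2 (sup_le (fixes_iff.1 h) (fixes_iff.1 h'))

lemma fixes_iSup {B : ℕ → IntermediateField ℚ ℂ} {σ : ℂ ≃+* ℂ} (h : ∀ n, Fixes (B n) σ) :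
    Fixes (⨆ n, B n) σ := fixes_iff.2 (iSup_le fun n => fixes_iff.1 (h n))

lemma fixes_one (L : IntermediateField ℚ ℂ) : Fixes L 1 := fun _ _ => rfl

lemma fixes_mul {L : IntermediateField ℚ ℂ} {σ τ : ℂ ≃+* ℂ} (h : Fixes L σ) (h' : Fixes L τ) :
    Fixes L (σ * τ) := fun x hx => by
  show σ (τ x) = x
  rw [h' x hx, h x hx]

lemma fixes_inv {L : IntermediateField ℚ ℂ} {σ : ℂ ≃+* ℂ} (h : Fixes L σ) : Fixes L σ⁻¹ :=
  fun x hx => by
  show σ.symm x = x
  rw [RingEquiv.symm_apply_eq]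
  exact (h x hx).symm

lemma fixes_pow {L : IntermediateField ℚ ℂ} {σ : ℂ ≃+* ℂ} (h : Fixes L σ) (n : ℕ) :
    Fixes L (σ ^ n) := by
  induction n with
  | zero => exact fixes_one L
  | succ n ih => rw [pow_succ]; exact fixes_mul ih h

/-! ## Inertia -/

lemma nonunits_sub {V : ValuationSubring ℂ} {a b : ℂ} (ha : a ∈ V.nonunits) (hb : b ∈ V.nonunits) :
    a - b ∈ V.nonunits := by
  rw [ValuationSubring.mem_nonunits_iff] at *
  exact (Valuation.map_sub _ a b).trans_lt (max_lt ha hb)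

lemma nonunits_add {V : ValuationSubring ℂ} {a b : ℂ} (ha : a ∈ V.nonunits) (hb : b ∈ V.nonunits) :
    a + b ∈ V.nonunits := by
  rw [ValuationSubring.mem_nonunits_iff] at *
  exact (Valuation.map_add _ a b).trans_lt (max_lt ha hb)

lemma nonunits_mul {V : ValuationSubring ℂ} {a b : ℂ} (ha : a ∈ V) (hb : b ∈ V.nonunits) :
    a * b ∈ V.nonunits := by
  rw [ValuationSubring.mem_nonunits_iff] at *
  rw [map_mul]
  exact lt_of_le_of_lt (mul_le_of_le_one_left' ((V.valuation_le_one_iff a).2 ha)) hb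

lemma nonunits_le {V : ValuationSubring ℂ} {a : ℂ} (ha : a ∈ V.nonunits) : a ∈ V := by
  rw [ValuationSubring.mem_nonunits_iff] at ha
  exact (V.valuation_le_one_iff a).1 ha.le

lemma inr_mono {V : ValuationSubring ℂ} {M M' : IntermediateField ℚ ℂ} (h : M' ≤ M)
    {σ : ℂ ≃+* ℂ} (hσ : Inr V M σ) : Inr V M' σ := fun x hx hV => hσ x (h hx) hV

/-- inertia groups are closed under products -/
lemma inr_mul {V : ValuationSubring ℂ} {M : IntermediateField ℚ ℂ} {σ τ : ℂ ≃+* ℂ}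
    (hσ : Inr V M σ) (hτ : Inr V M τ) (h : ∀ x ∈ M, τ x ∈ M) : Inr V M (σ * τ) := by
  intro x hx hV
  have h1 := hτ x hx hV
  have h2 : τ x ∈ V := by
    have : τ x = (τ x - x) + x := by ring
    rw [this]
    exact V.add_mem _ _ (nonunits_le h1) hV
  have h3 := hσ (τ x) (h x hx) h2
  have h4 : (σ * τ) x - x = (σ (τ x) - τ x) + (τ x - x) := by
    show σ (τ x) - x = _
    ring
  rw [h4]
  exact nonunits_add h3 h1

lemma inr_one (V : ValuationSubring ℂ) (M : IntermediateField ℚ ℂ) : Inr V M 1 := by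
  intro x _ _
  show x - x ∈ V.nonunits
  rw [sub_self, ValuationSubring.mem_nonunits_iff, map_zero]
  exact zero_lt_one

/-- inertia groups are closed under inverses -/
lemma inr_inv {V : ValuationSubring ℂ} {M : IntermediateField ℚ ℂ} {τ : ℂ ≃+* ℂ}
    (hτ : Inr V M τ) (h : ∀ x ∈ M, (τ⁻¹ : ℂ ≃+* ℂ) x ∈ M) : Inr V M τ⁻¹ := by
  intro x hx hV
  set y := (τ⁻¹ : ℂ ≃+* ℂ) x with hy
  have hτy : τ y = x := τ.apply_symm_apply x
  have hyM : y ∈ M := h x hx
  have hyV : y ∈ V := by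
    by_contra hn
    have hy0 : y ≠ 0 := by
      rintro h0
      rw [h0] at hn
      exact hn V.zero_mem
    have h1 : y⁻¹ ∈ V.nonunits := by
      rw [ValuationSubring.mem_nonunits_iff, map_inv₀]
      rw [← V.valuation_le_one_iff, not_le] at hn
      exact inv_lt_one_of_one_lt₀ hn
    have h2 := hτ y⁻¹ (M.inv_mem hyM) (nonunits_le h1)
    rw [map_inv₀, hτy] at h2
    have h3 : x⁻¹ ∈ V.nonunits := by
      have : x⁻¹ = (x⁻¹ - y⁻¹) + y⁻¹ := by ring
      rw [this]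
      exact nonunits_add h2 h1
    have h4 := nonunits_mul hV h3
    have hx0 : x ≠ 0 := by
      rintro rfl
      rw [map_zero] at hy
      exact hy0 hy
    rw [mul_inv_cancel₀ hx0, ValuationSubring.mem_nonunits_iff, map_one] at h4
    exact lt_irrefl _ h4
  have h5 := hτ y hyM hyV
  rw [hτy] at h5
  have h6 : y - x = 0 - (x - y) := by ring
  rw [h6]
  refine nonunits_sub ?_ h5
  rw [ValuationSubring.mem_nonunits_iff, map_zero]
  exact zero_lt_one

lemma inr_pow {V : ValuationSubring ℂ} {M : IntermediateField ℚ ℂ} {σ : ℂ ≃+* ℂ}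
    (hσ : Inr V M σ) (h : ∀ x ∈ M, σ x ∈ M) (n : ℕ) : Inr V M (σ ^ n) := by
  induction n with
  | zero => exact inr_one V M
  | succ n ih => rw [pow_succ]; exact inr_mul ih hσ h

/-- base change -/
lemma ti_base {V : ValuationSubring ℂ} {L M L' : IntermediateField ℚ ℂ} (h : TI V L M)
    (hL : L ≤ L') : TI V L' (L' ⊔ M) := fun σ hσ hI =>
  fixes_sup hσ (h σ (fixes_mono hL hσ) (inr_mono le_sup_right hI))

/-- compositum -/
lemma ti_sup {V : ValuationSubring ℂ} {L M M' : IntermediateField ℚ ℂ} (h : TI V L M)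
    (h' : TI V L M') : TI V L (M ⊔ M') := fun σ hσ hI =>
  fixes_sup (h σ hσ (inr_mono le_sup_left hI)) (h' σ hσ (inr_mono le_sup_right hI))

lemma ti_self (V : ValuationSubring ℂ) (L : IntermediateField ℚ ℂ) : TI V L L :=
  fun _ hσ _ => hσ

/-! ## Normality -/

/-- the elements mapped to `N` by `σ` -/
def PreF (σ : ℂ ≃+* ℂ) (N : IntermediateField ℚ ℂ) : IntermediateField ℚ ℂ :=
  { carrier := {x | σ x ∈ N}
    mul_mem' := fun {a b} (ha : σ a ∈ N) (hb : σ b ∈ N) => by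
      show σ (a * b) ∈ N
      rw [map_mul]
      exact mul_mem ha hb
    one_mem' := by
      show σ 1 ∈ N
      rw [map_one]
      exact one_mem N
    add_mem' := fun {a b} (ha : σ a ∈ N) (hb : σ b ∈ N) => by
      show σ (a + b) ∈ N
      rw [map_add]
      exact add_mem ha hb
    zero_mem' := by
      show σ 0 ∈ N
      rw [map_zero]
      exact zero_mem N
    algebraMap_mem' := fun r => by
      show σ ((r : ℚ) : ℂ) ∈ N
      rw [map_ratCast σ r]
      exact N.algebraMap_mem r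
    inv_mem' := fun a (ha : σ a ∈ N) => by
      show σ a⁻¹ ∈ N
      rw [map_inv₀]
      exact inv_mem ha }

lemma mem_PreF {σ : ℂ ≃+* ℂ} {N : IntermediateField ℚ ℂ} {x : ℂ} : x ∈ PreF σ N ↔ σ x ∈ N :=
  Iff.rfl

lemma nrm_self (L : IntermediateField ℚ ℂ) : Nrm L L := fun σ hσ x hx => by
  rw [hσ x hx]
  exact hx

lemma nrm_mono {L L' M : IntermediateField ℚ ℂ} (h : L ≤ L') (hM : Nrm L M) : Nrm L' M :=
  fun σ hσ => hM σ (fixes_mono h hσ)

lemma nrm_sup {L M M' : IntermediateField ℚ ℂ} (h : Nrm L M) (h' : Nrm L M') :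
    Nrm L (M ⊔ M') := by
  intro σ hσ
  have h1 : M ⊔ M' ≤ PreF σ (M ⊔ M') :=
    sup_le (fun x hx => (le_sup_left : M ≤ M ⊔ M') (h σ hσ x hx))
      (fun x hx => (le_sup_right : M' ≤ M ⊔ M') (h' σ hσ x hx))
  exact fun x hx => h1 hx

/-! ## Kummer extensions -/

/-- `L(y)` -/
def adj (L : IntermediateField ℚ ℂ) (y : ℂ) : IntermediateField ℚ ℂ :=
  L ⊔ IntermediateField.adjoin ℚ {y}

lemma le_adj (L : IntermediateField ℚ ℂ) (y : ℂ) : L ≤ adj L y := le_sup_left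

lemma mem_adj (L : IntermediateField ℚ ℂ) (y : ℂ) : y ∈ adj L y :=
  (le_sup_right : _ ≤ adj L y) (IntermediateField.mem_adjoin_simple_self ℚ y)

lemma adj_le {L M : IntermediateField ℚ ℂ} {y : ℂ} (h : L ≤ M) (hy : y ∈ M) : adj L y ≤ M :=
  sup_le h (IntermediateField.adjoin_le_iff.2 (Set.singleton_subset_iff.2 hy))

lemma fixes_adj {L : IntermediateField ℚ ℂ} {y : ℂ} {σ : ℂ ≃+* ℂ} (h : Fixes L σ)
    (hy : σ y = y) : Fixes (adj L y) σ := fixes_iff.2 (adj_le (fixes_iff.1 h) hy)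

/-- `L(y)` is stable if all conjugates of `y` are in `L(y)` -/
lemma nrm_adj {L : IntermediateField ℚ ℂ} {y : ℂ}
    (h : ∀ σ : ℂ ≃+* ℂ, Fixes L σ → σ y ∈ adj L y) : Nrm L (adj L y) := by
  intro σ hσ
  have h1 : adj L y ≤ PreF σ (adj L y) := adj_le (fun x hx => by
    rw [mem_PreF, hσ x hx]
    exact le_adj L y hx) (h σ hσ)
  exact fun x hx => h1 hx

/-- `x ∈ L`, `x ≠ 0` and `L(x^(1/p)) / L` is unramified -/
def InD (p : ℕ) (L : IntermediateField ℚ ℂ) (x : ℂ) : Prop :=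
  x ∈ L ∧ x ≠ 0 ∧ ∀ y : ℂ, y ^ p = x → UNR L (adj L y)

/-- the `p`-th powers of the nonzero elements of `L` -/
def PL (p : ℕ) (L : IntermediateField ℚ ℂ) : Subgroup ℂˣ where
  carrier := {x | ∃ t : ℂˣ, (t : ℂ) ∈ L ∧ t ^ p = x}
  mul_mem' := by
    rintro a b ⟨t, ht, rfl⟩ ⟨u, hu, rfl⟩
    exact ⟨t * u, by rw [Units.val_mul]; exact mul_mem ht hu, mul_pow t u p⟩
  one_mem' := ⟨1, one_mem L, one_pow p⟩
  inv_mem' := by
    rintro a ⟨t, ht, rfl⟩
    exact ⟨t⁻¹, by rw [Units.val_inv_eq_inv_val]; exact inv_mem ht, inv_pow t p⟩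

/-- totally complex -/
def TCx (L : IntermediateField ℚ ℂ) : Prop :=
  ∀ φ : L →+* ℂ, ∃ x : L, (starRingEnd ℂ) (φ x) ≠ φ x

lemma tcx_mono {L M : IntermediateField ℚ ℂ} (h : L ≤ M) (hL : TCx L) : TCx M := by
  intro φ
  obtain ⟨x, hx⟩ := hL (φ.comp (IntermediateField.inclusion h : L →+* M))
  exact ⟨IntermediateField.inclusion h x, hx⟩

/-- the unramified Galois extensions of `E` of degree `p` -/
def UM (p : ℕ) (E : IntermediateField ℚ ℂ) : Set (IntermediateField ℚ ℂ) :=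
  {M | ∃ h : E ≤ M, IsGalois E (IntermediateField.extendScalars h) ∧
    Module.finrank E (IntermediateField.extendScalars h) = p ∧ UNR E M}

/-- `F_∞ = F ⊔ ⋃ B n` -/
def Finf (F : IntermediateField ℚ ℂ) (B : ℕ → IntermediateField ℚ ℂ) : IntermediateField ℚ ℂ :=
  F ⊔ ⨆ n, B n

lemma le_Finf (F : IntermediateField ℚ ℂ) (B : ℕ → IntermediateField ℚ ℂ) (n : ℕ) :
    F ⊔ B n ≤ Finf F B := sup_le_sup_left (le_iSup B n) F

/-- the tower `F_j = F B_(n₁+j)` -/
structure Tow (p : ℕ) (F : IntermediateField ℚ ℂ) (B : ℕ → IntermediateField ℚ ℂ) (n₁ : ℕ)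
    (γ : ℂ ≃+* ℂ) : Prop where
  fd : ∀ n, FiniteDimensional ℚ ↥(F ⊔ B n)
  fdB : ∀ n, FiniteDimensional ℚ (B n)
  lay : ∀ n, IsLayer p n (B n)
  mono : Monotone B
  nrm : ∀ n, Nrm ⊥ (B n)
  zeta : ∃ ζ ∈ F, IsPrimitiveRoot ζ p
  fix : ∀ j, Fixes (F ⊔ B (n₁ + j)) (γ ^ p ^ j)
  gen : ∀ j m, j ≤ m → ∀ σ : ℂ ≃+* ℂ, Fixes (F ⊔ B (n₁ + j)) σ →
    ∃ i : ℕ, ∀ x ∈ F ⊔ B (n₁ + m), σ x = (γ ^ (p ^ j * i)) x
  deg : ∀ j, Module.finrank ℚ ↥(F ⊔ B (n₁ + j)) = Module.finrank ℚ ↥(F ⊔ B n₁) * p ^ j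
  tot : ∀ V : ValuationSubring ℂ, (p : ℂ) ∈ V.nonunits → ∀ (j m : ℕ) (σ : ℂ ≃+* ℂ),
    Fixes (F ⊔ B (n₁ + j)) σ → Inr V (F ⊔ B (n₁ + m)) σ
  unl : ∀ V : ValuationSubring ℂ, (p : ℂ) ∉ V.nonunits → ∀ j m : ℕ,
    TI V (F ⊔ B (n₁ + j)) (F ⊔ B (n₁ + m))

end

end Pool.Agent.VB
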