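import Pool.Agent.VB.HThird
import Pool.Agent.HB.JTBase

/-!
# VB: the final statement (three parts) from the bound for all abelian extensions (helper51)
-/

set_option autoImplicit false

open NumberField

namespace Pool.Agent.VB

open Pool.Agent.JT

/-- the three parts of the final theorem for `K` -/
def Parts (p : ℕ) (K : IntermediateField ℚ ℂ) : Prop :=
  (∃ C : ℕ, ∀ (n : ℕ) (Q : IntermediateField ℚ ℂ), MuCyc.IsLayer p n Q →
      padicValNat p (MuCyc.classNo (K ⊔ Q)) ≤ C * (n + 1) ^ C) ∧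
  (∀ μ lam nu : ℝ, (∃ n₀ : ℕ, ∀ n ≥ n₀, ∀ Q : IntermediateField ℚ ℂ, MuCyc.IsLayer p n Q →
      (padicValNat p (MuCyc.classNo (K ⊔ Q)) : ℝ) = μ * (p : ℝ) ^ n + lam * n + nu) → μ = 0) ∧
  (MuCyc.unramifiedExt p (MuCyc.cycExt p K)).Finite

/-- `hall`: the bound for all finite abelian extensions of `k` -/
theorem parts_of (p : ℕ) (hp : p = 2 ∨ p = 3) (k : IntermediateField ℚ ℂ)
    (hk : Module.finrank ℚ k = 2) (hi : ∃ z ∈ k, (starRingEnd ℂ) z ≠ z)
    (hall : ∀ (K : IntermediateField ℚ ℂ) [FiniteDimensional ℚ K] (h : k ≤ K),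
      IsGalois k (IntermediateField.extendScalars h) →
      (∀ σ τ : (IntermediateField.extendScalars h) ≃ₐ[k] (IntermediateField.extendScalars h),
        σ * τ = τ * σ) →
      ∃ C : ℕ, ∀ (n : ℕ) (Q : IntermediateField ℚ ℂ), RI.IsLayer p n Q →
        padicValNat p (RI.classNo (K ⊔ Q)) ≤ C * (n + 1) ^ C)
    (K : IntermediateField ℚ ℂ) [FiniteDimensional ℚ K] (h : k ≤ K)
    (hG : IsGalois k (IntermediateField.extendScalars h))
    (hc : ∀ σ τ : (IntermediateField.extendScalars h) ≃ₐ[k] (IntermediateField.extendScalars h),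
      σ * τ = τ * σ) : Parts p K := by
  have hb := hall K h hG hc
  refine ⟨hb, fun μ lam nu hg => ?_, third p hp k hk hi hall K h hG hc⟩
  exact MUXZ.mu_zero p hp (fun Q => padicValNat p (RI.classNo (K ⊔ Q))) hb μ lam nu hg

/-- all `k`, given the bound for all `ℚ(√-d)` -/
theorem last_all {p : ℕ} (hp : p = 2 ∨ p = 3) (H : ∀ d : ℕ, Squarefree d → FinJ p d)
    (k K : IntermediateField ℚ ℂ) [FiniteDimensional ℚ K] (hk : Module.finrank ℚ k = 2)
    (hi : ∃ z ∈ k, (starRingEnd ℂ) z ≠ z) (h : k ≤ K)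
    (hG : IsGalois k (IntermediateField.extendScalars h))
    (hc : ∀ σ τ : (IntermediateField.extendScalars h) ≃ₐ[k] (IntermediateField.extendScalars h),
      σ * τ = τ * σ) : Parts p K :=
  parts_of p hp k hk hi (fun K' _ h' hG' hc' => final_all H k K' h' hk hi hG' hc') K h hG hc

/-- all `k` except `ℚ(i)` and `ℚ(√-3)` -/
theorem last_exc {p : ℕ} (hp : p = 2 ∨ p = 3)
    (H : ∀ d : ℕ, Squarefree d → d ≠ 1 → d ≠ 3 → FinJ p d)
    (k K : IntermediateField ℚ ℂ) [FiniteDimensional ℚ K] (hk : Module.finrank ℚ k = 2)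
    (hi : ∃ z ∈ k, (starRingEnd ℂ) z ≠ z) (h4 : ∀ z ∈ k, z ^ 2 ≠ -1)
    (h3 : ∀ z ∈ k, z ^ 2 ≠ -3) (h : k ≤ K)
    (hG : IsGalois k (IntermediateField.extendScalars h))
    (hc : ∀ σ τ : (IntermediateField.extendScalars h) ≃ₐ[k] (IntermediateField.extendScalars h),
      σ * τ = τ * σ) : Parts p K :=
  parts_of p hp k hk hi (fun K' _ h' hG' hc' => final_exc H k K' h' hk hi h4 h3 hG' hc')
    K h hG hc

end Pool.Agent.VB
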