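import Pool.Agent.VB.VFinal

/-!
# VB: from the bounds to the finiteness of the unramified extensions (helper51)

`k` imaginary quadratic, `p = 2, 3`. If the `p`-parts of the class numbers of the layers are bounded by a polynomial
for ALL finite abelian extensions of `k` then the cyclotomic `ℤ_p`-extension of every finite abelian extension `K` of `k`
(more generally: of every subfield `K` of a finite abelian extension of `k`) has only finitely many unramified
Galois extensions of degree `p`.
-/

set_option autoImplicit false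

open NumberField IsDedekindDomain

namespace Pool.Agent.VB

open Pool.Agent.RI

/-- the `p`-th roots of unity may be adjoined -/
theorem V_third (hFNP : Sb_FNP) (hRED : Sb_RED) (hNRM : Sb_NRM) (hTCQ : Sb_TCQ) (p : ℕ)
    (hp : p = 2 ∨ p = 3) (k : IntermediateField ℚ ℂ) (hk : Module.finrank ℚ k = 2)
    (him : ∃ z ∈ k, (starRingEnd ℂ) z ≠ z)
    (hall : ∀ (K : IntermediateField ℚ ℂ) [FiniteDimensional ℚ K], AbE k K →
      ∃ C : ℕ, ∀ (n : ℕ) (Q : IntermediateField ℚ ℂ), IsLayer p n Q →
        padicValNat p (classNo (K ⊔ Q)) ≤ C * (n + 1) ^ C)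
    (K M : IntermediateField ℚ ℂ) [FiniteDimensional ℚ M] (hM : AbE k M) (hKM : K ≤ M) :
    (UM p (cyc p K)).Finite := by
  have hp0 : 0 < p := by rcases hp with rfl | rfl <;> norm_num
  have hζ : IsPrimitiveRoot (Complex.exp (2 * Real.pi * Complex.I / p)) p :=
    Complex.isPrimitiveRoot_exp p hp0.ne'
  obtain ⟨hfd, hab⟩ := abE_zeta hNRM p hp0 hM _ hζ
  exact V_UMF hFNP hRED p hp K _ (hKM.trans le_sup_left)
    (hTCQ k _ hk him (hM.1.trans le_sup_left))
    ⟨_, (le_sup_right : _ ≤ M ⊔ IntermediateField.adjoin ℚ _)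
      (IntermediateField.mem_adjoin_simple_self ℚ _), hζ⟩ (hall _ hab)

end Pool.Agent.VB
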