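import Pool.Agent.VB.HDefs
import Pool.Agent.VB.VAll
import Pool.Agent.VB.VJoin

/-!
# VB: the third part of the final theorem in the definitions of the hand-in (helper51)
-/

set_option autoImplicit false

open NumberField

namespace Pool.Agent.VB

open Pool.Agent.RI

lemma ext_eq (p : ℕ) (K : IntermediateField ℚ ℂ) :
    MuCyc.unramifiedExt p (MuCyc.cycExt p K) = UM p (cyc p K) := rfl

/-- the third part: `hall` is the bound for all finite abelian extensions of `k` -/
theorem third (p : ℕ) (hp : p = 2 ∨ p = 3) (k : IntermediateField ℚ ℂ)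
    (hk : Module.finrank ℚ k = 2) (him : ∃ z ∈ k, (starRingEnd ℂ) z ≠ z)
    (hall : ∀ (K : IntermediateField ℚ ℂ) [FiniteDimensional ℚ K] (h : k ≤ K),
      IsGalois k (IntermediateField.extendScalars h) →
      (∀ σ τ : (IntermediateField.extendScalars h) ≃ₐ[k] (IntermediateField.extendScalars h),
        σ * τ = τ * σ) →
      ∃ C : ℕ, ∀ (n : ℕ) (Q : IntermediateField ℚ ℂ), IsLayer p n Q →
        padicValNat p (classNo (K ⊔ Q)) ≤ C * (n + 1) ^ C)
    (K : IntermediateField ℚ ℂ) [FiniteDimensional ℚ K] (h : k ≤ K)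
    (hG : IsGalois k (IntermediateField.extendScalars h))
    (hc : ∀ σ τ : (IntermediateField.extendScalars h) ≃ₐ[k] (IntermediateField.extendScalars h),
      σ * τ = τ * σ) :
    (MuCyc.unramifiedExt p (MuCyc.cycExt p K)).Finite := by
  rw [ext_eq]
  exact V_third v_FNP v_RED v_NRM v_TCQ p hp k hk him
    (fun K' _ hK' => hall K' hK'.1 hK'.2.1 hK'.2.2) K K ⟨h, hG, hc⟩ le_rfl

/-- for every totally complex number field `E` with a polynomial bound and all `p`-th roots of unity -/
theorem third_gen (p : ℕ) (hp : p = 2 ∨ p = 3) (K E : IntermediateField ℚ ℂ)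
    [FiniteDimensional ℚ E] (hKE : K ≤ E) (hTC : TCx E) (hz : ∃ ζ ∈ E, IsPrimitiveRoot ζ p)
    (hb : ∃ C : ℕ, ∀ (n : ℕ) (Q : IntermediateField ℚ ℂ), IsLayer p n Q →
      padicValNat p (classNo (E ⊔ Q)) ≤ C * (n + 1) ^ C) :
    (MuCyc.unramifiedExt p (MuCyc.cycExt p K)).Finite := by
  rw [ext_eq]
  exact V_UMF v_FNP v_RED p hp K E hKE hTC hz hb

end Pool.Agent.VB
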