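import Pool.Agent.VB.StVB

/-!
# VB: (FRC) the elements of `M ∩ V` are fractions; inertia may be tested on integers (helper46)
-/

set_option autoImplicit false

open NumberField IsDedekindDomain

namespace Pool.Agent.VB

/-- integral elements are in `V` -/
lemma frc_int (M : IntermediateField ℚ ℂ) (V : ValuationSubring ℂ) (a : 𝓞 M) :
    ((a : M) : ℂ) ∈ V := by
  have h0 : IsIntegral ℤ (a : M) := RingOfIntegers.isIntegral_coe a
  have h1 : IsIntegral ℤ ((a : M) : ℂ) := h0.map (M.val.restrictScalars ℤ)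
  have h2 : IsIntegral V ((a : M) : ℂ) := h1.tower_top
  obtain ⟨y, hy⟩ := IsIntegrallyClosed.isIntegral_iff.1 h2
  rw [← hy]
  exact y.2

/-- the prime of `V` in `𝓞 M` -/
noncomputable def frcP (M : IntermediateField ℚ ℂ) (V : ValuationSubring ℂ) : Ideal (𝓞 M) where
  carrier := {a | ((a : M) : ℂ) ∈ V.nonunits}
  add_mem' := by
    intro a b ha hb
    show (((a + b : 𝓞 M) : M) : ℂ) ∈ V.nonunits
    have : (((a + b : 𝓞 M) : M) : ℂ) = ((a : M) : ℂ) + ((b : M) : ℂ) := by push_cast; rfl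
    rw [this]
    exact nonunits_add ha hb
  zero_mem' := by
    show (((0 : 𝓞 M) : M) : ℂ) ∈ V.nonunits
    have : (((0 : 𝓞 M) : M) : ℂ) = 0 := by push_cast; rfl
    rw [this, ValuationSubring.mem_nonunits_iff, map_zero]
    exact zero_lt_one
  smul_mem' := by
    intro a b hb
    show (((a * b : 𝓞 M) : M) : ℂ) ∈ V.nonunits
    have : (((a * b : 𝓞 M) : M) : ℂ) = ((a : M) : ℂ) * ((b : M) : ℂ) := by push_cast; rfl
    rw [this]
    exact nonunits_mul (frc_int M V a) hb

lemma mem_frcP {M : IntermediateField ℚ ℂ} {V : ValuationSubring ℂ} {a : 𝓞 M} :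
    a ∈ frcP M V ↔ ((a : M) : ℂ) ∈ V.nonunits := Iff.rfl

lemma nonunits_of_mul {V : ValuationSubring ℂ} {a b : ℂ} (ha : a ∈ V) (hb : b ∈ V)
    (h : a * b ∈ V.nonunits) : a ∈ V.nonunits ∨ b ∈ V.nonunits := by
  rw [ValuationSubring.mem_nonunits_iff] at *
  rw [ValuationSubring.mem_nonunits_iff]
  rw [map_mul] at h
  have h1 := (V.valuation_le_one_iff a).2 ha
  have h2 := (V.valuation_le_one_iff b).2 hb
  by_contra hc
  push Not at hc
  have e1 : V.valuation a = 1 := le_antisymm h1 hc.1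
  have e2 : V.valuation b = 1 := le_antisymm h2 hc.2
  rw [e1, e2, mul_one] at h
  exact lt_irrefl _ h

lemma frcP_prime (M : IntermediateField ℚ ℂ) (V : ValuationSubring ℂ) : (frcP M V).IsPrime := by
  constructor
  · rw [Ideal.ne_top_iff_one]
    intro h
    rw [mem_frcP] at h
    have : (((1 : 𝓞 M) : M) : ℂ) = 1 := by push_cast; rfl
    rw [this, ValuationSubring.mem_nonunits_iff, map_one] at h
    exact lt_irrefl _ h
  · intro a b h
    rw [mem_frcP] at h
    have : (((a * b : 𝓞 M) : M) : ℂ) = ((a : M) : ℂ) * ((b : M) : ℂ) := by push_cast; rfl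
    rw [this] at h
    exact nonunits_of_mul (frc_int M V a) (frc_int M V b) h

/-- (1) fractions -/
lemma frc_one (M : IntermediateField ℚ ℂ) [FiniteDimensional ℚ M] (V : ValuationSubring ℂ)
    (x : ℂ) (hx : x ∈ M) (hV : x ∈ V) : ∃ s t : 𝓞 M, ((t : M) : ℂ) ∉ V.nonunits ∧
      x = ((s : M) : ℂ) / ((t : M) : ℂ) := by
  have : NumberField M := ⟨⟩
  by_cases hP : frcP M V = ⊥
  · obtain ⟨s, t, ht, hst⟩ := IsFractionRing.div_surjective (A := 𝓞 M) (⟨x, hx⟩ : M)
    have ht0 : t ≠ 0 := nonZeroDivisors.ne_zero ht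
    refine ⟨s, t, ?_, ?_⟩
    · intro h
      have h1 : t ∈ frcP M V := h
      rw [hP, Ideal.mem_bot] at h1
      exact ht0 h1
    · have h2 : (((s : M) / (t : M) : M) : ℂ) = x := congrArg (Subtype.val) hst
      rw [← h2]
      push_cast
      rfl
  · let w : HeightOneSpectrum (𝓞 M) := ⟨frcP M V, frcP_prime M V, hP⟩
    have hw : ∀ a : 𝓞 M, a ∈ w.asIdeal ↔ ((a : M) : ℂ) ∈ V.nonunits := fun a => Iff.rfl
    by_cases hx1 : w.valuation M (⟨x, hx⟩ : M) ≤ 1
    · obtain ⟨s, ⟨t, ht⟩, hst⟩ := w.exists_primeCompl_mul_eq_of_integer (⟨x, hx⟩ : M) hx1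
      have ht' : t ∉ w.asIdeal := ht
      have hst' : (⟨x, hx⟩ : M) * (t : M) = (s : M) := hst
      refine ⟨s, t, fun h => ht' ((hw t).2 h), ?_⟩
      have h0 : ((t : M) : ℂ) ≠ 0 := by
        intro h
        apply ht'
        rw [hw, h, ValuationSubring.mem_nonunits_iff, map_zero]
        exact zero_lt_one
      rw [eq_div_iff h0]
      exact congrArg (Subtype.val) hst'
    · exfalso
      push Not at hx1
      have hx0 : (⟨x, hx⟩ : M) ≠ 0 := by
        intro h
        rw [h, map_zero] at hx1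
        exact absurd hx1 (not_lt.2 zero_le_one)
      have hx0' : x ≠ 0 := fun h => hx0 (Subtype.ext h)
      have hi : w.valuation M (⟨x, hx⟩ : M)⁻¹ < 1 := by
        rw [map_inv₀]
        exact inv_lt_one_of_one_lt₀ hx1
      obtain ⟨s, ⟨t, ht⟩, hst⟩ := w.exists_primeCompl_mul_eq_of_integer (⟨x, hx⟩ : M)⁻¹ hi.le
      have ht' : t ∉ w.asIdeal := ht
      have hst' : (⟨x, hx⟩ : M)⁻¹ * (t : M) = (s : M) := hst
      have vt : w.valuation M (t : M) = 1 := w.valuation_eq_one_iff_notMem.mpr ht'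
      have vs : w.valuation M (s : M) < 1 := by
        rw [← hst', map_mul, vt, mul_one]
        exact hi
      have hs : s ∈ w.asIdeal := (w.valuation_lt_one_iff_mem s).mp vs
      have hsV : ((s : M) : ℂ) ∈ V.nonunits := (hw s).1 hs
      have htV : ((t : M) : ℂ) ∉ V.nonunits := fun h => ht' ((hw t).2 h)
      have e1 : x⁻¹ * ((t : M) : ℂ) = ((s : M) : ℂ) := congrArg (Subtype.val) hst'
      have e2 : ((t : M) : ℂ) = x * ((s : M) : ℂ) := by
        rw [← e1, ← mul_assoc, mul_inv_cancel₀ hx0', one_mul]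
      exact htV (e2 ▸ nonunits_mul hV hsV)

theorem tb_FRC : Sb_FRC := by
  intro M _ V
  refine ⟨fun x hx hV => frc_one M V x hx hV, ?_⟩
  intro σ hσ x hx hV
  obtain ⟨s, t, ht, hst⟩ := frc_one M V x hx hV
  set S : ℂ := ((s : M) : ℂ) with hS
  set T : ℂ := ((t : M) : ℂ) with hT
  have hSV : S ∈ V := frc_int M V s
  have hTV : T ∈ V := frc_int M V t
  have h1 : σ S - S ∈ V.nonunits := hσ s
  have h2 : σ T - T ∈ V.nonunits := hσ t
  have hT0 : T ≠ 0 := by
    intro h
    apply ht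
    rw [h, ValuationSubring.mem_nonunits_iff, map_zero]
    exact zero_lt_one
  have hσT0 : σ T ≠ 0 := by
    rw [Ne, map_eq_zero_iff σ σ.injective]
    exact hT0
  have vT : V.valuation T = 1 := by
    rw [ValuationSubring.mem_nonunits_iff, not_lt] at ht
    exact le_antisymm ((V.valuation_le_one_iff T).2 hTV) ht
  have vσT : V.valuation (σ T) = 1 := by
    rw [ValuationSubring.mem_nonunits_iff] at h2
    have : σ T = (σ T - T) + T := by ring
    rw [this, Valuation.map_add_eq_of_lt_right _ (by rw [vT]; exact h2), vT]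
  have key : σ x - x = ((σ S - S) * T - S * (σ T - T)) / (T * σ T) := by
    rw [hst, map_div₀]
    field_simp
    ring
  have hnum : (σ S - S) * T - S * (σ T - T) ∈ V.nonunits := by
    refine nonunits_sub ?_ (nonunits_mul hSV h2)
    rw [mul_comm]
    exact nonunits_mul hTV h1
  rw [key, ValuationSubring.mem_nonunits_iff, map_div₀, map_mul, vT, vσT, mul_one, div_one]
  rw [ValuationSubring.mem_nonunits_iff] at hnum
  exact hnum

end Pool.Agent.VB
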