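import Pool.Agent.VB.StVB
import Pool.Agent.MUX.UAll

/-!
# KDX: Kummer descent (helper27)
-/

set_option autoImplicit false

open Finset

namespace Pool.Agent.VB

open Pool.Agent.RI Pool.Agent.MUXU

private lemma kdx_succ (g : ℂ ≃+* ℂ) (k : ℕ) (x : ℂ) : (g ^ (k + 1)) x = g ((g ^ k) x) := by
  rw [pow_succ']
  rfl

private lemma kdx_add (g : ℂ ≃+* ℂ) (a b : ℕ) (x : ℂ) :
    (g ^ (a + b)) x = (g ^ a) ((g ^ b) x) := by
  rw [pow_add]
  rfl

private lemma kdx_zero (g : ℂ ≃+* ℂ) (x : ℂ) : (g ^ 0) x = x := by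
  rw [pow_zero]
  rfl

private lemma kdx_mul (g : ℂ ≃+* ℂ) (a k : ℕ) (x : ℂ) (h : (g ^ a) x = x) :
    (g ^ (a * k)) x = x := by
  induction k with
  | zero => rw [mul_zero, kdx_zero]
  | succ k ih => rw [Nat.mul_succ, kdx_add, h, ih]

private lemma kdx_shift (g : ℂ ≃+* ℂ) (w : ℂ) (i : ℕ) :
    ∏ k ∈ range (i + 1), (g ^ k) w = w * g (∏ k ∈ range i, (g ^ k) w) := by
  rw [Finset.prod_range_succ', map_prod, kdx_zero, mul_comm]
  congr 1
  exact Finset.prod_congr rfl fun k _ => kdx_succ g k w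

private lemma kdx_tel (g : ℂ ≃+* ℂ) (p : ℕ) (z w : ℂ) (h : g z = z * w ^ p) (i : ℕ) :
    (∏ k ∈ range i, (g ^ k) w) ^ p * z = (g ^ i) z := by
  induction i with
  | zero => simp
  | succ i ih =>
    have h1 : (g ^ (i + 1)) z = (g ^ i) z * ((g ^ i) w) ^ p := by
      rw [kdx_add, pow_one, h, map_mul, map_pow]
    rw [Finset.prod_range_succ, mul_pow, h1, ← ih]
    ring

private lemma kdx_block (g : ℂ ≃+* ℂ) (q : ℕ) (w : ℂ) (h : (g ^ q) w = w) (t : ℕ) :
    ∏ k ∈ range (q * t), (g ^ k) w = (∏ k ∈ range q, (g ^ k) w) ^ t := by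
  induction t with
  | zero => simp
  | succ t ih =>
    rw [Nat.mul_succ, Finset.prod_range_add, ih, pow_succ]
    congr 1
    refine Finset.prod_congr rfl fun k _ => ?_
    rw [add_comm, kdx_add, kdx_mul g q t w h]

private lemma kdx_ord (K E : IntermediateField ℚ ℂ) [FiniteDimensional ℚ E] (hKE : K ≤ E)
    (g : ℂ ≃+* ℂ) (N : ℕ)
    (hgen : ∀ σ : ℂ ≃+* ℂ, Fixes K σ → ∃ i : ℕ, ∀ x ∈ E, σ x = (g ^ i) x)
    (hdeg : Module.finrank ℚ E = Module.finrank ℚ K * N) (d : ℕ) (hd : 0 < d)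
    (hgd : ∀ x ∈ E, (g ^ d) x = x) : N ≤ d := by
  classical
  let _ := algC hKE
  have : FiniteDimensional ℚ K :=
    Module.Finite.of_injective (IntermediateField.inclusion hKE).toLinearMap
      (IntermediateField.inclusion hKE).injective
  have : FiniteDimensional K E := FiniteDimensional.right ℚ K E
  have h1 : Module.finrank ℚ K * Module.finrank K E = Module.finrank ℚ E :=
    Module.finrank_mul_finrank ℚ K E
  have hKpos : 0 < Module.finrank ℚ K := Module.finrank_pos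
  have h2 : Module.finrank K E = N := by
    have : Module.finrank ℚ K * Module.finrank K E = Module.finrank ℚ K * N := by rw [h1, hdeg]
    exact Nat.eq_of_mul_eq_mul_left hKpos this
  have h3 : Fintype.card (E →ₐ[K] ℂ) = N := by
    rw [AlgHom.card K E ℂ, h2]
  have halg : Algebra.IsAlgebraic ℚ E := inferInstance
  have hex : ∀ f : E →ₐ[K] ℂ, ∃ i : ℕ, ∀ x : E, f x = (g ^ i) (x : ℂ) := by
    intro f
    obtain ⟨σ, hσ⟩ := u_AUE E halg (f : E →+* ℂ)
    have hfix : Fixes K σ := by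
      intro x hx
      have e1 := hσ ⟨x, hKE hx⟩
      have e2 : f (algebraMap K E ⟨x, hx⟩) = algebraMap K ℂ ⟨x, hx⟩ := f.commutes _
      exact e1.trans e2
    obtain ⟨i, hi⟩ := hgen σ hfix
    exact ⟨i, fun x => by rw [← hi x x.2]; exact (hσ x).symm⟩
  choose i hi using hex
  have hmod : ∀ (k : ℕ) (x : E), (g ^ k) (x : ℂ) = (g ^ (k % d)) (x : ℂ) := by
    intro k x
    conv_lhs => rw [← Nat.mod_add_div k d]
    rw [kdx_add, kdx_mul g d (k / d) x (hgd x x.2)]
  have hinj : Function.Injective (fun f : E →ₐ[K] ℂ => (⟨i f % d, Nat.mod_lt _ hd⟩ : Fin d)) := by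
    intro f f' hff
    have e : i f % d = i f' % d := congrArg Fin.val hff
    ext x
    rw [hi f x, hi f' x, hmod, e, ← hmod]
  have h4 := Fintype.card_le_of_injective _ hinj
  rw [h3, Fintype.card_fin] at h4
  exact h4

private lemma kdx_dedekind (E : IntermediateField ℚ ℂ) (g : ℂ ≃+* ℂ) (N : ℕ) (hN : 0 < N)
    (hord : ∀ d : ℕ, 0 < d → (∀ x ∈ E, (g ^ d) x = x) → N ≤ d) (c : ℕ → ℂ) (hc : c 0 ≠ 0) :
    ∃ x ∈ E, ∑ i ∈ range N, c i * (g ^ i) x ≠ 0 := by
  by_contra hcon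
  push Not at hcon
  let v : Fin N → (E →* ℂ) := fun i =>
    (((g ^ (i : ℕ) : ℂ ≃+* ℂ) : ℂ →+* ℂ).comp (algebraMap E ℂ) : E →+* ℂ)
  have hv : ∀ (i : Fin N) (x : E), v i x = (g ^ (i : ℕ)) (x : ℂ) := fun i x => rfl
  have hlt : ∀ i k : Fin N, (i : ℕ) < k → v i ≠ v k := by
    intro i k hik h
    have h1 : ∀ x ∈ E, (g ^ ((k : ℕ) - i)) x = x := by
      intro x hx
      have e := congrArg (fun f : E →* ℂ => f ⟨x, hx⟩) h
      simp only [hv] at e
      have e2 : (k : ℕ) = i + (k - i) := by omega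
      rw [e2, kdx_add] at e
      exact ((g ^ (i : ℕ)).injective e).symm
    have := hord _ (by omega) h1
    have := k.2
    omega
  have hinj : Function.Injective v := by
    intro i k h
    rcases lt_trichotomy (i : ℕ) k with h1 | h1 | h1
    · exact absurd h (hlt i k h1)
    · exact Fin.ext h1
    · exact absurd h.symm (hlt k i h1)
  have hli := (linearIndependent_monoidHom E ℂ).comp v hinj
  have h0 := Fintype.linearIndependent_iff.1 hli (fun i => c i) (by
    funext x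
    have h1 := hcon x x.2
    rw [Finset.sum_range] at h1
    rw [Finset.sum_apply]
    exact h1) ⟨0, hN⟩
  exact hc h0

theorem tb_KDX : Sb_KDX := by
  intro p _ F B n₁ γ hT j m z w hjm hz hz0 hw hgz
  have hp : p.Prime := Fact.out
  set g : ℂ ≃+* ℂ := γ ^ p ^ j with hg
  set K : IntermediateField ℚ ℂ := F ⊔ B (n₁ + j) with hK
  set E : IntermediateField ℚ ℂ := F ⊔ B (n₁ + (m + 1)) with hE
  set M : IntermediateField ℚ ℂ := F ⊔ B (n₁ + m) with hM
  set q : ℕ := p ^ (m - j) with hq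
  have : FiniteDimensional ℚ E := hT.fd _
  have : FiniteDimensional ℚ K := hT.fd _
  have hKE : K ≤ E := sup_le_sup_left (hT.mono (by omega)) F
  have hME : M ≤ E := sup_le_sup_left (hT.mono (by omega)) F
  have hgpow : ∀ i : ℕ, g ^ i = γ ^ (p ^ j * i) := by
    intro i
    rw [hg, ← pow_mul]
  have hgq : g ^ q = γ ^ p ^ m := by
    rw [hgpow, hq, ← pow_add]
    congr 2
    omega
  have hgN : g ^ (q * p) = γ ^ p ^ (m + 1) := by
    rw [pow_mul, hgq, ← pow_mul, ← pow_succ]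
  have hgM : ∀ x ∈ M, (g ^ q) x = x := by
    intro x hx
    rw [hgq]
    exact hT.fix m x hx
  have hgE : ∀ x ∈ E, (g ^ (q * p)) x = x := by
    intro x hx
    rw [hgN]
    exact hT.fix (m + 1) x hx
  have hgen : ∀ σ : ℂ ≃+* ℂ, Fixes K σ → ∃ i : ℕ, ∀ x ∈ E, σ x = (g ^ i) x := by
    intro σ hσ
    obtain ⟨i, hi⟩ := hT.gen j (m + 1) (by omega) σ hσ
    exact ⟨i, fun x hx => by rw [hi x hx, hgpow]⟩
  have hdeg : Module.finrank ℚ E = Module.finrank ℚ K * (q * p) := by
    have e1 := hT.deg (m + 1)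
    have e2 := hT.deg j
    rw [hE, hK, e1, e2, hq, mul_assoc]
    congr 1
    rw [← pow_succ, ← pow_add]
    congr 1
    omega
  have hqpos : 0 < q := by
    rw [hq]
    exact pow_pos hp.pos _
  have hNpos : 0 < q * p := Nat.mul_pos hqpos hp.pos
  have hord := fun d hd h => kdx_ord K E hKE g (q * p) hgen hdeg d hd h
  -- stability
  have hγF : Fixes F γ := by
    intro x hx
    have h := hT.fix 0 x ((le_sup_left : F ≤ F ⊔ B (n₁ + 0)) hx)
    rwa [pow_zero, pow_one] at h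
  have hst : ∀ x ∈ E, γ x ∈ E :=
    (nrm_sup (nrm_self F) (nrm_mono bot_le (hT.nrm _)) : Nrm F E) γ hγF
  have hstg : ∀ (k : ℕ), ∀ x ∈ E, (γ ^ k) x ∈ E := by
    intro k x hx
    induction k with
    | zero => rw [kdx_zero]; exact hx
    | succ k ih => rw [kdx_succ]; exact hst _ ih
  have hstg' : ∀ (k : ℕ), ∀ x ∈ E, (g ^ k) x ∈ E := by
    intro k x hx
    rw [hgpow]
    exact hstg _ x hx
  -- the coefficients
  set c : ℕ → ℂ := fun i => ∏ k ∈ range i, (g ^ k) w with hc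
  have hc0 : c 0 = 1 := by simp [hc]
  have hcE : ∀ i, c i ∈ E := fun i => prod_mem fun k _ => hstg' k w (hME hw)
  have hcs : ∀ i, c (i + 1) = w * g (c i) := fun i => kdx_shift g w i
  have hcN : c (q * p) = 1 := by
    have e1 : c (q * p) = (c q) ^ p := kdx_block g q w (hgM w hw) p
    have e2 : (c q) ^ p * z = (g ^ q) z := kdx_tel g p z w hgz q
    rw [hgM z hz] at e2
    rw [e1]
    have e3 : ((c q) ^ p - 1) * z = 0 := by rw [sub_mul, e2, one_mul, sub_self]
    rcases mul_eq_zero.1 e3 with h | h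
    · exact sub_eq_zero.1 h
    · exact absurd h hz0
  obtain ⟨x, hx, hS⟩ := kdx_dedekind E g (q * p) hNpos hord c (by rw [hc0]; exact one_ne_zero)
  set S : ℂ := ∑ i ∈ range (q * p), c i * (g ^ i) x with hSdef
  have hSE : S ∈ E := sum_mem fun i _ => mul_mem (hcE i) (hstg' i x hx)
  have hwS : w * g S = S := by
    have e1 : w * g S = ∑ i ∈ range (q * p), c (i + 1) * (g ^ (i + 1)) x := by
      rw [hSdef, map_sum, Finset.mul_sum]
      refine Finset.sum_congr rfl fun i _ => ?_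
      rw [map_mul, hcs, kdx_succ]
      ring
    have e2 := Finset.sum_range_succ (fun i => c i * (g ^ i) x) (q * p)
    have e3 := Finset.sum_range_succ' (fun i => c i * (g ^ i) x) (q * p)
    rw [e2] at e3
    rw [hcN, hgE x hx, hc0, kdx_zero] at e3
    rw [e1]
    have e4 := add_right_cancel e3
    exact e4.symm
  have hgS : (g S) ≠ 0 := by
    intro h
    rw [h, mul_zero] at hwS
    exact hS hwS.symm
  set y : ℂ := z * S ^ p with hy
  have hyE : y ∈ E := mul_mem (hME hz) (pow_mem hSE p)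
  have hgy : g y = y := by
    rw [hy, map_mul, map_pow, hgz]
    conv_rhs => rw [← hwS]
    ring
  have hgy' : ∀ i : ℕ, (g ^ i) y = y := by
    intro i
    induction i with
    | zero => exact kdx_zero g y
    | succ i ih => rw [kdx_succ, ih, hgy]
  have hyK : y ∈ K := by
    refine u_AUF K inferInstance y fun σ hσ => ?_
    obtain ⟨i, hi⟩ := hgen σ hσ
    rw [hi y hyE, hgy']
  refine ⟨y, hyK, S⁻¹, inv_mem hSE, inv_ne_zero hS, ?_⟩
  rw [hy, mul_assoc, ← mul_pow, mul_inv_cancel₀ hS, one_pow, mul_one]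

end Pool.Agent.VB
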